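import Pool.Agent.Helper74.Apx.Defs
import Pool.Agent.Helper74.Cons.COne
import Pool.Agent.Helper74.Full.Detect

/-! A15: distance functions are limits of `C¹` functions -/

set_option autoImplicit false

open scoped Topology Pointwise
open Filter Set

namespace Pool.Agent.Helper74.Apx

universe u

namespace DistApprox

open Pool.Agent.Helper74.Rsd

variable {X : Type u} [NormedAddCommGroup X] [NormedSpace ℝ X]

theorem hasFDerivAt_sq {q : X → ℝ} {x : X} (h : DifferentiableAt ℝ q x) :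
    HasFDerivAt (fun x => q x ^ 2) ((2 * q x) • fderiv ℝ q x) x := by
  have h1 := h.hasFDerivAt.pow 2
  have h2 : (2 • q x ^ (2 - 1)) • fderiv ℝ q x = (2 * q x) • fderiv ℝ q x := by
    simp [two_smul, two_mul]
  rw [h2] at h1
  exact h1

theorem hasFDerivAt_sq_zero {q : X → ℝ} {a b : ℝ} (hq : IsEqNorm q a b) :
    HasFDerivAt (fun x => q x ^ 2) (0 : X →L[ℝ] ℝ) 0 := by
  have h0 : q 0 = 0 := Nm.map_zero hq
  rw [hasFDerivAt_iff_isLittleO_nhds_zero, Asymptotics.isLittleO_iff]
  intro c hc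
  have hb := hq.b_pos
  rw [Metric.eventually_nhds_iff]
  refine ⟨c / b ^ 2, by positivity, fun y hy => ?_⟩
  rw [dist_zero_right] at hy
  simp only [zero_add, h0, _root_.zero_apply, sub_zero]
  have h1 := hq.upper y
  have h2 := hq.lower y
  have h3 : 0 ≤ q y := (mul_nonneg hq.a_pos.le (norm_nonneg y)).trans h2
  have h4 : q y ^ 2 ≤ (b * ‖y‖) ^ 2 := pow_le_pow_left₀ h3 h1 2
  have h5 : b ^ 2 * ‖y‖ ≤ c := by
    rw [lt_div_iff₀ (by positivity)] at hy
    linarith
  have h6 : ((0 : ℝ) ^ 2) = 0 := by norm_num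
  rw [h6, sub_zero, Real.norm_of_nonneg (by positivity)]
  calc q y ^ 2 ≤ (b * ‖y‖) ^ 2 := h4
    _ = (b ^ 2 * ‖y‖) * ‖y‖ := by ring
    _ ≤ c * ‖y‖ := mul_le_mul_of_nonneg_right h5 (norm_nonneg y)

theorem contDiff_sq (q : Nm X) (h : ∀ x : X, x ≠ 0 → DifferentiableAt ℝ q.1 x) :
    ContDiff ℝ 1 (fun x => q.1 x ^ 2) := by
  have hon := Cons.contDiffOn_norm q h
  obtain ⟨q, a, b, hq⟩ := q
  change ∀ x : X, x ≠ 0 → DifferentiableAt ℝ q x at h
  change ContDiffOn ℝ 1 q {x | x ≠ 0} at hon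
  change ContDiff ℝ 1 (fun x => q x ^ 2)
  have h0 := hasFDerivAt_sq_zero hq
  have hb := hq.b_pos
  rw [contDiff_one_iff_fderiv]
  constructor
  · intro x
    by_cases hx : x = 0
    · rw [hx]; exact h0.differentiableAt
    · exact (hasFDerivAt_sq (h x hx)).differentiableAt
  · rw [continuous_iff_continuousAt]
    intro x
    by_cases hx : x = 0
    · rw [hx, Metric.continuousAt_iff]
      intro ε hε
      refine ⟨ε / (2 * b ^ 2), by positivity, fun {y} hy => ?_⟩
      rw [h0.fderiv, dist_zero_right]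
      rw [dist_zero_right] at hy
      by_cases hy0 : y = 0
      · rw [hy0, h0.fderiv, norm_zero]; exact hε
      · rw [(hasFDerivAt_sq (h y hy0)).fderiv, norm_smul]
        have h1 := Cons.COne.norm_deriv_le hq (h y hy0)
        have h2 := hq.upper y
        have h3 : 0 ≤ q y := (mul_nonneg hq.a_pos.le (norm_nonneg y)).trans (hq.lower y)
        rw [Real.norm_of_nonneg (by positivity)]
        rw [lt_div_iff₀ (by positivity)] at hy
        calc 2 * q y * ‖fderiv ℝ q y‖ ≤ 2 * (b * ‖y‖) * b := by gcongr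
          _ = ‖y‖ * (2 * b ^ 2) := by ring
          _ < ε := hy
    · have h1 : ContDiffAt ℝ 1 (fun x => q x ^ 2) x :=
        ((hon.contDiffAt (isOpen_ne.mem_nhds hx)).pow 2)
      have h2 : ContDiffAt ℝ 0 (fderiv ℝ (fun x => q x ^ 2)) x :=
        h1.fderiv_right (by simp)
      exact h2.continuousAt

theorem infDist_le_norm {A : Set X} (hA : Full.IsQ A) (x : X) : Metric.infDist x A ≤ ‖x‖ := by
  have := Metric.infDist_le_dist_of_mem (x := x) hA.zero
  rwa [dist_zero_right] at this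

theorem infDist_add {A : Set X} (hA : Full.IsQ A) (x y : X) :
    Metric.infDist (x + y) A ≤ Metric.infDist x A + Metric.infDist y A := by
  refine le_of_forall_pos_le_add fun δ hδ => ?_
  obtain ⟨v, hv, h1⟩ := (Metric.infDist_lt_iff ⟨0, hA.zero⟩).1
    (show Metric.infDist x A < Metric.infDist x A + δ / 2 by linarith)
  obtain ⟨w, hw, h2⟩ := (Metric.infDist_lt_iff ⟨0, hA.zero⟩).1
    (show Metric.infDist y A < Metric.infDist y A + δ / 2 by linarith)
  have h3 := Metric.infDist_le_dist_of_mem (x := x + y) (hA.add v hv w hw)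
  have h4 := dist_add_add_le x y v w
  linarith

theorem infDist_smul {A : Set X} (hA : Full.IsQ A) (c : ℝ) (x : X) :
    Metric.infDist (c • x) A = |c| * Metric.infDist x A := by
  by_cases hc : c = 0
  · rw [hc, zero_smul, abs_zero, zero_mul]
    exact Metric.infDist_zero_of_mem hA.zero
  · rw [← Metric.infDist_closure (s := A), ← Metric.infDist_closure (s := A) (x := x)]
    have h1 : c • closure A = closure A := by
      apply Subset.antisymm
      · rintro y ⟨z, hz, rfl⟩
        exact Full.Detect.smul_mem hA c hz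
      · intro y hy
        refine ⟨c⁻¹ • y, Full.Detect.smul_mem hA c⁻¹ hy, ?_⟩
        simp only [smul_inv_smul₀ hc]
    have h2 := infDist_smul₀ hc (closure A) x
    rw [h1, Real.norm_eq_abs] at h2
    exact h2

theorem isEqNorm_dist {A : Set X} (hA : Full.IsQ A) (δ : ℝ) (hδ : 0 < δ) :
    IsEqNorm (fun x => Metric.infDist x A + δ * ‖x‖) δ (1 + δ) := by
  refine ⟨?_, ?_, hδ, by linarith, ?_, ?_⟩
  · intro x y
    have h1 := infDist_add hA x y
    have h2 := mul_le_mul_of_nonneg_left (norm_add_le x y) hδ.le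
    linarith
  · intro c x
    rw [infDist_smul hA, norm_smul, Real.norm_eq_abs]
    ring
  · intro x
    have h1 : 0 ≤ Metric.infDist x A := Metric.infDist_nonneg
    linarith
  · intro x
    have h1 := infDist_le_norm hA x
    linarith

end DistApprox

open Pool.Agent.Helper74.Rsd in
theorem approx_dist {X : Type u} [NormedAddCommGroup X] [NormedSpace ℝ X]
    (hdense : ∀ (p : Nm X) (ε : ℝ), 0 < ε → ∃ q : Nm X,
      (∀ x : X, x ≠ 0 → DifferentiableAt ℝ q.1 x) ∧ ∀ x, |p.1 x - q.1 x| ≤ ε * ‖x‖)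
    (A : Set X) (hA : Full.IsQ A) (R η : ℝ) (hη : 0 < η) :
    ∃ g : X → ℝ, ContDiff ℝ 1 g ∧ ∀ x, ‖x‖ ≤ R → |g x - Metric.infDist x A| ≤ η := by
  have hR : 0 < |R| + 1 := by positivity
  set δ : ℝ := η / (4 * (|R| + 1)) with hδd
  have hδ : 0 < δ := by positivity
  obtain ⟨q, hq1, hq2⟩ := hdense ⟨fun x => Metric.infDist x A + δ * ‖x‖, δ, 1 + δ,
    DistApprox.isEqNorm_dist hA δ hδ⟩ δ hδ
  have hsq := DistApprox.contDiff_sq q hq1
  have hpos : ∀ x : X, 0 < q.1 x ^ 2 + (η / 2) ^ 2 := fun x => by positivity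
  refine ⟨fun x => Real.sqrt (q.1 x ^ 2 + (η / 2) ^ 2), ?_, ?_⟩
  · exact (hsq.add contDiff_const).sqrt fun x => (hpos x).ne'
  · intro x hx
    have h0 : 0 ≤ q.1 x := by
      obtain ⟨q, a, b, hq⟩ := q
      exact (mul_nonneg hq.a_pos.le (norm_nonneg x)).trans (hq.lower x)
    have h1 : q.1 x ≤ Real.sqrt (q.1 x ^ 2 + (η / 2) ^ 2) := by
      apply Real.le_sqrt_of_sq_le
      nlinarith
    have h2 : Real.sqrt (q.1 x ^ 2 + (η / 2) ^ 2) ≤ q.1 x + η / 2 := by
      rw [Real.sqrt_le_left (by positivity)]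
      nlinarith
    have h3 := abs_le.1 (hq2 x)
    simp only at h3
    have h4 : δ * ‖x‖ ≤ η / 4 := by
      have h5 : ‖x‖ ≤ |R| + 1 := by
        have := le_abs_self R
        linarith
      calc δ * ‖x‖ ≤ δ * (|R| + 1) := mul_le_mul_of_nonneg_left h5 hδ.le
        _ = η / 4 := by rw [hδd]; field_simp
    have h6 : 0 ≤ δ * ‖x‖ := by positivity
    rw [abs_le]
    constructor <;> linarith

open Pool.Agent.Helper74.Rsd in
theorem led_of_norm {X : Type u} [NormedAddCommGroup X] [NormedSpace ℝ X] (q : Nm X)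
    (hq : ∀ x : X, x ≠ 0 → DifferentiableAt ℝ q.1 x) : ∃ a A, Led 1 (fun x => q.1 x ^ 2) a A := by
  have hon := Cons.contDiffOn_norm q hq
  obtain ⟨q, a, b, h⟩ := q
  change ∀ x : X, x ≠ 0 → DifferentiableAt ℝ q x at hq
  change ContDiffOn ℝ 1 q {x | x ≠ 0} at hon
  have ha := h.a_pos
  have hb := h.b_pos
  have h0 : ∀ x, 0 ≤ q x := fun x => (mul_nonneg h.a_pos.le (norm_nonneg x)).trans (h.lower x)
  refine ⟨a ^ 2, b ^ 2, by positivity, ?_, ?_, hon.pow 2, ?_⟩
  · intro x
    simp only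
    rw [← mul_pow]
    exact pow_le_pow_left₀ (by positivity) (h.lower x) 2
  · intro x
    simp only
    rw [← mul_pow]
    exact pow_le_pow_left₀ (h0 x) (h.upper x) 2
  · intro x hx
    simp only
    rw [(DistApprox.hasFDerivAt_sq (hq x hx)).fderiv]
    simp only [_root_.smul_apply, smul_eq_mul]
    rw [Cons.COne.deriv_self h (hq x hx)]
    ring

end Pool.Agent.Helper74.Apx
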