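import Pool.Agent.Helper74.Apx.Defs

set_option autoImplicit false

open scoped Topology
open Filter Set

namespace Pool.Agent.Helper74.Apx

universe u

namespace Cell

lemma st_ne_zero_iff (t : ℝ) : Real.smoothTransition t ≠ 0 ↔ 0 < t := by
  constructor
  · intro h
    by_contra hcon
    exact h (Real.smoothTransition.zero_of_nonpos (not_lt.mp hcon))
  · intro h
    exact (Real.smoothTransition.pos_of_pos h).ne'

/-- nonzero iff `|t| > q` -/
noncomputable def al (q t : ℝ) : ℝ := Real.smoothTransition (t ^ 2 - q ^ 2)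

/-- equal to one for `|t| ≤ q/2`, nonzero iff `|t| < q` -/
noncomputable def bl (q t : ℝ) : ℝ :=
  Real.smoothTransition ((q ^ 2 - t ^ 2) / (q ^ 2 - (q / 2) ^ 2))

lemma al_nonneg (q t : ℝ) : 0 ≤ al q t := Real.smoothTransition.nonneg _
lemma bl_nonneg (q t : ℝ) : 0 ≤ bl q t := Real.smoothTransition.nonneg _

lemma al_ne_zero {q : ℝ} (hq : 0 < q) (t : ℝ) : al q t ≠ 0 ↔ q < |t| := by
  rw [al, st_ne_zero_iff, sub_pos, sq_lt_sq, abs_of_pos hq]

lemma bl_ne_zero {q : ℝ} (hq : 0 < q) (t : ℝ) : bl q t ≠ 0 ↔ |t| < q := by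
  have h1 : 0 < q ^ 2 - (q / 2) ^ 2 := by nlinarith
  rw [bl, st_ne_zero_iff, div_pos_iff_of_pos_right h1, sub_pos, sq_lt_sq, abs_of_pos hq]

lemma bl_eq_one {q : ℝ} (hq : 0 < q) {t : ℝ} (ht : |t| < q / 2) : bl q t = 1 := by
  have h1 : 0 < q ^ 2 - (q / 2) ^ 2 := by nlinarith
  apply Real.smoothTransition.one_of_one_le
  rw [le_div_iff₀ h1]
  have h2 : t ^ 2 ≤ (q / 2) ^ 2 := by
    rw [sq_le_sq, abs_of_pos (by linarith : (0:ℝ) < q / 2)]
    exact ht.le
  linarith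

lemma al_contDiff {n : WithTop ℕ∞} (hn : n ≤ ((⊤ : ℕ∞) : WithTop ℕ∞)) (q : ℝ) :
    ContDiff ℝ n (al q) := by
  unfold al
  have h : ContDiff ℝ ((⊤ : ℕ∞) : WithTop ℕ∞) (fun t : ℝ => Real.smoothTransition (t ^ 2 - q ^ 2)) :=
    Real.smoothTransition.contDiff.comp (by fun_prop)
  exact h.of_le hn

lemma bl_contDiff {n : WithTop ℕ∞} (hn : n ≤ ((⊤ : ℕ∞) : WithTop ℕ∞)) (q : ℝ) :
    ContDiff ℝ n (bl q) := by
  unfold bl
  have h : ContDiff ℝ ((⊤ : ℕ∞) : WithTop ℕ∞)
      (fun t : ℝ => Real.smoothTransition ((q ^ 2 - t ^ 2) / (q ^ 2 - (q / 2) ^ 2))) :=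
    Real.smoothTransition.contDiff.comp (by fun_prop)
  exact h.of_le hn

end Cell

open Cell in
theorem cell {X : Type*} [NormedAddCommGroup X] [NormedSpace ℝ X] {n : WithTop ℕ∞}
    (hn : n ≤ ((⊤ : ℕ∞) : WithTop ℕ∞)) {Γ : Type*} (f : Γ → X → ℝ)
    (hf : ∀ γ, ContDiff ℝ n (f γ)) (β : X → ℝ) (hβ : ContDiff ℝ n β) (hβ0 : ∀ x, 0 ≤ β x)
    (O : Set X) (hO : IsOpen O) (hβO : closure {x | β x ≠ 0} ⊆ O) (q₁ q₂ : ℝ)
    (h0 : 0 < q₁) (h12 : q₁ < q₂)
    (hfin : ∀ x ∈ O, ∃ U ∈ 𝓝 x, {γ | ∃ y ∈ U, q₁ / 2 ≤ |f γ y|}.Finite)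
    (heq : ∀ x ∈ O, ∃ U ∈ 𝓝 x, ∀ y ∈ U, ∀ y' ∈ U, ∀ γ, |f γ y - f γ y'| < q₂ - q₁) :
    ∃ p : Finset Γ → X → ℝ, Disc n p ∧ ∀ (G : Finset Γ) (x : X),
      p G x ≠ 0 ↔ β x ≠ 0 ∧ (∀ γ ∈ G, q₂ < |f γ x|) ∧ (∀ γ ∉ G, |f γ x| < q₁) := by
  classical
  have h2 : 0 < q₂ := h0.trans h12
  let c : Finset Γ → Γ → X → ℝ := fun G γ x => if γ ∈ G then 1 else bl q₁ (f γ x)
  let p : Finset Γ → X → ℝ := fun G x => β x * (∏ γ ∈ G, al q₂ (f γ x)) * ∏ᶠ γ, c G γ x
  have hcne : ∀ G γ x, c G γ x ≠ 1 → q₁ / 2 ≤ |f γ x| := by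
    intro G γ x h
    by_contra hcon
    apply h
    simp only [c]
    split_ifs with hG
    · rfl
    · exact bl_eq_one h0 (not_le.mp hcon)
  -- local finite product formula
  have hloc : ∀ x ∈ O, ∃ U ∈ 𝓝 x, ∃ S : Finset Γ, ∀ G, ∀ y ∈ U,
      (∏ᶠ γ, c G γ y) = ∏ γ ∈ S, c G γ y := by
    intro x hx
    obtain ⟨U, hU, hUf⟩ := hfin x hx
    refine ⟨U, hU, hUf.toFinset, fun G y hy => ?_⟩
    apply finprod_eq_prod_of_mulSupport_subset
    intro γ hγ
    rw [Function.mem_mulSupport] at hγ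
    rw [Finite.coe_toFinset]
    exact ⟨y, hy, hcne G γ y hγ⟩
  have hpne : ∀ (G : Finset Γ) (x : X),
      p G x ≠ 0 ↔ β x ≠ 0 ∧ (∀ γ ∈ G, q₂ < |f γ x|) ∧ (∀ γ ∉ G, |f γ x| < q₁) := by
    intro G x
    by_cases hβx : β x = 0
    · simp [p, hβx]
    have hxO : x ∈ O := hβO (subset_closure hβx)
    obtain ⟨U, hU, S, hS⟩ := hloc x hxO
    have hx := hS G x (mem_of_mem_nhds hU)
    have hcx : ∀ γ, c G γ x ≠ 0 ↔ (γ ∉ G → |f γ x| < q₁) := by
      intro γ
      simp only [c]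
      split_ifs with hG
      · simp [hG]
      · rw [bl_ne_zero h0]
        simp [hG]
    simp only [p]
    rw [hx, mul_ne_zero_iff, mul_ne_zero_iff, Finset.prod_ne_zero_iff, Finset.prod_ne_zero_iff]
    constructor
    · rintro ⟨⟨_, h3⟩, h4⟩
      refine ⟨hβx, fun γ hγ => (al_ne_zero h2 _).1 (h3 γ hγ), fun γ hγ => ?_⟩
      by_cases hγS : γ ∈ S
      · exact (hcx γ).1 (h4 γ hγS) hγ
      · -- outside `S` the factor is one
        by_contra hcon
        -- the factor is zero, so the finprod is not the product over `S`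
        have h5 : c G γ x = 0 := by
          by_contra h6
          exact hcon ((hcx γ).1 h6 hγ)
        have h7 : γ ∈ S := by
          -- use the finiteness of the multiplicative support
          by_contra h8
          have h9 : (∏ᶠ γ, c G γ x) = 0 := by
            obtain ⟨U', hU', hUf'⟩ := hfin x hxO
            have h10 : (∏ᶠ γ, c G γ x) = ∏ γ ∈ hUf'.toFinset, c G γ x := by
              apply finprod_eq_prod_of_mulSupport_subset
              intro γ' hγ'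
              rw [Function.mem_mulSupport] at hγ'
              rw [Finite.coe_toFinset]
              exact ⟨x, mem_of_mem_nhds hU', hcne G γ' x hγ'⟩
            rw [h10]
            apply Finset.prod_eq_zero (i := γ) _ h5
            rw [Finite.mem_toFinset]
            exact ⟨x, mem_of_mem_nhds hU', hcne G γ x (by rw [h5]; norm_num)⟩
          rw [hx] at h9
          exact (Finset.prod_ne_zero_iff.2 h4) h9
        exact hγS h7
    · rintro ⟨_, h3, h4⟩
      exact ⟨⟨hβx, fun γ hγ => (al_ne_zero h2 _).2 (h3 γ hγ)⟩, fun γ _ => (hcx γ).2 (h4 γ)⟩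
  refine ⟨p, ⟨?_, ?_, ?_⟩, hpne⟩
  · -- smoothness
    intro G
    rw [contDiff_iff_contDiffAt]
    intro x
    by_cases hx : x ∈ O
    · obtain ⟨U, hU, S, hS⟩ := hloc x hx
      have h1 : ContDiff ℝ n (fun y => β y * (∏ γ ∈ G, al q₂ (f γ y)) * ∏ γ ∈ S, c G γ y) := by
        refine (hβ.mul (contDiff_prod (fun γ _ => (al_contDiff hn q₂).comp (hf γ)))).mul
          (contDiff_prod (fun γ _ => ?_))
        simp only [c]
        split_ifs
        · exact contDiff_const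
        · exact (bl_contDiff hn q₁).comp (hf γ)
      refine h1.contDiffAt.congr_of_eventuallyEq ?_
      filter_upwards [hU] with y hy
      simp only [p]
      rw [hS G y hy]
    · have h3 : (closure {x | β x ≠ 0})ᶜ ∈ 𝓝 x :=
        isClosed_closure.isOpen_compl.mem_nhds (fun h => hx (hβO h))
      refine (contDiff_const (c := (0:ℝ))).contDiffAt.congr_of_eventuallyEq ?_
      filter_upwards [h3] with y hy
      have h4 : β y = 0 := by
        by_contra h5
        exact hy (subset_closure h5)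
      simp [p, h4]
  · -- nonnegativity
    intro G x
    simp only [p]
    refine mul_nonneg (mul_nonneg (hβ0 x) (Finset.prod_nonneg (fun γ _ => al_nonneg _ _))) ?_
    apply finprod_nonneg
    intro γ
    simp only [c]
    split_ifs
    · norm_num
    · exact bl_nonneg _ _
  · -- discreteness
    intro x
    by_cases hx : x ∈ O
    · obtain ⟨U, hU, hUe⟩ := heq x hx
      refine ⟨U, hU, fun G G' y hy y' hy' hp hp' => ?_⟩
      obtain ⟨_, h3, h4⟩ := (hpne G y).1 hp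
      obtain ⟨_, h5, h6⟩ := (hpne G' y').1 hp'
      ext γ
      constructor
      · intro hγ
        by_contra hγ'
        have h7 := h3 γ hγ
        have h8 := h6 γ hγ'
        have h9 := hUe y hy y' hy' γ
        have h10 := abs_sub_abs_le_abs_sub (f γ y) (f γ y')
        linarith
      · intro hγ'
        by_contra hγ
        have h7 := h5 γ hγ'
        have h8 := h4 γ hγ
        have h9 := hUe y' hy' y hy γ
        have h10 := abs_sub_abs_le_abs_sub (f γ y') (f γ y)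
        linarith
    · have h3 : (closure {x | β x ≠ 0})ᶜ ∈ 𝓝 x :=
        isClosed_closure.isOpen_compl.mem_nhds (fun h => hx (hβO h))
      refine ⟨_, h3, fun G G' y hy y' hy' hp hp' => ?_⟩
      exact absurd (subset_closure ((hpne G y).1 hp).1) hy

theorem gap {Γ : Type*} (t : Γ → ℝ) (ht : ∀ q > (0 : ℝ), {γ | q ≤ |t γ|}.Finite) (q : ℝ)
    (hq : 0 < q) : ∃ q₁ q₂ : ℚ, 0 < q₁ ∧ q₁ < q₂ ∧ (q₂ : ℝ) < q ∧
      ∀ γ, |t γ| < q₁ ∨ (q₂ : ℝ) < |t γ| := by
  classical
  have hfin := ht (q / 2) (by linarith)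
  -- the finite set of values
  have hV : ((fun γ => |t γ|) '' {γ | q / 2 ≤ |t γ|}).Finite := hfin.image _
  set V : Set ℝ := (fun γ => |t γ|) '' {γ | q / 2 ≤ |t γ|} with hVdef
  -- the open set of points of `(q/2, q)` which are not values
  have hopen : IsOpen (Ioo (q / 2) q \ V) := isOpen_Ioo.sdiff hV.isClosed
  have hne : (Ioo (q / 2) q \ V).Nonempty := by
    have hinf : (Ioo (q / 2) q).Infinite := Ioo_infinite (by linarith)
    exact (hinf.sdiff hV).nonempty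
  obtain ⟨r, hr⟩ := hne
  obtain ⟨ε, hε, hball⟩ := Metric.isOpen_iff.1 hopen r hr
  obtain ⟨q₁, h1, h1'⟩ := exists_rat_btwn (show r - ε < r by linarith)
  obtain ⟨q₂, h2, h2'⟩ := exists_rat_btwn (show r < r + ε by linarith)
  have hb : ∀ s : ℝ, (q₁ : ℝ) ≤ s → s ≤ q₂ → s ∈ Ioo (q / 2) q \ V := by
    intro s hs1 hs2
    apply hball
    rw [Metric.mem_ball, Real.dist_eq, abs_lt]
    constructor <;> linarith
  have hq1 := hb q₁ le_rfl (by linarith)
  have hq2 := hb q₂ (by linarith) le_rfl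
  refine ⟨q₁, q₂, ?_, ?_, hq2.1.2, ?_⟩
  · have h3 : (0:ℝ) < q₁ := by have := hq1.1.1; linarith
    exact_mod_cast h3
  · have h3 : (q₁ : ℝ) < q₂ := by linarith
    exact_mod_cast h3
  · intro γ
    by_contra hcon
    push Not at hcon
    have h4 := hb |t γ| hcon.1 hcon.2
    apply h4.2
    exact ⟨γ, h4.1.1.le, rfl⟩

end Pool.Agent.Helper74.Apx
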