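import Pool.Agent.Helper74.Apx.Defs

/-!
The closure of a set under a finitary set-valued operation.
-/

set_option autoImplicit false

open scoped Topology
open Filter Set

namespace Pool.Agent.Helper74.Apx

universe u

section A6
variable {E : Type u} {gen : Finset E → Set E}

theorem subset_Cl (S : Set E) : S ⊆ Cl gen S := fun x hx => ClP.base x hx

theorem gen_subset_Cl (S : Set E) (F : Finset E) (hF : (↑F : Set E) ⊆ Cl gen S) :
    gen F ⊆ Cl gen S := fun x hx => ClP.step F x (fun _ hy => hF hy) hx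

theorem Cl_min {S A : Set E} (hSA : S ⊆ A) (hA : ∀ F : Finset E, (↑F : Set E) ⊆ A → gen F ⊆ A) :
    Cl gen S ⊆ A := by
  intro x hx
  have hx' : ClP gen S x := hx
  clear hx
  induction hx' with
  | base x hx => exact hSA hx
  | step F x h hxF ih => exact hA F (fun y hy => ih y hy) hxF

theorem Cl_mono {S T : Set E} (h : S ⊆ T) : Cl gen S ⊆ Cl gen T :=
  Cl_min (h.trans (subset_Cl T)) (fun F hF => gen_subset_Cl T F hF)

namespace ClOp

theorem exists_index {ι : Type*} [Nonempty ι] (C : ι → Set E) (hC : Directed (· ⊆ ·) C)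
    (F : Finset E) (hF : (↑F : Set E) ⊆ ⋃ i, C i) : ∃ i, (↑F : Set E) ⊆ C i := by
  classical
  induction F using Finset.induction_on with
  | empty => exact ⟨Classical.arbitrary ι, by simp⟩
  | insert a s _ ih =>
    have hs : (↑s : Set E) ⊆ ⋃ i, C i := fun y hy => hF (by simp [Finset.mem_coe.1 hy])
    obtain ⟨i, hi⟩ := ih hs
    have ha : a ∈ ⋃ i, C i := hF (by simp)
    obtain ⟨j, hj⟩ := mem_iUnion.1 ha
    obtain ⟨k, hik, hjk⟩ := hC i j
    refine ⟨k, ?_⟩
    intro y hy
    rw [Finset.coe_insert, Set.mem_insert_iff] at hy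
    rcases hy with rfl | hy
    · exact hjk hj
    · exact hik (hi hy)

/-- the stages of the closure -/
def stage (gen : Finset E → Set E) (S : Set E) : ℕ → Set E
  | 0 => S
  | n + 1 => stage gen S n ∪ ⋃ F : {F : Finset E // (↑F : Set E) ⊆ stage gen S n}, gen F.1

theorem stage_mono (S : Set E) : Monotone (stage gen S) :=
  monotone_nat_of_le_succ (fun _ => subset_union_left)

theorem Cl_subset (S : Set E) : Cl gen S ⊆ ⋃ n, stage gen S n := by
  refine Cl_min ?_ ?_
  · intro x hx
    exact mem_iUnion.2 ⟨0, hx⟩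
  · intro F hF
    obtain ⟨n, hn⟩ := exists_index (stage gen S) (stage_mono S).directed_le F hF
    intro x hx
    exact mem_iUnion.2 ⟨n + 1, Or.inr (mem_iUnion.2 ⟨⟨F, hn⟩, hx⟩)⟩

theorem mk_finsets (A : Set E) :
    Cardinal.mk {F : Finset E // (↑F : Set E) ⊆ A} ≤ max (Cardinal.mk A) Cardinal.aleph0 := by
  classical
  have h : Function.Surjective (fun l : List A =>
      (⟨(l.map Subtype.val).toFinset, by
        intro y hy
        have hy' : y ∈ (l.map Subtype.val).toFinset := hy
        rw [List.mem_toFinset, List.mem_map] at hy'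
        obtain ⟨z, -, rfl⟩ := hy'
        exact z.2⟩ : {F : Finset E // (↑F : Set E) ⊆ A})) := by
    rintro ⟨F, hF⟩
    refine ⟨F.toList.attach.map (fun y => ⟨y.1, hF (by simpa using y.2)⟩), ?_⟩
    apply Subtype.ext
    ext y
    simp
  calc Cardinal.mk {F : Finset E // (↑F : Set E) ⊆ A} ≤ Cardinal.mk (List A) :=
        Cardinal.mk_le_of_surjective h
    _ ≤ max Cardinal.aleph0 (Cardinal.mk A) := Cardinal.mk_list_le_max A
    _ = max (Cardinal.mk A) Cardinal.aleph0 := max_comm _ _

end ClOp

theorem Cl_directed {ι : Type*} [Nonempty ι] (S : ι → Set E) (hS : Directed (· ⊆ ·) S) :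
    Cl gen (⋃ i, S i) = ⋃ i, Cl gen (S i) := by
  apply Subset.antisymm
  · refine Cl_min ?_ ?_
    · exact iUnion_mono (fun i => subset_Cl (S i))
    · intro F hF
      have hdir : Directed (· ⊆ ·) (fun i => Cl gen (S i)) := by
        intro i j
        obtain ⟨k, hik, hjk⟩ := hS i j
        exact ⟨k, Cl_mono hik, Cl_mono hjk⟩
      obtain ⟨i, hi⟩ := ClOp.exists_index (fun i => Cl gen (S i)) hdir F hF
      exact (gen_subset_Cl (S i) F hi).trans (subset_iUnion (fun i => Cl gen (S i)) i)
  · exact iUnion_subset (fun i => Cl_mono (subset_iUnion S i))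

theorem Cl_card (hgen : ∀ F, (gen F).Countable) (S : Set E) :
    Cardinal.mk (Cl gen S) ≤ max (Cardinal.mk S) Cardinal.aleph0 := by
  set κ : Cardinal.{u} := max (Cardinal.mk S) Cardinal.aleph0 with hκ
  have hκω : Cardinal.aleph0 ≤ κ := le_max_right _ _
  have hstage : ∀ n, Cardinal.mk (ClOp.stage gen S n) ≤ κ := by
    intro n
    induction n with
    | zero => exact le_max_left _ _
    | succ n ih =>
      have h1 : Cardinal.mk {F : Finset E // (↑F : Set E) ⊆ ClOp.stage gen S n} ≤ κ :=
        (ClOp.mk_finsets _).trans (max_le ih hκω)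
      have h2 : Cardinal.mk (⋃ F : {F : Finset E // (↑F : Set E) ⊆ ClOp.stage gen S n},
          gen F.1 : Set E) ≤ κ := by
        refine (Cardinal.mk_iUnion_le _).trans ?_
        refine (mul_le_mul' h1 (ciSup_le' (a := κ) ?_)).trans (Cardinal.mul_eq_self hκω).le
        intro F
        exact (Cardinal.le_aleph0_iff_set_countable.2 (hgen F.1)).trans hκω
      calc Cardinal.mk (ClOp.stage gen S (n + 1)) ≤ _ := Cardinal.mk_union_le _ _
        _ ≤ κ + κ := add_le_add ih h2
        _ = κ := Cardinal.add_eq_self hκω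
  calc Cardinal.mk (Cl gen S) ≤ Cardinal.mk (⋃ n, ClOp.stage gen S n : Set E) :=
        Cardinal.mk_le_mk_of_subset (ClOp.Cl_subset S)
    _ ≤ κ := by
      refine le_trans ?_ (Cardinal.mul_eq_self hκω).le
      have h4 : Cardinal.mk (⋃ n : ULift.{u} ℕ, ClOp.stage gen S n.down : Set E) ≤ κ * κ := by
        refine (Cardinal.mk_iUnion_le _).trans (mul_le_mul' ?_ (ciSup_le' (fun n => hstage n.down)))
        simpa using hκω
      have h5 : (⋃ n : ULift.{u} ℕ, ClOp.stage gen S n.down : Set E) =
          ⋃ n, ClOp.stage gen S n := by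
        ext x
        simp only [mem_iUnion]
        constructor
        · rintro ⟨n, hn⟩
          exact ⟨n.down, hn⟩
        · rintro ⟨n, hn⟩
          exact ⟨⟨n⟩, hn⟩
      rw [← h5]
      exact h4

end A6

end Pool.Agent.Helper74.Apx
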