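import Pool.Agent.Helper74.Apx.CovBasic
import Pool.Agent.Helper74.Apx.Cell
import Pool.Agent.Helper74.Apx.ClOp

set_option autoImplicit false

open scoped Topology
open Filter Set

namespace Pool.Agent.Helper74.Apx

universe u

namespace DistCov

section gen

variable {X : Type u} [NormedAddCommGroup X] [NormedSpace ℝ X]

/-- the rational operations -/
def qgen (F : Finset X) : Set X :=
  {z | z = 0 ∨ (∃ x ∈ F, ∃ y ∈ F, z = x + y) ∨ ∃ c : ℚ, ∃ x ∈ F, z = (c : ℝ) • x}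

theorem qgen_countable (F : Finset X) : (qgen F).Countable := by
  have h1 : qgen F ⊆ {0} ∪ ((fun p : X × X => p.1 + p.2) '' ((↑F : Set X) ×ˢ (↑F : Set X)) ∪
      (fun p : ℚ × X => (p.1 : ℝ) • p.2) '' ((univ : Set ℚ) ×ˢ (↑F : Set X))) := by
    rintro z (h | ⟨x, hx, y, hy, h⟩ | ⟨c, x, hx, h⟩)
    · left; exact h
    · right; left; exact ⟨(x, y), ⟨hx, hy⟩, h.symm⟩
    · right; right; exact ⟨(c, x), ⟨mem_univ _, hx⟩, h.symm⟩
  refine Set.Countable.mono h1 ?_
  refine (Set.countable_singleton _).union (Set.Countable.union ?_ ?_)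
  · exact ((F.finite_toSet.countable).prod F.finite_toSet.countable).image _
  · exact ((Set.countable_univ).prod F.finite_toSet.countable).image _

theorem isQ_Cl (S : Set X) : Full.IsQ (Cl qgen S) := by
  classical
  refine ⟨?_, ?_, ?_⟩
  · exact gen_subset_Cl S (∅ : Finset X) (by simp) (Or.inl rfl)
  · intro x hx y hy
    refine gen_subset_Cl S ({x, y} : Finset X) ?_ (Or.inr (Or.inl ⟨x, by simp, y, by simp, rfl⟩))
    intro z hz
    simp only [Finset.coe_insert, Finset.coe_singleton, mem_insert_iff, mem_singleton_iff] at hz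
    rcases hz with rfl | rfl <;> assumption
  · intro c x hx
    refine gen_subset_Cl S ({x} : Finset X) ?_ (Or.inr (Or.inr ⟨c, x, by simp, rfl⟩))
    intro z hz
    simp only [Finset.coe_singleton, mem_singleton_iff] at hz
    rw [hz]; exact hx

theorem Cl_subset {S A : Set X} (hA : Full.IsQ A) (h : S ⊆ A) : Cl qgen S ⊆ A := by
  refine Cl_min h ?_
  rintro F hF z (h | ⟨x, hx, y, hy, h⟩ | ⟨c, x, hx, h⟩)
  · rw [h]; exact hA.zero
  · rw [h]; exact hA.add _ (hF hx) _ (hF hy)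
  · rw [h]; exact hA.smul _ _ (hF hx)

theorem isQ_zero : Full.IsQ ({0} : Set X) := by
  refine ⟨rfl, ?_, ?_⟩
  · intro x hx y hy
    rw [mem_singleton_iff] at *
    rw [hx, hy, add_zero]
  · intro c x hx
    rw [mem_singleton_iff] at *
    rw [hx, smul_zero]

end gen

section sums

variable {X : Type u} [NormedAddCommGroup X] [NormedSpace ℝ X] {J : Type*} [LinearOrder J]
  {A B : J → Set X}

omit [NormedSpace ℝ X] in
theorem sum_le (hA0 : ∀ j, (0 : X) ∈ A j) (hAB : ∀ j, A j ⊆ B j)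
    (hBA : ∀ i j, i < j → B i ⊆ A j) (x : X) (G : Finset J) :
    ∀ u : ℝ, (∀ j ∈ G, u ≤ Metric.infDist x (B j)) → u ≤ ‖x‖ →
      ∑ j ∈ G, (Metric.infDist x (A j) - Metric.infDist x (B j)) ≤ ‖x‖ - u := by
  classical
  induction G using Finset.induction_on_max with
  | empty => intro u _ hu; simpa using hu
  | insert m G hm ih =>
    intro u hu hux
    have hmG : m ∉ G := fun h => lt_irrefl _ (hm m h)
    rw [Finset.sum_insert hmG]
    have h1 : Metric.infDist x (A m) ≤ ‖x‖ := by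
      have := Metric.infDist_le_dist_of_mem (x := x) (hA0 m)
      rwa [dist_zero_right] at this
    have h2 := ih (Metric.infDist x (A m)) (fun j hj =>
      Metric.infDist_le_infDist_of_subset (hBA j m (hm j hj)) ⟨0, hAB j (hA0 j)⟩) h1
    have h3 := hu m (Finset.mem_insert_self _ _)
    linarith

omit [NormedSpace ℝ X] in
theorem finite_ge (hA0 : ∀ j, (0 : X) ∈ A j) (hAB : ∀ j, A j ⊆ B j)
    (hBA : ∀ i j, i < j → B i ⊆ A j) (x : X) (q : ℝ) (hq : 0 < q) :
    {j | q ≤ Metric.infDist x (A j) - Metric.infDist x (B j)}.Finite := by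
  by_contra hinf
  obtain ⟨n, hn⟩ := exists_nat_gt (‖x‖ / q)
  obtain ⟨G, hG, hGn⟩ := Set.Infinite.exists_subset_card_eq hinf n
  have h1 := sum_le hA0 hAB hBA x G 0 (fun j _ => Metric.infDist_nonneg) (norm_nonneg _)
  have h2 : (n : ℝ) * q ≤ ∑ j ∈ G, (Metric.infDist x (A j) - Metric.infDist x (B j)) := by
    have : ∑ _j ∈ G, q ≤ ∑ j ∈ G, (Metric.infDist x (A j) - Metric.infDist x (B j)) :=
      Finset.sum_le_sum fun j hj => hG hj
    simpa [hGn] using this
  rw [div_lt_iff₀ hq] at hn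
  linarith

end sums

section step

variable {X : Type u} [NormedAddCommGroup X] [NormedSpace ℝ X] {n : WithTop ℕ∞}

theorem exists_big (hb : ∃ ρ > 0, ∀ v : X, ∃ β : X → ℝ, ContDiff ℝ n β ∧ (∀ x, 0 ≤ β x) ∧
      (∀ y, ‖y - v‖ < ρ → β y ≠ 0) ∧ ∀ y y', β y ≠ 0 → β y' ≠ 0 → ‖y - y'‖ ≤ 1) (N : ℕ) :
    ∃ (R : ℝ) (β : X → ℝ), ContDiff ℝ n β ∧ (∀ x, 0 ≤ β x) ∧ (∀ y, ‖y‖ < N → β y ≠ 0) ∧
      closure {x | β x ≠ 0} ⊆ Metric.ball 0 R := by
  obtain ⟨ρ, hρ, hb⟩ := hb
  obtain ⟨β, h1, h2, h3, h4⟩ := hb 0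
  have hN : (0 : ℝ) < (N : ℝ) + 1 := by positivity
  have hc : 0 < ρ / ((N : ℝ) + 1) := by positivity
  refine ⟨((N : ℝ) + 1) / ρ + 1, fun x => β ((ρ / ((N : ℝ) + 1)) • x), ?_, fun x => h2 _, ?_, ?_⟩
  · exact h1.comp (contDiff_const_smul _)
  · intro y hy
    refine h3 _ ?_
    rw [sub_zero, norm_smul, Real.norm_of_nonneg hc.le]
    calc ρ / ((N : ℝ) + 1) * ‖y‖ < ρ / ((N : ℝ) + 1) * ((N : ℝ) + 1) :=
          mul_lt_mul_of_pos_left (by linarith) hc
      _ = ρ := by field_simp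
  · have h5 : {x : X | β ((ρ / ((N : ℝ) + 1)) • x) ≠ 0} ⊆
        Metric.closedBall 0 (((N : ℝ) + 1) / ρ) := by
      intro x hx
      have h0 : β (0 : X) ≠ 0 := h3 0 (by simpa using hρ)
      have h6 := h4 _ _ hx h0
      rw [sub_zero, norm_smul, Real.norm_of_nonneg hc.le] at h6
      rw [mem_closedBall_zero_iff, le_div_iff₀ hρ]
      have h7 : ρ / ((N : ℝ) + 1) * ‖x‖ * ((N : ℝ) + 1) ≤ 1 * ((N : ℝ) + 1) :=
        mul_le_mul_of_nonneg_right h6 hN.le
      have h8 : ρ / ((N : ℝ) + 1) * ‖x‖ * ((N : ℝ) + 1) = ‖x‖ * ρ := by field_simp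
      linarith
    refine (closure_minimal h5 Metric.isClosed_closedBall).trans ?_
    exact Metric.closedBall_subset_ball (by linarith)

variable {J : Type*} [LinearOrder J] {A B : J → Set X}

theorem cov_cell (hn : n ≤ ((⊤ : ℕ∞) : WithTop ℕ∞))
    (hd : ∀ A : Set X, Full.IsQ A → ∀ R η : ℝ, 0 < η → ∃ g : X → ℝ, ContDiff ℝ n g ∧
      ∀ x, ‖x‖ ≤ R → |g x - Metric.infDist x A| ≤ η)
    (hb : ∃ ρ > 0, ∀ v : X, ∃ β : X → ℝ, ContDiff ℝ n β ∧ (∀ x, 0 ≤ β x) ∧
      (∀ y, ‖y - v‖ < ρ → β y ≠ 0) ∧ ∀ y y', β y ≠ 0 → β y' ≠ 0 → ‖y - y'‖ ≤ 1)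
    (hA : ∀ j, Full.IsQ (A j)) (hB : ∀ j, Full.IsQ (B j)) (hAB : ∀ j, A j ⊆ B j)
    (hBA : ∀ i j, i < j → B i ⊆ A j) (ε : ℝ) (E : Finset J → Set X) (hE : ∀ G, Cov n (E G) ε)
    (N : ℕ) (q₁ q₂ η : ℝ) (hη : 0 < η) (h1 : 2 * η < q₁) (h2 : 8 * η < q₂ - q₁) :
    Cov n {x | ‖x‖ < N ∧ ∃ G : Finset J,
      (∀ j ∈ G, q₂ < Metric.infDist x (A j) - Metric.infDist x (B j)) ∧
      (∀ j ∉ G, Metric.infDist x (A j) - Metric.infDist x (B j) < q₁) ∧ x ∈ E G} ε := by
  obtain ⟨R, β, hβ, hβ0, hβN, hβR⟩ := exists_big hb N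
  choose gA hgA1 hgA2 using fun j => hd (A j) (hA j) R η hη
  choose gB hgB1 hgB2 using fun j => hd (B j) (hB j) R η hη
  have hA0 : ∀ j, (0 : X) ∈ A j := fun j => (hA j).zero
  have ht0 : ∀ j x, 0 ≤ Metric.infDist x (A j) - Metric.infDist x (B j) := fun j x =>
    sub_nonneg.2 (Metric.infDist_le_infDist_of_subset (hAB j) ⟨0, hA0 j⟩)
  have hft : ∀ j x, ‖x‖ ≤ R →
      |(gA j x - gB j x) - (Metric.infDist x (A j) - Metric.infDist x (B j))| ≤ 2 * η := by
    intro j x hx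
    have h3 := abs_le.1 (hgA2 j x hx)
    have h4 := abs_le.1 (hgB2 j x hx)
    rw [abs_le]
    constructor <;> linarith
  have hlip : ∀ j x y, (Metric.infDist x (A j) - Metric.infDist x (B j)) ≤
      (Metric.infDist y (A j) - Metric.infDist y (B j)) + 2 * dist x y := by
    intro j x y
    have h3 := Metric.infDist_le_infDist_add_dist (s := A j) (x := x) (y := y)
    have h4 := Metric.infDist_le_infDist_add_dist (s := B j) (x := y) (y := x)
    rw [dist_comm y x] at h4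
    linarith
  obtain ⟨p, hp, hpn⟩ := cell (n := n) hn (fun j x => gA j x - gB j x)
    (fun j => (hgA1 j).sub (hgB1 j)) β hβ hβ0 (Metric.ball 0 R) Metric.isOpen_ball hβR
    (q₁ + 2 * η) (q₂ - 2 * η) (by linarith) (by linarith)
    (by
      intro x hx
      refine ⟨Metric.ball 0 R ∩ Metric.ball x ((q₁ / 2 - η) / 4),
        Filter.inter_mem (Metric.isOpen_ball.mem_nhds hx) (Metric.ball_mem_nhds x (by linarith)),
        ?_⟩
      refine (finite_ge hA0 hAB hBA x ((q₁ / 2 - η) / 2) (by linarith)).subset ?_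
      rintro j ⟨y, ⟨hy1, hy2⟩, hy3⟩
      have hyR : ‖y‖ ≤ R := (mem_ball_zero_iff.1 hy1).le
      have h3 := abs_le.1 (hft j y hyR)
      have h4 : |gA j y - gB j y| ≤ (Metric.infDist y (A j) - Metric.infDist y (B j)) + 2 * η := by
        rw [abs_le]
        have := ht0 j y
        constructor <;> linarith
      have h5 := hlip j y x
      have h6 : dist y x < (q₁ / 2 - η) / 4 := hy2
      simp only [mem_ofPred_eq]
      linarith)
    (by
      intro x hx
      refine ⟨Metric.ball 0 R ∩ Metric.ball x ((q₂ - q₁ - 8 * η) / 8),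
        Filter.inter_mem (Metric.isOpen_ball.mem_nhds hx) (Metric.ball_mem_nhds x (by linarith)),
        ?_⟩
      rintro y ⟨hy1, hy2⟩ y' ⟨hy1', hy2'⟩ j
      have h3 := abs_le.1 (hft j y (mem_ball_zero_iff.1 hy1).le)
      have h3' := abs_le.1 (hft j y' (mem_ball_zero_iff.1 hy1').le)
      have h4 := hlip j y y'
      have h4' := hlip j y' y
      have h5 : dist y y' < 2 * ((q₂ - q₁ - 8 * η) / 8) := by
        have h6 : dist y x < (q₂ - q₁ - 8 * η) / 8 := hy2
        have h7 : dist y' x < (q₂ - q₁ - 8 * η) / 8 := hy2'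
        have h8 := dist_triangle_right y y' x
        linarith
      rw [dist_comm y' y] at h4'
      rw [abs_lt]
      constructor <;> linarith)
  refine (Cov.comp hp hE).mono ?_
  rintro x ⟨hxN, G, hG1, hG2, hG3⟩
  refine ⟨G, ?_, hG3⟩
  have hβx := hβN x hxN
  have hxR : ‖x‖ ≤ R := (mem_ball_zero_iff.1 (hβR (subset_closure hβx))).le
  rw [hpn]
  refine ⟨hβx, ?_, ?_⟩
  · intro j hj
    have h3 := abs_le.1 (hft j x hxR)
    have h4 := hG1 j hj
    have h5 := le_abs_self (gA j x - gB j x)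
    linarith
  · intro j hj
    have h3 := abs_le.1 (hft j x hxR)
    have h4 := hG2 j hj
    have h5 := ht0 j x
    rw [abs_lt]
    constructor <;> linarith

theorem cov_empty (ε : ℝ) : Cov n (∅ : Set X) ε := by
  have h : ∀ i : Empty, Cov n ((fun _ : Empty => (∅ : Set X)) i) ε := fun i => i.elim
  exact (Cov.iUnion h).mono (empty_subset _)

theorem cov_step [WellFoundedLT J] (hn : n ≤ ((⊤ : ℕ∞) : WithTop ℕ∞))
    (hd : ∀ A : Set X, Full.IsQ A → ∀ R η : ℝ, 0 < η → ∃ g : X → ℝ, ContDiff ℝ n g ∧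
      ∀ x, ‖x‖ ≤ R → |g x - Metric.infDist x A| ≤ η)
    (hball : ∀ ε > 0, ∃ ρ > 0, ∀ v : X, ∃ β : X → ℝ, ContDiff ℝ n β ∧ (∀ x, 0 ≤ β x) ∧
      (∀ y, ‖y - v‖ < ρ → β y ≠ 0) ∧ ∀ y y', β y ≠ 0 → β y' ≠ 0 → ‖y - y'‖ ≤ ε)
    (ε ρ : ℝ)
    (hb : ∀ v : X, ∃ β : X → ℝ, ContDiff ℝ n β ∧ (∀ x, 0 ≤ β x) ∧
      (∀ y, ‖y - v‖ < ρ → β y ≠ 0) ∧ ∀ y y', β y ≠ 0 → β y' ≠ 0 → ‖y - y'‖ ≤ ε)
    (T : Set X) (hT0 : (0 : X) ∈ T)
    (hA : ∀ j, Full.IsQ (A j)) (hB : ∀ j, Full.IsQ (B j)) (hAB : ∀ j, A j ⊆ B j)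
    (hBA : ∀ i j, i < j → B i ⊆ A j) (hlim : ∀ j, ∀ x ∈ A j, x = 0 ∨ ∃ i < j, x ∈ B i)
    (hT : ∀ x ∈ T, ∃ j, x ∈ B j)
    (hcov : ∀ j, Cov n {x | Metric.infDist x (B j) < ρ} ε) :
    Cov n {x | Metric.infDist x T < ρ} ε := by
  classical
  have hA0 : ∀ j, (0 : X) ∈ A j := fun j => (hA j).zero
  have hB0 : ∀ j, (0 : X) ∈ B j := fun j => (hB j).zero
  have hBB : ∀ i j, i ≤ j → B i ⊆ B j := by
    intro i j hij
    rcases hij.eq_or_lt with rfl | h
    · exact subset_rfl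
    · exact (hBA i j h).trans (hAB j)
  set E : Finset J → Set X := fun G => {x | ∃ h : G.Nonempty, Metric.infDist x (B (G.max' h)) < ρ}
    with hEdef
  have hE : ∀ G, Cov n (E G) ε := by
    intro G
    by_cases hG : G.Nonempty
    · refine (hcov (G.max' hG)).mono ?_
      rintro x ⟨h, hx⟩
      exact hx
    · refine (cov_empty ε).mono ?_
      rintro x ⟨h, hx⟩
      exact absurd h hG
  obtain ⟨β, hβ1, hβ2, hβ3, hβ4⟩ := hb 0
  have hzero : Cov n {x | β x ≠ 0} ε := Cov.single β hβ1 hβ2 hβ4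
  have hmain : ∀ k : {k : ℕ × ℚ × ℚ × ℚ // 0 < k.2.2.2 ∧ 2 * k.2.2.2 < k.2.1 ∧
      8 * k.2.2.2 < k.2.2.1 - k.2.1}, Cov n {x | ‖x‖ < (k.1.1 : ℝ) ∧ ∃ G : Finset J,
      (∀ j ∈ G, (k.1.2.2.1 : ℝ) < Metric.infDist x (A j) - Metric.infDist x (B j)) ∧
      (∀ j ∉ G, Metric.infDist x (A j) - Metric.infDist x (B j) < (k.1.2.1 : ℝ)) ∧ x ∈ E G} ε := by
    rintro ⟨⟨N, q₁, q₂, η⟩, h1, h2, h3⟩
    simp only at h1 h2 h3 ⊢
    refine cov_cell hn hd (hball 1 one_pos) hA hB hAB hBA ε E hE N q₁ q₂ η ?_ ?_ ?_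
    · exact_mod_cast h1
    · exact_mod_cast h2
    · exact_mod_cast h3
  have hall : ∀ o : Option {k : ℕ × ℚ × ℚ × ℚ // 0 < k.2.2.2 ∧ 2 * k.2.2.2 < k.2.1 ∧
      8 * k.2.2.2 < k.2.2.1 - k.2.1}, Cov n (Option.elim o {x | β x ≠ 0}
        (fun k => {x | ‖x‖ < (k.1.1 : ℝ) ∧ ∃ G : Finset J,
      (∀ j ∈ G, (k.1.2.2.1 : ℝ) < Metric.infDist x (A j) - Metric.infDist x (B j)) ∧
      (∀ j ∉ G, Metric.infDist x (A j) - Metric.infDist x (B j) < (k.1.2.1 : ℝ)) ∧
        x ∈ E G})) ε := by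
    rintro (_ | k)
    · exact hzero
    · exact hmain k
  refine (Cov.iUnion hall).mono ?_
  intro x hx
  have hx' : Metric.infDist x T < ρ := hx
  rw [mem_iUnion]
  by_cases hxρ : ‖x‖ < ρ
  · refine ⟨none, ?_⟩
    simp only [Option.elim]
    exact hβ3 x (by simpa using hxρ)
  · rw [not_lt] at hxρ
    obtain ⟨v, hvT, hv⟩ := (Metric.infDist_lt_iff ⟨0, hT0⟩).1 hx'
    obtain ⟨j₀, hj₀⟩ := hT v hvT
    have hne : {j | Metric.infDist x (B j) < ρ}.Nonempty :=
      ⟨j₀, (Metric.infDist_le_dist_of_mem hj₀).trans_lt hv⟩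
    set s := WellFounded.min (wellFounded_lt (α := J)) {j | Metric.infDist x (B j) < ρ} hne
      with hs
    have hs1 : Metric.infDist x (B s) < ρ := WellFounded.min_mem _ _ hne
    have hs2 : ∀ i < s, ρ ≤ Metric.infDist x (B i) := by
      intro i hi
      by_contra hcon
      exact WellFounded.not_lt_min wellFounded_lt {j | Metric.infDist x (B j) < ρ}
        (not_le.1 hcon) hi
    have hs3 : ρ ≤ Metric.infDist x (A s) := by
      rw [Metric.le_infDist ⟨0, hA0 s⟩]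
      intro y hy
      rcases hlim s y hy with rfl | ⟨i, hi, hyi⟩
      · rwa [dist_zero_right]
      · exact (hs2 i hi).trans (Metric.infDist_le_dist_of_mem hyi)
    set t : J → ℝ := fun j => Metric.infDist x (A j) - Metric.infDist x (B j) with ht
    have ht0 : ∀ j, 0 ≤ t j := fun j =>
      sub_nonneg.2 (Metric.infDist_le_infDist_of_subset (hAB j) ⟨0, hA0 j⟩)
    have hts : 0 < t s := by simp only [ht]; linarith
    have htfin : ∀ q > (0 : ℝ), {j | q ≤ |t j|}.Finite := by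
      intro q hq
      refine (finite_ge hA0 hAB hBA x q hq).subset ?_
      intro j hj
      have : q ≤ |t j| := hj
      rwa [abs_of_nonneg (ht0 j)] at this
    obtain ⟨q₁, q₂, h1, h2, h3, h4⟩ := gap t htfin (t s) hts
    have hgap : ∀ j, t j < q₁ ∨ (q₂ : ℝ) < t j := by
      intro j
      have := h4 j
      rwa [abs_of_nonneg (ht0 j)] at this
    obtain ⟨N, hN⟩ := exists_nat_gt ‖x‖
    have hη1 : 0 < min (q₁ / 4) ((q₂ - q₁) / 16) :=
      lt_min (by linarith) (by linarith)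
    have hη2 : 2 * min (q₁ / 4) ((q₂ - q₁) / 16) < q₁ := by
      have := min_le_left (q₁ / 4) ((q₂ - q₁) / 16)
      linarith
    have hη3 : 8 * min (q₁ / 4) ((q₂ - q₁) / 16) < q₂ - q₁ := by
      have := min_le_right (q₁ / 4) ((q₂ - q₁) / 16)
      linarith
    refine ⟨some ⟨⟨N, q₁, q₂, min (q₁ / 4) ((q₂ - q₁) / 16)⟩, hη1, hη2, hη3⟩, ?_⟩
    simp only [Option.elim]
    have hq₂ : (0 : ℝ) < q₂ := by exact_mod_cast h1.trans h2
    have hfinG : {j | (q₂ : ℝ) < t j}.Finite := by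
      refine (htfin q₂ hq₂).subset ?_
      intro j hj
      have : (q₂ : ℝ) < t j := hj
      exact this.le.trans (le_abs_self _)
    refine ⟨hN, hfinG.toFinset, ?_, ?_, ?_⟩
    · intro j hj
      rw [Set.Finite.mem_toFinset] at hj
      exact hj
    · intro j hj
      rw [Set.Finite.mem_toFinset] at hj
      rcases hgap j with h | h
      · exact h
      · exact absurd h hj
    · have hsG : s ∈ hfinG.toFinset := by
        rw [Set.Finite.mem_toFinset]
        exact h3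
      refine ⟨⟨s, hsG⟩, ?_⟩
      exact (Metric.infDist_le_infDist_of_subset (hBB _ _ (Finset.le_max' _ _ hsG))
        ⟨0, hB0 s⟩).trans_lt hs1

end step

end DistCov

/-! A14: reduction to distance functions -/

theorem cov_of_dist {X : Type u} [NormedAddCommGroup X] [NormedSpace ℝ X] {n : WithTop ℕ∞}
    (hn : n ≤ ((⊤ : ℕ∞) : WithTop ℕ∞))
    (hd : ∀ A : Set X, Full.IsQ A → ∀ R η : ℝ, 0 < η → ∃ g : X → ℝ, ContDiff ℝ n g ∧
      ∀ x, ‖x‖ ≤ R → |g x - Metric.infDist x A| ≤ η)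
    (hball : ∀ ε > 0, ∃ ρ > 0, ∀ v : X, ∃ β : X → ℝ, ContDiff ℝ n β ∧ (∀ x, 0 ≤ β x) ∧
      (∀ y, ‖y - v‖ < ρ → β y ≠ 0) ∧ ∀ y y', β y ≠ 0 → β y' ≠ 0 → ‖y - y'‖ ≤ ε)
    (ε : ℝ) (hε : 0 < ε) : Cov n (univ : Set X) ε := by
  classical
  obtain ⟨ρ, hρ, hb⟩ := hball ε hε
  have claim : ∀ c : Cardinal.{u}, ∀ A : Set X, Full.IsQ A → Cardinal.mk A = c →
      Cov n {x | Metric.infDist x A < ρ} ε := by
    intro c
    induction c using WellFoundedLT.induction with
    | ind c ih =>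
      intro A hA hAc
      by_cases hc : A.Countable
      · choose β hβ1 hβ2 hβ3 hβ4 using hb
        have : Countable A := hc.to_subtype
        refine (Cov.iUnion (κ := A) (E := fun v => {x | β v.1 x ≠ 0}) (ε := ε)
          fun v => Cov.single (β v.1) (hβ1 _) (hβ2 _) (hβ4 _)).mono ?_
        intro x hx
        obtain ⟨v, hvA, hv⟩ := (Metric.infDist_lt_iff ⟨0, hA.zero⟩).1 hx
        rw [mem_iUnion]
        refine ⟨⟨v, hvA⟩, hβ3 v x ?_⟩
        rwa [← dist_eq_norm]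
      · obtain ⟨r, wo, hr⟩ := Cardinal.exists_ord_eq A
        let _ : LinearOrder A := linearOrderOfSTO r
        have : WellFoundedLT A := wo.toIsWellFounded
        have hal : Cardinal.aleph0 < Cardinal.mk A := by
          rw [← not_le, Cardinal.le_aleph0_iff_set_countable]
          exact hc
        set S : A → Set X := fun j => Subtype.val '' (Iio j) with hS
        have hIio : ∀ j : A, Cardinal.mk (Iio j) < Cardinal.mk A := fun j =>
          Cardinal.mk_Iio_lt j hr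
        refine DistCov.cov_step (J := A) (A := fun j => Cl DistCov.qgen (S j))
          (B := fun j => Cl DistCov.qgen (insert j.1 (S j))) hn hd hball ε ρ hb A hA.zero
          (fun j => DistCov.isQ_Cl _) (fun j => DistCov.isQ_Cl _)
          (fun j => Cl_mono (subset_insert _ _)) ?_ ?_ ?_ ?_
        · intro i j hij
          refine Cl_mono ?_
          rintro x (rfl | ⟨y, hy, rfl⟩)
          · exact ⟨i, hij, rfl⟩
          · exact ⟨y, lt_trans hy hij, rfl⟩
        · intro j x hx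
          by_cases hj : Nonempty (Iio j)
          · right
            have h1 : S j = ⋃ i : Iio j, insert (i.1.1 : X) (S i.1) := by
              ext y
              constructor
              · rintro ⟨z, hz, rfl⟩
                rw [mem_iUnion]
                exact ⟨⟨z, hz⟩, Or.inl rfl⟩
              · intro hy
                rw [mem_iUnion] at hy
                obtain ⟨i, hy⟩ := hy
                rcases hy with rfl | ⟨z, hz, rfl⟩
                · exact ⟨i.1, i.2, rfl⟩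
                · exact ⟨z, lt_trans (show z < i.1 from hz) i.2, rfl⟩
            have h2 : Directed (· ⊆ ·) (fun i : Iio j => insert (i.1.1 : X) (S i.1)) := by
              have hmono : ∀ i k : Iio j, i.1 ≤ k.1 →
                  insert (i.1.1 : X) (S i.1) ⊆ insert (k.1.1 : X) (S k.1) := by
                rintro i k hik y (rfl | ⟨z, hz, rfl⟩)
                · rcases hik.eq_or_lt with h | h
                  · left; rw [h]
                  · right; exact ⟨i.1, h, rfl⟩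
                · right; exact ⟨z, lt_of_lt_of_le hz hik, rfl⟩
              intro i k
              rcases le_total i.1 k.1 with h | h
              · exact ⟨k, hmono i k h, subset_rfl⟩
              · exact ⟨i, subset_rfl, hmono k i h⟩
            have hx' : x ∈ Cl DistCov.qgen (S j) := hx
            rw [h1, Cl_directed _ h2, mem_iUnion] at hx'
            obtain ⟨i, hi⟩ := hx'
            exact ⟨i.1, i.2, hi⟩
          · left
            have h1 : S j ⊆ {0} := by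
              rintro y ⟨z, hz, rfl⟩
              exact absurd ⟨⟨z, hz⟩⟩ hj
            exact DistCov.Cl_subset DistCov.isQ_zero h1 hx
        · intro x hx
          exact ⟨⟨x, hx⟩, subset_Cl _ (mem_insert _ _)⟩
        · intro j
          refine ih (Cardinal.mk (Cl DistCov.qgen (insert j.1 (S j)))) ?_ _
            (DistCov.isQ_Cl _) rfl
          rw [← hAc]
          refine (Cl_card DistCov.qgen_countable _).trans_lt (max_lt ?_ hal)
          refine (Cardinal.mk_insert_le).trans_lt ?_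
          refine Cardinal.add_lt_of_lt hal.le ?_ (Cardinal.one_lt_aleph0.trans hal)
          exact (Cardinal.mk_image_le).trans_lt (hIio j)
  have huniv : Full.IsQ (univ : Set X) := ⟨mem_univ _, fun _ _ _ _ => mem_univ _,
    fun _ _ _ => mem_univ _⟩
  refine (claim _ univ huniv rfl).mono ?_
  intro x _
  have : Metric.infDist x (univ : Set X) = 0 := Metric.infDist_zero_of_mem (mem_univ x)
  simp only [mem_ofPred_eq, this, hρ]

end Pool.Agent.Helper74.Apx
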