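import Pool.Agent.Helper74.Apx.Defs

/-!
Gluing of local approximations.
-/

set_option autoImplicit false
set_option linter.unusedSectionVars false

open scoped Topology
open Filter Set

namespace Pool.Agent.Helper74.Apx

namespace Glue

/-- smooth step -/
noncomputable def η (t : ℝ) : ℝ := Real.smoothTransition (2 - 2 * t)

lemma η_one {t : ℝ} (ht : t ≤ 1 / 2) : η t = 1 := Real.smoothTransition.one_of_one_le (by linarith)

lemma η_zero {t : ℝ} (ht : 1 ≤ t) : η t = 0 := Real.smoothTransition.zero_of_nonpos (by linarith)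

lemma η_nonneg (t : ℝ) : 0 ≤ η t := Real.smoothTransition.nonneg _

lemma η_contDiff {n : WithTop ℕ∞} (hn : n ≤ ((⊤ : ℕ∞) : WithTop ℕ∞)) : ContDiff ℝ n η := by
  have h : ContDiff ℝ ((⊤ : ℕ∞) : WithTop ℕ∞) η := by
    unfold η
    exact Real.smoothTransition.contDiff.comp
      (contDiff_const.sub (contDiff_const.mul contDiff_id))
  exact h.of_le hn

variable {X Z : Type*} [NormedAddCommGroup X] [NormedSpace ℝ X] [NormedAddCommGroup Z]
    [NormedSpace ℝ Z]

/-- the weights -/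
noncomputable def w (A : ℕ → X → ℝ) (l : ℕ) (x : X) : ℝ :=
  ∏ m ∈ Finset.range l, η (l * A m x)

lemma w_nonneg (A : ℕ → X → ℝ) (l : ℕ) (x : X) : 0 ≤ w A l x :=
  Finset.prod_nonneg fun _ _ => η_nonneg _

lemma w_contDiff {n : WithTop ℕ∞} (hn : n ≤ ((⊤ : ℕ∞) : WithTop ℕ∞)) (A : ℕ → X → ℝ)
    (hA : ∀ l, ContDiff ℝ n (A l)) (l : ℕ) : ContDiff ℝ n (w A l) := by
  unfold w
  apply contDiff_prod
  intro m _
  exact (η_contDiff hn).comp (contDiff_const.mul (hA m))

lemma locfin (A : ℕ → X → ℝ) (hAc : ∀ l, Continuous (A l)) (hA0 : ∀ l x, 0 ≤ A l x)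
    (hcov : ∀ x, ∃ l, A l x ≠ 0) (x : X) : ∃ N : ℕ, ∀ᶠ y in 𝓝 x, ∀ l, N ≤ l → w A l y = 0 := by
  obtain ⟨m, hm⟩ := hcov x
  have hpos : 0 < A m x := lt_of_le_of_ne (hA0 m x) (Ne.symm hm)
  obtain ⟨N, hN⟩ := exists_nat_gt (1 / (A m x / 2))
  refine ⟨max N (m + 1), ?_⟩
  have h1 : ∀ᶠ y in 𝓝 x, A m x / 2 < A m y :=
    (hAc m).continuousAt.eventually (lt_mem_nhds (by linarith))
  filter_upwards [h1] with y hy l hl
  unfold w
  apply Finset.prod_eq_zero (i := m)
  · rw [Finset.mem_range]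
    have := le_max_right N (m + 1)
    omega
  · apply η_zero
    have h2 : (N : ℝ) ≤ l := by exact_mod_cast (le_max_left N (m + 1)).trans hl
    have h3 : 1 / (A m x / 2) < (l : ℝ) := hN.trans_le h2
    rw [div_lt_iff₀ (by linarith)] at h3
    have h4 : (l : ℝ) * (A m x / 2) ≤ l * A m y :=
      mul_le_mul_of_nonneg_left hy.le (by positivity)
    linarith

lemma w_first (A : ℕ → X → ℝ) (x : X) (m : ℕ) (hm : ∀ k < m, A k x = 0) : w A m x = 1 := by
  unfold w
  apply Finset.prod_eq_one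
  intro k hk
  rw [hm k (Finset.mem_range.mp hk), mul_zero]
  exact η_one (by norm_num)

/-- the combination of a discrete family with values -/
noncomputable def comb (Q : Set (X → ℝ)) (z : (X → ℝ) → Z) (x : X) : Z := by
  classical
  exact if h : ∃ p ∈ Q, p x ≠ 0 then (h.choose x) • z h.choose else 0

lemma comb_pos {Q : Set (X → ℝ)} (z : (X → ℝ) → Z) {x : X} (h : ∃ p ∈ Q, p x ≠ 0) :
    comb Q z x = (h.choose x) • z h.choose := by
  unfold comb
  rw [dif_pos h]

lemma comb_neg {Q : Set (X → ℝ)} (z : (X → ℝ) → Z) {x : X} (h : ¬ ∃ p ∈ Q, p x ≠ 0) :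
    comb Q z x = 0 := by
  unfold comb
  rw [dif_neg h]

lemma comb_contDiff {n : WithTop ℕ∞} {P Q : Set (X → ℝ)} (hP : Disc n (fun p : P => (p : X → ℝ)))
    (hQ : Q ⊆ P) (z : (X → ℝ) → Z) : ContDiff ℝ n (comb Q z) := by
  rw [contDiff_iff_contDiffAt]
  intro x
  obtain ⟨U, hU, hUd⟩ := hP.disc x
  by_cases hex : ∃ y ∈ U, ∃ p ∈ Q, p y ≠ 0
  · obtain ⟨y0, hy0, p0, hp0, hne⟩ := hex
    have e : comb Q z =ᶠ[𝓝 x] fun y => p0 y • z p0 := by
      filter_upwards [hU] with y hy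
      by_cases h : ∃ p ∈ Q, p y ≠ 0
      · rw [comb_pos z h]
        have h1 := hUd ⟨h.choose, hQ h.choose_spec.1⟩ ⟨p0, hQ hp0⟩ y hy y0 hy0 h.choose_spec.2 hne
        rw [Subtype.mk.injEq] at h1
        rw [h1]
      · rw [comb_neg z h]
        have : p0 y = 0 := by
          by_contra hcon
          exact h ⟨p0, hp0, hcon⟩
        rw [this, zero_smul]
    refine ContDiffAt.congr_of_eventuallyEq ?_ e
    exact ((hP.smooth ⟨p0, hQ hp0⟩).contDiffAt).smul contDiffAt_const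
  · have e : comb Q z =ᶠ[𝓝 x] fun _ => (0 : Z) := by
      filter_upwards [hU] with y hy
      apply comb_neg
      rintro ⟨p, hp, hpy⟩
      exact hex ⟨y, hy, p, hp, hpy⟩
    exact contDiffAt_const.congr_of_eventuallyEq e

end Glue

open Glue in
theorem glue {X Z : Type*} [NormedAddCommGroup X] [NormedSpace ℝ X] [NormedAddCommGroup Z]
    [NormedSpace ℝ Z] {n : WithTop ℕ∞} (f : X → Z) (δ : ℝ) (A : ℕ → X → ℝ) (B : ℕ → X → Z)
    (hn : n ≤ ((⊤ : ℕ∞) : WithTop ℕ∞))
    (hA : ∀ l, ContDiff ℝ n (A l)) (hB : ∀ l, ContDiff ℝ n (B l)) (hA0 : ∀ l x, 0 ≤ A l x)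
    (hcov : ∀ x, ∃ l, A l x ≠ 0) (hAB : ∀ l x, ‖B l x - A l x • f x‖ ≤ A l x * δ) :
    ∃ g : X → Z, ContDiff ℝ n g ∧ ∀ x, ‖f x - g x‖ ≤ δ := by
  have hAc : ∀ l, Continuous (A l) := fun l => (hA l).continuous
  have hlf := locfin A hAc hA0 hcov
  choose N hN using hlf
  have hS : ∀ x, ∀ᶠ y in 𝓝 x, ∑' l, w A l y * A l y = ∑ l ∈ Finset.range (N x), w A l y * A l y := by
    intro x
    filter_upwards [hN x] with y hy
    apply tsum_eq_sum
    intro l hl
    rw [hy l (by simpa using hl), zero_mul]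
  have hT : ∀ x, ∀ᶠ y in 𝓝 x, ∑' l, w A l y • B l y = ∑ l ∈ Finset.range (N x), w A l y • B l y := by
    intro x
    filter_upwards [hN x] with y hy
    apply tsum_eq_sum
    intro l hl
    rw [hy l (by simpa using hl), zero_smul]
  have hpos : ∀ x, 0 < ∑' l, w A l x * A l x := by
    intro x
    rw [(hS x).self_of_nhds]
    classical
    have hm := Nat.find_spec (hcov x)
    have hm' : ∀ k < Nat.find (hcov x), A k x = 0 := fun k hk => by
      by_contra hcon
      exact Nat.find_min (hcov x) hk hcon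
    have h1 := w_first A x _ hm'
    have hlt : Nat.find (hcov x) < N x := by
      by_contra hcon
      push Not at hcon
      have := (hN x).self_of_nhds _ hcon
      rw [h1] at this
      exact one_ne_zero this
    apply Finset.sum_pos'
    · intro l _
      exact mul_nonneg (w_nonneg _ _ _) (hA0 _ _)
    · refine ⟨Nat.find (hcov x), Finset.mem_range.mpr hlt, ?_⟩
      rw [h1, one_mul]
      exact lt_of_le_of_ne (hA0 _ x) (Ne.symm hm)
  refine ⟨fun x => (∑' l, w A l x * A l x)⁻¹ • ∑' l, w A l x • B l x, ?_, ?_⟩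
  · rw [contDiff_iff_contDiffAt]
    intro x
    apply ContDiffAt.smul
    · apply ContDiffAt.inv
      · refine ContDiffAt.congr_of_eventuallyEq ?_ (hS x)
        apply ContDiffAt.sum
        intro l _
        exact ((w_contDiff hn A hA l).contDiffAt).mul (hA l).contDiffAt
      · exact (hpos x).ne'
    · refine ContDiffAt.congr_of_eventuallyEq ?_ (hT x)
      apply ContDiffAt.sum
      intro l _
      exact ((w_contDiff hn A hA l).contDiffAt).smul (hB l).contDiffAt
  · intro x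
    have hp := hpos x
    simp only
    have e1 := (hS x).self_of_nhds
    have e2 := (hT x).self_of_nhds
    rw [e1] at hp ⊢
    rw [e2]
    set S := ∑ l ∈ Finset.range (N x), w A l x * A l x with hSdef
    set T := ∑ l ∈ Finset.range (N x), w A l x • B l x with hTdef
    have h1 : T - S • f x = ∑ l ∈ Finset.range (N x), w A l x • (B l x - A l x • f x) := by
      rw [hTdef, hSdef, Finset.sum_smul, ← Finset.sum_sub_distrib]
      apply Finset.sum_congr rfl
      intro l _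
      rw [smul_sub, smul_smul]
    have h2 : ‖T - S • f x‖ ≤ S * δ := by
      rw [h1, hSdef, Finset.sum_mul]
      refine (norm_sum_le _ _).trans (Finset.sum_le_sum ?_)
      intro l _
      rw [norm_smul, Real.norm_eq_abs, abs_of_nonneg (w_nonneg _ _ _), mul_assoc]
      exact mul_le_mul_of_nonneg_left (hAB l x) (w_nonneg _ _ _)
    have h3 : f x - S⁻¹ • T = -(S⁻¹ • (T - S • f x)) := by
      rw [smul_sub, smul_smul, inv_mul_cancel₀ hp.ne', one_smul]
      abel
    rw [h3, norm_neg, norm_smul, Real.norm_eq_abs, abs_of_pos (inv_pos.mpr hp),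
      inv_mul_le_iff₀ hp]
    exact h2

open Glue in
theorem approx_of_cov {X Z : Type*} [NormedAddCommGroup X] [NormedSpace ℝ X]
    [NormedAddCommGroup Z] [NormedSpace ℝ Z] {n : WithTop ℕ∞}
    (hn : n ≤ ((⊤ : ℕ∞) : WithTop ℕ∞)) (h : ∀ ε > 0, Cov n (univ : Set X) ε)
    (f : X → Z) (hf : Continuous f) (ε : ℝ) (hε : 0 < ε) :
    ∃ g : X → Z, ContDiff ℝ n g ∧ ∀ x, ‖f x - g x‖ < ε := by
  classical
  have h' : ∀ k : ℕ, Cov n (univ : Set X) (1 / ((k : ℝ) + 1)) := fun k => h _ (by positivity)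
  choose P hPd hPs hPc using h'
  let Q : ℕ → ℕ → Set (X → ℝ) := fun k j =>
    {p | p ∈ P k j ∧ ∀ y y', p y ≠ 0 → p y' ≠ 0 → ‖f y - f y'‖ ≤ ε / 2}
  have hQP : ∀ k j, Q k j ⊆ P k j := fun k j p hp => hp.1
  let z : (X → ℝ) → Z := fun p => if hp : ∃ y, p y ≠ 0 then f hp.choose else 0
  have hh1 : ∀ (l : ℕ) (x : X), 0 ≤ comb (Q l.unpair.1 l.unpair.2) (fun _ => (1 : ℝ)) x := by
    intro l x
    by_cases hex : ∃ p ∈ Q l.unpair.1 l.unpair.2, p x ≠ 0
    · rw [comb_pos _ hex, smul_eq_mul, mul_one]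
      exact (hPd _ _).nonneg ⟨hex.choose, hQP _ _ hex.choose_spec.1⟩ x
    · rw [comb_neg _ hex]
  have hh2 : ∀ x : X, ∃ l : ℕ, comb (Q l.unpair.1 l.unpair.2) (fun _ => (1 : ℝ)) x ≠ 0 := by
    intro x
    obtain ⟨ρ, hρ, hρ'⟩ := Metric.continuousAt_iff.mp (hf.continuousAt (x := x)) (ε / 4)
      (by positivity)
    obtain ⟨k, hk⟩ := exists_nat_one_div_lt hρ
    obtain ⟨j, p, hp, hpx⟩ := hPc k x (mem_univ x)
    have hpQ : p ∈ Q k j := by
      refine ⟨hp, ?_⟩
      intro y y' hy hy'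
      have h1 : dist y x < ρ := by
        rw [dist_eq_norm]
        exact (hPs k j p hp y x hy hpx).trans_lt hk
      have h2 : dist y' x < ρ := by
        rw [dist_eq_norm]
        exact (hPs k j p hp y' x hy' hpx).trans_lt hk
      have h3 := hρ' h1
      have h4 := hρ' h2
      rw [← dist_eq_norm]
      have h5 := dist_triangle_right (f y) (f y') (f x)
      linarith
    refine ⟨Nat.pair k j, ?_⟩
    have hex : ∃ p ∈ Q (Nat.pair k j).unpair.1 (Nat.pair k j).unpair.2, p x ≠ 0 := by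
      rw [Nat.unpair_pair]
      exact ⟨p, hpQ, hpx⟩
    rw [comb_pos _ hex, smul_eq_mul, mul_one]
    exact hex.choose_spec.2
  have hh3 : ∀ (l : ℕ) (x : X), ‖comb (Q l.unpair.1 l.unpair.2) z x -
      comb (Q l.unpair.1 l.unpair.2) (fun _ => (1 : ℝ)) x • f x‖ ≤
      comb (Q l.unpair.1 l.unpair.2) (fun _ => (1 : ℝ)) x * (ε / 2) := by
    intro l x
    by_cases hex : ∃ p ∈ Q l.unpair.1 l.unpair.2, p x ≠ 0
    · rw [comb_pos _ hex, comb_pos _ hex, smul_eq_mul, mul_one, ← smul_sub, norm_smul,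
        Real.norm_eq_abs]
      have hnn : 0 ≤ hex.choose x :=
        (hPd _ _).nonneg ⟨hex.choose, hQP _ _ hex.choose_spec.1⟩ x
      rw [abs_of_nonneg hnn]
      apply mul_le_mul_of_nonneg_left _ hnn
      have hex2 : ∃ y, hex.choose y ≠ 0 := ⟨x, hex.choose_spec.2⟩
      have hz : z hex.choose = f hex2.choose := by
        simp only [z]
        rw [dif_pos hex2]
      rw [hz]
      exact hex.choose_spec.1.2 _ _ hex2.choose_spec hex.choose_spec.2
    · rw [comb_neg _ hex, comb_neg _ hex]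
      simp
  obtain ⟨g, hg, hg'⟩ := glue (n := n) f (ε / 2)
    (fun l => comb (Q l.unpair.1 l.unpair.2) (fun _ => (1 : ℝ)))
    (fun l => comb (Q l.unpair.1 l.unpair.2) z) hn
    (fun l => comb_contDiff (hPd _ _) (hQP _ _) _)
    (fun l => comb_contDiff (hPd _ _) (hQP _ _) _) hh1 hh2 hh3
  exact ⟨g, hg, fun x => (hg' x).trans_lt (by linarith)⟩

end Pool.Agent.Helper74.Apx
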