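import Pool.Agent.Helper74.Apx.Defs

/-!
Projections onto the closed span of the functionals `D v`, `v ∈ A`, along the functionals
which vanish on `A`.
-/

set_option autoImplicit false

open scoped Topology
open Filter Set

namespace Pool.Agent.Helper74.Apx

universe u

variable {X : Type*} [NormedAddCommGroup X] [NormedSpace ℝ X] {D : X → (X →L[ℝ] ℝ)} {A B : Set X}
  {P Q : (X →L[ℝ] ℝ) →L[ℝ] (X →L[ℝ] ℝ)}

namespace Proj

lemma mem_EA {φ : X →L[ℝ] ℝ} (hφ : φ ∈ EA D A) {ε : ℝ} (hε : 0 < ε) :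
    ∃ ψ ∈ Submodule.span ℝ (D '' A), ‖φ - ψ‖ ≤ ε := by
  have h : φ ∈ closure ((Submodule.span ℝ (D '' A) : Submodule ℝ (X →L[ℝ] ℝ)) :
      Set (X →L[ℝ] ℝ)) := by
    rw [← Submodule.topologicalClosure_coe]; exact hφ
  obtain ⟨ψ, hψ, hd⟩ := Metric.mem_closure_iff.mp h ε hε
  exact ⟨ψ, hψ, by rw [← dist_eq_norm]; exact hd.le⟩

lemma EA_mem (v : X) (hv : v ∈ A) : D v ∈ EA D A :=
  Submodule.le_topologicalClosure _ (Submodule.subset_span (mem_image_of_mem D hv))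

lemma EA_closed (A : Set X) : IsClosed ((EA D A : Submodule ℝ (X →L[ℝ] ℝ)) :
    Set (X →L[ℝ] ℝ)) := Submodule.isClosed_topologicalClosure _

lemma approx_rat {φ : X →L[ℝ] ℝ} (hφ : φ ∈ Submodule.span ℝ (D '' A)) {ε : ℝ} (hε : 0 < ε) :
    ∃ (F : Finset X) (r : X → ℚ), (↑F : Set X) ⊆ A ∧
      ‖φ - ∑ v ∈ F, (r v : ℝ) • D v‖ ≤ ε := by
  rw [Finsupp.mem_span_image_iff_linearCombination] at hφ
  obtain ⟨l, hl, rfl⟩ := hφ
  have hl' : (↑l.support : Set X) ⊆ A := (Finsupp.mem_supported ℝ l).mp hl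
  set S : ℝ := ∑ v ∈ l.support, ‖D v‖ with hS
  have hS0 : 0 ≤ S := Finset.sum_nonneg fun v _ => norm_nonneg _
  have hδ : 0 < ε / (S + 1) := by positivity
  choose r hr using fun v : X => exists_rat_near (l v) hδ
  refine ⟨l.support, r, hl', ?_⟩
  rw [Finsupp.linearCombination_apply, Finsupp.sum, ← Finset.sum_sub_distrib]
  refine (norm_sum_le _ _).trans ?_
  calc ∑ v ∈ l.support, ‖l v • D v - (r v : ℝ) • D v‖
      ≤ ∑ v ∈ l.support, ε / (S + 1) * ‖D v‖ := by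
        refine Finset.sum_le_sum fun v _ => ?_
        have e : l v • D v - (r v : ℝ) • D v = (l v - (r v : ℝ)) • D v := (sub_smul _ _ _).symm
        calc ‖l v • D v - (r v : ℝ) • D v‖ = ‖(l v - (r v : ℝ)) • D v‖ := congrArg norm e
          _ = |l v - (r v : ℝ)| * ‖D v‖ := by rw [norm_smul, Real.norm_eq_abs]
          _ ≤ _ := mul_le_mul_of_nonneg_right (hr v).le (norm_nonneg _)
    _ = ε / (S + 1) * S := by rw [← Finset.mul_sum]
    _ ≤ ε := by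
        rw [div_mul_eq_mul_div, div_le_iff₀ (by positivity)]
        nlinarith

lemma nrm_of_approx {φ : X →L[ℝ] ℝ}
    (h : ∀ ε > 0, ∃ ψ : X →L[ℝ] ℝ, Nrm A ψ ∧ ‖φ - ψ‖ ≤ ε) : Nrm A φ := by
  intro C hC hA u
  have key : ∀ ε > 0, φ u ≤ C * ‖u‖ + ε := by
    intro ε hε
    have hδ : 0 < ε / (2 * (‖u‖ + 1)) := by positivity
    obtain ⟨ψ, hψ, hn⟩ := h _ hδ
    set δ := ε / (2 * (‖u‖ + 1)) with hδdef
    have hb : ∀ w, |φ w - ψ w| ≤ δ * ‖w‖ := by
      intro w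
      have := (φ - ψ).le_opNorm w
      rw [sub_apply, Real.norm_eq_abs] at this
      exact this.trans (mul_le_mul_of_nonneg_right hn (norm_nonneg _))
    have h1 : ψ u ≤ (C + δ) * ‖u‖ := by
      refine hψ (C + δ) (by positivity) ?_ u
      intro w hw
      have h2 := hA w hw
      have h3 := abs_le.mp (hb w)
      nlinarith [h3.1, h3.2]
    have h3 := abs_le.mp (hb u)
    have h4 : 2 * δ * ‖u‖ ≤ ε := by
      have : δ * (2 * (‖u‖ + 1)) = ε := by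
        rw [hδdef]; field_simp
      nlinarith [norm_nonneg u]
    nlinarith [h3.1, h3.2]
  exact le_of_forall_pos_le_add key

lemma norm_le_of_nrm {φ : X →L[ℝ] ℝ} (h1 : Nrm A φ) (h2 : Nrm A (-φ)) {C : ℝ} (hC : 0 ≤ C)
    (h : ∀ u ∈ A, |φ u| ≤ C * ‖u‖) : ‖φ‖ ≤ C := by
  refine ContinuousLinearMap.opNorm_le_bound _ hC fun u => ?_
  rw [Real.norm_eq_abs, abs_le]
  constructor
  · have := h2 C hC (fun w hw => by
      have := (abs_le.mp (h w hw)).1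
      rw [neg_apply]; linarith) u
    rw [neg_apply] at this
    linarith
  · exact h1 C hC (fun w hw => (abs_le.mp (h w hw)).2) u

end Proj

open Proj

theorem Rich.nrm (hA : Rich D A) {φ : X →L[ℝ] ℝ} (hφ : φ ∈ EA D A) : Nrm A φ := by
  refine nrm_of_approx fun ε hε => ?_
  obtain ⟨ψ, hψ, h1⟩ := mem_EA hφ (half_pos hε)
  obtain ⟨F, r, hF, h2⟩ := approx_rat hψ (half_pos hε)
  refine ⟨_, hA.2 F r hF, ?_⟩
  calc ‖φ - ∑ v ∈ F, (r v : ℝ) • D v‖
      = ‖(φ - ψ) + (ψ - ∑ v ∈ F, (r v : ℝ) • D v)‖ := by congr 1; abel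
    _ ≤ ε / 2 + ε / 2 := (norm_add_le _ _).trans (add_le_add h1 h2)
    _ = ε := by ring

theorem Rich.eq_of_eqOn (hA : Rich D A) {φ ψ : X →L[ℝ] ℝ} (hφ : φ ∈ EA D A)
    (hψ : ψ ∈ EA D A) (h : ∀ u ∈ A, φ u = ψ u) : φ = ψ := by
  have h1 : Nrm A (φ - ψ) := hA.nrm (Submodule.sub_mem _ hφ hψ)
  have h2 : Nrm A (-(φ - ψ)) := hA.nrm (Submodule.neg_mem _ (Submodule.sub_mem _ hφ hψ))
  have h3 : ‖φ - ψ‖ ≤ 0 := by
    refine norm_le_of_nrm h1 h2 le_rfl fun u hu => ?_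
    rw [sub_apply, h u hu, sub_self, abs_zero, zero_mul]
  have h4 : φ - ψ = 0 := by
    rw [← norm_eq_zero]; exact le_antisymm h3 (norm_nonneg _)
  exact sub_eq_zero.mp h4

namespace Proj

lemma exists_pt (hD : Dens D) (hA : Rich D A) (φ : X →L[ℝ] ℝ) :
    ∃ ψ ∈ EA D A, ∀ u ∈ A, ψ u = φ u := by
  have hpos : ∀ n : ℕ, (0 : ℝ) < (1 / 2) ^ n := fun n => by positivity
  choose v hvA hv using fun n : ℕ => hD A hA.1 φ ((1 / 2 : ℝ) ^ n) (hpos n)
  have hmem : ∀ n, D (v n) ∈ EA D A := fun n => EA_mem _ (hvA n)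
  have hdist : ∀ n m, ‖D (v n) - D (v m)‖ ≤ (1 / 2 : ℝ) ^ n + (1 / 2) ^ m := by
    intro n m
    have hm : D (v n) - D (v m) ∈ EA D A := Submodule.sub_mem _ (hmem n) (hmem m)
    refine norm_le_of_nrm (hA.nrm hm) (hA.nrm (Submodule.neg_mem _ hm))
      (add_nonneg (hpos n).le (hpos m).le) fun u hu => ?_
    have h1 := hv n u hu
    have h2 := hv m u hu
    rw [sub_apply] at h1 h2 ⊢
    rw [abs_le] at h1 h2 ⊢
    constructor <;> nlinarith [h1.1, h1.2, h2.1, h2.2]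
  have hcau : CauchySeq fun n => D (v n) := by
    refine Metric.cauchySeq_iff'.mpr fun ε hε => ?_
    obtain ⟨N, hN⟩ := exists_pow_lt_of_lt_one (half_pos hε) (by norm_num : (1 / 2 : ℝ) < 1)
    refine ⟨N, fun n hn => ?_⟩
    rw [dist_eq_norm]
    have h1 := hdist n N
    have h2 : (1 / 2 : ℝ) ^ n ≤ (1 / 2) ^ N :=
      pow_le_pow_of_le_one (by norm_num) (by norm_num) hn
    linarith
  obtain ⟨ψ, hψ⟩ := cauchySeq_tendsto_of_complete hcau
  refine ⟨ψ, (EA_closed A).mem_of_tendsto hψ (Filter.Eventually.of_forall hmem), fun u hu => ?_⟩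
  have h1 : Tendsto (fun n => D (v n) u) atTop (𝓝 (ψ u)) :=
    ((ContinuousLinearMap.apply ℝ ℝ u).continuous.tendsto ψ).comp hψ
  have h2 : Tendsto (fun n => D (v n) u) atTop (𝓝 (φ u)) := by
    rw [tendsto_iff_norm_sub_tendsto_zero]
    have h3 : Tendsto (fun n : ℕ => (1 / 2 : ℝ) ^ n * ‖u‖) atTop (𝓝 0) := by
      have := (tendsto_pow_atTop_nhds_zero_of_lt_one (by norm_num : (0 : ℝ) ≤ 1 / 2)
        (by norm_num)).mul_const ‖u‖
      simpa using this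
    refine squeeze_zero (fun n => norm_nonneg _) (fun n => ?_) h3
    have := hv n u hu
    rw [sub_apply] at this
    rw [Real.norm_eq_abs]; exact this
  exact tendsto_nhds_unique h1 h2

end Proj

theorem exists_proj (hD : Dens D) (hA : Rich D A) : ∃ P, IsProj D A P := by
  choose f hf hfe using exists_pt hD hA
  have hadd : ∀ φ ψ, f (φ + ψ) = f φ + f ψ := by
    intro φ ψ
    refine hA.eq_of_eqOn (hf _) (Submodule.add_mem _ (hf _) (hf _)) fun u hu => ?_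
    rw [hfe _ u hu, add_apply, add_apply, hfe _ u hu,
      hfe _ u hu]
  have hsmul : ∀ (c : ℝ) φ, f (c • φ) = c • f φ := by
    intro c φ
    refine hA.eq_of_eqOn (hf _) (Submodule.smul_mem _ c (hf _)) fun u hu => ?_
    rw [hfe _ u hu, smul_apply, smul_apply, hfe _ u hu]
  have hnorm : ∀ φ, ‖f φ‖ ≤ 1 * ‖φ‖ := by
    intro φ
    rw [one_mul]
    refine norm_le_of_nrm (hA.nrm (hf φ)) (hA.nrm (Submodule.neg_mem _ (hf φ)))
      (norm_nonneg _) fun u hu => ?_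
    rw [hfe _ u hu, ← Real.norm_eq_abs]
    exact φ.le_opNorm u
  let L : (X →L[ℝ] ℝ) →ₗ[ℝ] (X →L[ℝ] ℝ) :=
    { toFun := f, map_add' := hadd, map_smul' := hsmul }
  refine ⟨L.mkContinuous 1 hnorm, ?_, ?_, ?_⟩
  · intro φ; exact hf φ
  · intro φ u hu; exact hfe φ u hu
  · intro φ
    have := hnorm φ
    rw [one_mul] at this
    exact this

theorem EA_mono (h : A ⊆ B) : EA D A ≤ EA D B :=
  Submodule.topologicalClosure_mono (Submodule.span_mono (image_mono h))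

theorem IsProj.self (hA : Rich D A) (hP : IsProj D A P) {φ : X →L[ℝ] ℝ} (hφ : φ ∈ EA D A) :
    P φ = φ := hA.eq_of_eqOn (hP.mem φ) hφ fun u hu => hP.eq φ u hu

theorem IsProj.comp_left (hA : Rich D A) (hP : IsProj D A P) (hQ : IsProj D B Q) (hAB : A ⊆ B)
    (φ : X →L[ℝ] ℝ) : P (Q φ) = P φ :=
  hA.eq_of_eqOn (hP.mem _) (hP.mem _) fun u hu => by
    rw [hP.eq _ u hu, hQ.eq _ u (hAB hu), hP.eq _ u hu]

theorem IsProj.comp_right (hB : Rich D B) (hP : IsProj D A P) (hQ : IsProj D B Q) (hAB : A ⊆ B)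
    (φ : X →L[ℝ] ℝ) : Q (P φ) = P φ :=
  IsProj.self hB hQ (EA_mono hAB (hP.mem φ))

theorem EA_dir {ι : Type*} [Nonempty ι] {C : ι → Set X} (hC : Directed (· ⊆ ·) C)
    (hA : A ⊆ ⋃ i, C i) {φ : X →L[ℝ] ℝ} (hφ : φ ∈ EA D A) (ε : ℝ) (hε : 0 < ε) :
    ∃ i, ∃ ψ ∈ EA D (C i), ‖φ - ψ‖ ≤ ε := by
  obtain ⟨ψ, hψ, h1⟩ := mem_EA hφ hε
  have hdir : Directed (· ≤ ·) fun i => Submodule.span ℝ (D '' (C i)) := by
    intro i j
    obtain ⟨k, hik, hjk⟩ := hC i j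
    exact ⟨k, Submodule.span_mono (image_mono hik), Submodule.span_mono (image_mono hjk)⟩
  have h2 : Submodule.span ℝ (D '' A) ≤ ⨆ i, Submodule.span ℝ (D '' (C i)) := by
    rw [Submodule.span_le]
    rintro _ ⟨v, hv, rfl⟩
    obtain ⟨i, hi⟩ := mem_iUnion.mp (hA hv)
    exact (le_iSup (fun i => Submodule.span ℝ (D '' (C i))) i)
      (Submodule.subset_span (mem_image_of_mem D hi))
  obtain ⟨i, hi⟩ := (Submodule.mem_iSup_of_directed _ hdir).mp (h2 hψ)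
  exact ⟨i, ψ, Submodule.le_topologicalClosure _ hi, h1⟩

end Pool.Agent.Helper74.Apx
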