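import Pool.Agent.Helper74.Apx.Defs
import Pool.Agent.Helper74.Apx.Proj

/-!
Decomposition of a functional along a well-ordered tower of rich sets.
-/

set_option autoImplicit false

open scoped Topology
open Filter Set

namespace Pool.Agent.Helper74.Apx

section A9

variable {X : Type*} [NormedAddCommGroup X] [NormedSpace ℝ X] {D : X → (X →L[ℝ] ℝ)}
  {J : Type*} [LinearOrder J] [WellFoundedLT J] [Nonempty J] {A B : J → Set X} {T : Set X}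
  {P Q : J → ((X →L[ℝ] ℝ) →L[ℝ] (X →L[ℝ] ℝ))} {R : (X →L[ℝ] ℝ) →L[ℝ] (X →L[ℝ] ℝ)}

namespace Blocks

theorem EA_zero (hD0 : D 0 = 0) {S : Set X} (hS : S ⊆ {0}) {φ : X →L[ℝ] ℝ}
    (hφ : φ ∈ EA D S) : φ = 0 := by
  have h1 : Submodule.span ℝ (D '' S) ≤ (⊥ : Submodule ℝ (X →L[ℝ] ℝ)) := by
    rw [Submodule.span_le]
    rintro _ ⟨x, hx, rfl⟩
    have : x = 0 := hS hx
    subst this
    simp [hD0]
  have h2 : (Submodule.span ℝ (D '' S)).topologicalClosure ≤ (⊥ : Submodule ℝ (X →L[ℝ] ℝ)) :=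
    Submodule.topologicalClosure_minimal _ h1 (by
      have : ((⊥ : Submodule ℝ (X →L[ℝ] ℝ)) : Set (X →L[ℝ] ℝ)) = {0} := by simp
      rw [this]
      exact isClosed_singleton)
  exact (Submodule.mem_bot ℝ).1 (h2 hφ)

/-- the key approximation: a rich set `S` covered by a monotone family of smaller sets -/
theorem key {ι : Type*} [Nonempty ι] {C : ι → Set X} (hC : Directed (· ⊆ ·) C)
    {S : Set X} (hS : S ⊆ ⋃ i, C i) (hCr : ∀ i, Rich D (C i)) {Z : ι → ((X →L[ℝ] ℝ) →L[ℝ] (X →L[ℝ] ℝ))}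
    (hZ : ∀ i, IsProj D (C i) (Z i)) {W : (X →L[ℝ] ℝ) →L[ℝ] (X →L[ℝ] ℝ)}
    (hW : IsProj D S W) (hCS : ∀ i, C i ⊆ S) (φ : X →L[ℝ] ℝ) (δ : ℝ) (hδ : 0 < δ) :
    ∃ i, ‖W φ - Z i φ‖ ≤ δ := by
  obtain ⟨i, ψ, hψ, hle⟩ := EA_dir hC hS (hW.mem φ) (δ / 2) (by positivity)
  refine ⟨i, ?_⟩
  have h1 : Z i ψ = ψ := (hZ i).self (hCr i) hψ
  have h2 : Z i (W φ) = Z i φ := (hZ i).comp_left (hCr i) hW (hCS i) φ
  have h3 : W φ - Z i φ = (W φ - ψ) + (Z i (ψ - W φ)) := by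
    rw [map_sub, h1, h2]; abel
  have h4 : ‖Z i (ψ - W φ)‖ ≤ ‖W φ - ψ‖ := by
    refine ((hZ i).le _).trans (le_of_eq ?_)
    rw [← norm_neg, neg_sub]
  calc ‖W φ - Z i φ‖ = ‖(W φ - ψ) + (Z i (ψ - W φ))‖ := by rw [h3]
    _ ≤ ‖W φ - ψ‖ + ‖Z i (ψ - W φ)‖ := norm_add_le _ _
    _ ≤ δ / 2 + δ / 2 := add_le_add hle (h4.trans hle)
    _ = δ := by ring

omit [NormedAddCommGroup X] [NormedSpace ℝ X] [WellFoundedLT J] [Nonempty J] in
theorem B_mono (hAB : ∀ a, A a ⊆ B a) (hBA : ∀ a b, b < a → B b ⊆ A a) : Monotone B := by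
  intro a b hab
  rcases hab.eq_or_lt with rfl | h
  · exact Subset.rfl
  · exact (hBA b a h).trans (hAB b)

omit [WellFoundedLT J] [Nonempty J] in
/-- the approximation below `a` -/
theorem key_below (hD0 : D 0 = 0) (hA : ∀ a, Rich D (A a)) (hB : ∀ a, Rich D (B a))
    (hP : ∀ a, IsProj D (A a) (P a)) (hQ : ∀ a, IsProj D (B a) (Q a))
    (hAB : ∀ a, A a ⊆ B a) (hBA : ∀ a b, b < a → B b ⊆ A a)
    (hAlim : ∀ a, ∀ x ∈ A a, x = 0 ∨ ∃ b < a, x ∈ B b) (φ : X →L[ℝ] ℝ) (δ : ℝ) (hδ : 0 < δ)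
    (a : J) : ((∀ b, ¬ b < a) ∧ P a φ = 0) ∨ ∃ b < a, ‖P a φ - Q b φ‖ ≤ δ := by
  by_cases h : ∀ b, ¬ b < a
  · left
    refine ⟨h, EA_zero hD0 (S := A a) ?_ ((hP a).mem φ)⟩
    intro x hx
    rcases hAlim a x hx with h0 | ⟨b, hb, -⟩
    · exact h0
    · exact absurd hb (h b)
  · right
    push Not at h
    obtain ⟨b₀, hb₀⟩ := h
    have : Nonempty {b : J // b < a} := ⟨⟨b₀, hb₀⟩⟩
    have hmono := B_mono hAB hBA
    have hdir : Directed (· ⊆ ·) (fun b : {b : J // b < a} => B b.1) := by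
      intro i j
      rcases le_total i.1 j.1 with hij | hij
      · exact ⟨j, hmono hij, Subset.rfl⟩
      · exact ⟨i, Subset.rfl, hmono hij⟩
    have hcov : A a ⊆ ⋃ b : {b : J // b < a}, B b.1 := by
      intro x hx
      rcases hAlim a x hx with h0 | ⟨b, hb, hxb⟩
      · exact mem_iUnion.2 ⟨⟨b₀, hb₀⟩, by rw [h0]; exact (hB b₀).1.zero⟩
      · exact mem_iUnion.2 ⟨⟨b, hb⟩, hxb⟩
    obtain ⟨i, hi⟩ := key hdir hcov (fun i => hB i.1) (fun i => hQ i.1) (hP a)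
      (fun i => hBA a i.1 i.2) φ δ hδ
    exact ⟨i.1, i.2, hi⟩

omit [WellFoundedLT J] in
/-- the approximation at the top -/
theorem key_top (hB : ∀ a, Rich D (B a)) (hQ : ∀ a, IsProj D (B a) (Q a))
    (hR : IsProj D T R) (hAB : ∀ a, A a ⊆ B a) (hBA : ∀ a b, b < a → B b ⊆ A a)
    (hBT : ∀ a, B a ⊆ T) (hTlim : ∀ x ∈ T, ∃ a, x ∈ B a) (φ : X →L[ℝ] ℝ) (δ : ℝ) (hδ : 0 < δ) :
    ∃ b, ‖R φ - Q b φ‖ ≤ δ := by
  have hmono := B_mono hAB hBA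
  have hcov : T ⊆ ⋃ b, B b := by
    intro x hx
    obtain ⟨a, ha⟩ := hTlim x hx
    exact mem_iUnion.2 ⟨a, ha⟩
  exact key hmono.directed_le hcov hB hQ hR hBT φ δ hδ

omit [WellFoundedLT J] [Nonempty J] in
/-- small blocks between a good index and a set above -/
theorem block_small (hA : ∀ a, Rich D (A a)) (hB : ∀ a, Rich D (B a))
    (hP : ∀ a, IsProj D (A a) (P a)) (hQ : ∀ a, IsProj D (B a) (Q a))
    (hAB : ∀ a, A a ⊆ B a) (hBA : ∀ a b, b < a → B b ⊆ A a) (φ : X →L[ℝ] ℝ) (δ : ℝ)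
    {S : Set X} {W : (X →L[ℝ] ℝ) →L[ℝ] (X →L[ℝ] ℝ)} (hW : IsProj D S W) {b c : J} (hbc : b < c)
    (hcS : B c ⊆ S) (h : ‖W φ - Q b φ‖ ≤ δ) : ‖Q c φ - P c φ‖ ≤ δ + δ := by
  have h1 : Q c (W φ) = Q c φ := (hQ c).comp_left (hB c) hW hcS φ
  have h2 : Q c (Q b φ) = Q b φ :=
    IsProj.comp_right (hB c) (hQ b) (hQ c) ((hBA c b hbc).trans (hAB c)) φ
  have h3 : P c (W φ) = P c φ := (hP c).comp_left (hA c) hW ((hAB c).trans hcS) φ
  have h4 : P c (Q b φ) = Q b φ :=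
    IsProj.comp_right (hA c) (hQ b) (hP c) (hBA c b hbc) φ
  have h5 : Q c φ - P c φ = Q c (W φ - Q b φ) - P c (W φ - Q b φ) := by
    rw [map_sub, map_sub, h1, h2, h3, h4]; abel
  calc ‖Q c φ - P c φ‖ = ‖Q c (W φ - Q b φ) - P c (W φ - Q b φ)‖ := by rw [h5]
    _ ≤ ‖Q c (W φ - Q b φ)‖ + ‖P c (W φ - Q b φ)‖ := norm_sub_le _ _
    _ ≤ δ + δ := add_le_add (((hQ c).le _).trans h) (((hP c).le _).trans h)

end Blocks

theorem blocks_finite (hD0 : D 0 = 0) (hA : ∀ a, Rich D (A a)) (hB : ∀ a, Rich D (B a))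
    (hT : Rich D T) (hP : ∀ a, IsProj D (A a) (P a)) (hQ : ∀ a, IsProj D (B a) (Q a))
    (hR : IsProj D T R) (hAB : ∀ a, A a ⊆ B a) (hBA : ∀ a b, b < a → B b ⊆ A a)
    (hBT : ∀ a, B a ⊆ T) (hAlim : ∀ a, ∀ x ∈ A a, x = 0 ∨ ∃ b < a, x ∈ B b)
    (hTlim : ∀ x ∈ T, ∃ a, x ∈ B a) (φ : X →L[ℝ] ℝ) (q : ℝ) (hq : 0 < q) :
    {a | q ≤ ‖Q a φ - P a φ‖}.Finite := by
  have hδ : 0 < q / 3 := by positivity
  have hind : ∀ a : J, {c | c < a ∧ q ≤ ‖Q c φ - P c φ‖}.Finite := by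
    intro a
    induction a using WellFoundedLT.induction with
    | ind a ih =>
      rcases Blocks.key_below hD0 hA hB hP hQ hAB hBA hAlim φ (q / 3) hδ a with
        ⟨h, -⟩ | ⟨b, hb, hle⟩
      · refine Set.finite_empty.subset ?_
        rintro c ⟨hc, -⟩
        exact absurd hc (h c)
      · refine ((ih b hb).union (Set.finite_singleton b)).subset ?_
        rintro c ⟨hc, hqc⟩
        rcases lt_trichotomy c b with hcb | rfl | hbc
        · exact Or.inl ⟨hcb, hqc⟩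
        · exact Or.inr rfl
        · exfalso
          have := Blocks.block_small hA hB hP hQ hAB hBA φ (q / 3) (hP a) hbc (hBA a c hc) hle
          linarith
  obtain ⟨b, hle⟩ := Blocks.key_top (A := A) hB hQ hR hAB hBA hBT hTlim φ (q / 3) hδ
  refine ((hind b).union (Set.finite_singleton b)).subset ?_
  intro c hqc
  rcases lt_trichotomy c b with hcb | rfl | hbc
  · exact Or.inl ⟨hcb, hqc⟩
  · exact Or.inr rfl
  · exfalso
    have hqc' : q ≤ ‖Q c φ - P c φ‖ := hqc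
    have := Blocks.block_small hA hB hP hQ hAB hBA φ (q / 3) hR hbc (hBT c) hle
    linarith

theorem blocks_sum (hD0 : D 0 = 0) (hA : ∀ a, Rich D (A a)) (hB : ∀ a, Rich D (B a))
    (hT : Rich D T) (hP : ∀ a, IsProj D (A a) (P a)) (hQ : ∀ a, IsProj D (B a) (Q a))
    (hR : IsProj D T R) (hAB : ∀ a, A a ⊆ B a) (hBA : ∀ a b, b < a → B b ⊆ A a)
    (hBT : ∀ a, B a ⊆ T) (hAlim : ∀ a, ∀ x ∈ A a, x = 0 ∨ ∃ b < a, x ∈ B b)
    (hTlim : ∀ x ∈ T, ∃ a, x ∈ B a) (φ : X →L[ℝ] ℝ) (hφ : φ ∈ EA D T) (ε : ℝ) (hε : 0 < ε) :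
    ∃ S : Finset J, ‖φ - ∑ a ∈ S, (Q a φ - P a φ)‖ ≤ ε := by
  classical
  have hind : ∀ a : J, ∀ ε > (0 : ℝ), ∃ S : Finset J, (∀ b ∈ S, b < a) ∧
      ‖P a φ - ∑ b ∈ S, (Q b φ - P b φ)‖ ≤ ε := by
    intro a
    induction a using WellFoundedLT.induction with
    | ind a ih =>
      intro ε hε
      rcases Blocks.key_below hD0 hA hB hP hQ hAB hBA hAlim φ (ε / 2) (by positivity) a with
        ⟨-, h⟩ | ⟨b, hb, hle⟩
      · refine ⟨∅, by simp, ?_⟩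
        rw [h]
        simpa using hε.le
      · obtain ⟨S, hS, hSle⟩ := ih b hb (ε / 2) (by positivity)
        have hbS : b ∉ S := fun h => lt_irrefl b (hS b h)
        refine ⟨insert b S, ?_, ?_⟩
        · intro c hc
          rcases Finset.mem_insert.1 hc with rfl | hc
          · exact hb
          · exact (hS c hc).trans hb
        · rw [Finset.sum_insert hbS]
          have h5 : P a φ - (Q b φ - P b φ + ∑ c ∈ S, (Q c φ - P c φ)) =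
              (P a φ - Q b φ) + (P b φ - ∑ c ∈ S, (Q c φ - P c φ)) := by abel
          rw [h5]
          calc _ ≤ ‖P a φ - Q b φ‖ + ‖P b φ - ∑ c ∈ S, (Q c φ - P c φ)‖ := norm_add_le _ _
            _ ≤ ε / 2 + ε / 2 := add_le_add hle hSle
            _ = ε := by ring
  obtain ⟨b, hle⟩ := Blocks.key_top (A := A) hB hQ hR hAB hBA hBT hTlim φ (ε / 2) (by positivity)
  rw [hR.self hT hφ] at hle
  obtain ⟨S, hS, hSle⟩ := hind b (ε / 2) (by positivity)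
  have hbS : b ∉ S := fun h => lt_irrefl b (hS b h)
  refine ⟨insert b S, ?_⟩
  rw [Finset.sum_insert hbS]
  have h5 : φ - (Q b φ - P b φ + ∑ c ∈ S, (Q c φ - P c φ)) =
      (φ - Q b φ) + (P b φ - ∑ c ∈ S, (Q c φ - P c φ)) := by abel
  rw [h5]
  calc _ ≤ ‖φ - Q b φ‖ + ‖P b φ - ∑ c ∈ S, (Q c φ - P c φ)‖ := norm_add_le _ _
    _ ≤ ε / 2 + ε / 2 := add_le_add hle hSle
    _ = ε := by ring

end A9

end Pool.Agent.Helper74.Apx
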