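import Pool.Agent.Helper74.Apx.Defs

/-!
Basic permanence properties of `Cov`.
-/

set_option autoImplicit false

open scoped Topology
open Filter Set

namespace Pool.Agent.Helper74.Apx

section A1
variable {X : Type*} [NormedAddCommGroup X] [NormedSpace ℝ X] {n : WithTop ℕ∞}

theorem Cov.mono {E E' : Set X} {ε : ℝ} (h : Cov n E ε) (hE : E' ⊆ E) : Cov n E' ε := by
  obtain ⟨P, h1, h2, h3⟩ := h
  exact ⟨P, h1, h2, fun x hx => h3 x (hE hx)⟩

theorem Cov.iUnion {κ : Type*} [Countable κ] {E : κ → Set X} {ε : ℝ}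
    (h : ∀ i, Cov n (E i) ε) : Cov n (⋃ i, E i) ε := by
  classical
  choose P hP1 hP2 hP3 using h
  let : Encodable κ := Encodable.ofCountable κ
  refine ⟨fun m => {p | ∃ i : κ, Encodable.encode i = (Nat.unpair m).1 ∧ p ∈ P i (Nat.unpair m).2},
    ?_, ?_, ?_⟩
  · intro m
    refine ⟨?_, ?_, ?_⟩
    · rintro ⟨p, i, hi, hp⟩
      exact (hP1 i _).smooth ⟨p, hp⟩
    · rintro ⟨p, i, hi, hp⟩
      exact (hP1 i _).nonneg ⟨p, hp⟩
    · intro x
      by_cases hex : ∃ i : κ, Encodable.encode i = (Nat.unpair m).1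
      · obtain ⟨i, hi⟩ := hex
        obtain ⟨U, hU, hdisc⟩ := (hP1 i (Nat.unpair m).2).disc x
        refine ⟨U, hU, ?_⟩
        rintro ⟨p, i₁, hi₁, hp⟩ ⟨p', i₂, hi₂, hp'⟩ y hy y' hy' h1 h2
        have e1 : i₁ = i := Encodable.encode_injective (hi₁.trans hi.symm)
        have e2 : i₂ = i := Encodable.encode_injective (hi₂.trans hi.symm)
        subst e1
        subst e2
        have := hdisc ⟨p, hp⟩ ⟨p', hp'⟩ y hy y' hy' h1 h2
        have h3 : p = p' := congrArg Subtype.val this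
        exact Subtype.ext h3
      · refine ⟨univ, univ_mem, ?_⟩
        rintro ⟨p, i₁, hi₁, hp⟩
        exact absurd ⟨i₁, hi₁⟩ hex
  · rintro m p ⟨i, hi, hp⟩ y y' h1 h2
    exact hP2 i _ p hp y y' h1 h2
  · intro x hx
    obtain ⟨i, hi⟩ := mem_iUnion.1 hx
    obtain ⟨m, p, hp, hpx⟩ := hP3 i x hi
    refine ⟨Nat.pair (Encodable.encode i) m, p, ⟨i, ?_, ?_⟩, hpx⟩
    · rw [Nat.unpair_pair]
    · rw [Nat.unpair_pair]
      exact hp

theorem Cov.comp {ι : Type*} {q : ι → X → ℝ} (hq : Disc n q) {E : ι → Set X} {ε : ℝ}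
    (h : ∀ i, Cov n (E i) ε) : Cov n {x | ∃ i, q i x ≠ 0 ∧ x ∈ E i} ε := by
  classical
  choose P hP1 hP2 hP3 using h
  refine ⟨fun m => {f | ∃ i, ∃ p ∈ P i m, f = fun x => q i x * p x}, ?_, ?_, ?_⟩
  · intro m
    refine ⟨?_, ?_, ?_⟩
    · rintro ⟨f, i, p, hp, rfl⟩
      exact (hq.smooth i).mul ((hP1 i m).smooth ⟨p, hp⟩)
    · rintro ⟨f, i, p, hp, rfl⟩ x
      exact mul_nonneg (hq.nonneg i x) ((hP1 i m).nonneg ⟨p, hp⟩ x)
    · intro x
      obtain ⟨U, hU, hdisc⟩ := hq.disc x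
      by_cases hex : ∃ i, ∃ y ∈ U, q i y ≠ 0
      · obtain ⟨i₀, y₀, hy₀, hq₀⟩ := hex
        obtain ⟨V, hV, hdiscV⟩ := (hP1 i₀ m).disc x
        refine ⟨U ∩ V, inter_mem hU hV, ?_⟩
        rintro ⟨f, i, p, hp, rfl⟩ ⟨f', i', p', hp', rfl⟩ y hy y' hy' h1 h2
        have h1' : q i y * p y ≠ 0 := h1
        have h2' : q i' y' * p' y' ≠ 0 := h2
        have e1 : i = i₀ := hdisc i i₀ y hy.1 y₀ hy₀ (left_ne_zero_of_mul h1') hq₀
        have e2 : i' = i₀ := hdisc i' i₀ y' hy'.1 y₀ hy₀ (left_ne_zero_of_mul h2') hq₀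
        subst e1
        subst e2
        have h3 := hdiscV ⟨p, hp⟩ ⟨p', hp'⟩ y hy.2 y' hy'.2 (right_ne_zero_of_mul h1')
          (right_ne_zero_of_mul h2')
        have h4 : p = p' := congrArg Subtype.val h3
        subst h4
        rfl
      · refine ⟨U, hU, ?_⟩
        rintro ⟨f, i, p, hp, rfl⟩ ⟨f', i', p', hp', rfl⟩ y hy y' hy' h1 h2
        have h1' : q i y * p y ≠ 0 := h1
        exact absurd ⟨i, y, hy, left_ne_zero_of_mul h1'⟩ hex
  · rintro m f ⟨i, p, hp, rfl⟩ y y' h1 h2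
    have h1' : q i y * p y ≠ 0 := h1
    have h2' : q i y' * p y' ≠ 0 := h2
    exact hP2 i m p hp y y' (right_ne_zero_of_mul h1') (right_ne_zero_of_mul h2')
  · rintro x ⟨i, hqi, hx⟩
    obtain ⟨m, p, hp, hpx⟩ := hP3 i x hx
    exact ⟨m, fun x => q i x * p x, ⟨i, p, hp, rfl⟩, mul_ne_zero hqi hpx⟩

theorem Cov.single (β : X → ℝ) (hβ : ContDiff ℝ n β) (h0 : ∀ x, 0 ≤ β x) {ε : ℝ}
    (hε : ∀ y y', β y ≠ 0 → β y' ≠ 0 → ‖y - y'‖ ≤ ε) : Cov n {x | β x ≠ 0} ε := by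
  refine ⟨fun _ => {β}, ?_, ?_, ?_⟩
  · intro m
    refine ⟨?_, ?_, ?_⟩
    · rintro ⟨p, hp⟩
      have hp' : p = β := hp
      subst hp'
      exact hβ
    · rintro ⟨p, hp⟩
      have hp' : p = β := hp
      subst hp'
      exact h0
    · intro x
      refine ⟨univ, univ_mem, ?_⟩
      rintro ⟨p, hp⟩ ⟨p', hp'⟩ y _ y' _ _ _
      have h1 : p = β := hp
      have h2 : p' = β := hp'
      exact Subtype.ext (h1.trans h2.symm)
  · rintro m p hp y y' h1 h2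
    have hp' : p = β := hp
    subst hp'
    exact hε y y' h1 h2
  · intro x hx
    exact ⟨0, β, rfl, hx⟩

end A1

end Pool.Agent.Helper74.Apx
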