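import Pool.Agent.Helper74.Apx.Defs
import Pool.Agent.Helper74.Full.Closing

/-!
I-14: the countable sets attached to finite sets of indices.
-/

set_option autoImplicit false

open scoped Topology
open Filter Set

namespace Pool.Agent.Helper74.Apx

universe u

namespace ExistsV

section
variable {X : Type*} [NormedAddCommGroup X] [NormedSpace ℝ X]

/-- the two operations -/
noncomputable def op : Unit ⊕ ℚ → X → X → X
  | Sum.inl _, x, y => x + y
  | Sum.inr r, x, _ => (r : ℝ) • x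

open Classical in
/-- a witness against `D ≤ C ‖·‖` -/
noncomputable def pick (D : X →L[ℝ] ℝ) (C : ℚ) : X :=
  if h : ∃ u, (C : ℝ) * ‖u‖ < D u then h.choose else 0

theorem pick_spec (D : X →L[ℝ] ℝ) (C : ℚ) (h : ∃ u, (C : ℝ) * ‖u‖ < D u) :
    (C : ℝ) * ‖pick D C‖ < D (pick D C) := by
  unfold pick
  rw [dif_pos h]
  exact h.choose_spec

/-- generators -/
def gen (W : Set (X →L[ℝ] ℝ)) : Set X :=
  insert 0 (⋃ C : ℚ, (fun D => pick D C) '' W)

theorem gen_countable {W : Set (X →L[ℝ] ℝ)} (hW : W.Countable) : (gen W).Countable := by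
  unfold gen
  apply Set.Countable.insert
  exact Set.countable_iUnion fun C => hW.image _

theorem gen_mono {W W' : Set (X →L[ℝ] ℝ)} (h : W ⊆ W') : gen W ⊆ gen W' := by
  unfold gen
  apply Set.insert_subset_insert
  exact Set.iUnion_mono fun C => Set.image_mono h

theorem pick_mem {W : Set (X →L[ℝ] ℝ)} {D : X →L[ℝ] ℝ} (hD : D ∈ W) (C : ℚ) :
    pick D C ∈ gen W :=
  Or.inr (Set.mem_iUnion.2 ⟨C, D, hD, rfl⟩)

theorem isQ_univ : Full.IsQ (univ : Set X) :=
  ⟨mem_univ _, fun _ _ _ _ => mem_univ _, fun _ _ _ => mem_univ _⟩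

theorem mem_EA_univ {D : X → (X →L[ℝ] ℝ)} (hD : Dens D) (φ : X →L[ℝ] ℝ) :
    φ ∈ EA D (univ : Set X) := by
  change φ ∈ ((Submodule.span ℝ (D '' (univ : Set X))).topologicalClosure : Set (X →L[ℝ] ℝ))
  rw [Submodule.topologicalClosure_coe, Metric.mem_closure_iff]
  intro ε hε
  obtain ⟨v, -, hv⟩ := hD univ isQ_univ φ (ε / 2) (half_pos hε)
  refine ⟨D v, Submodule.subset_span ⟨v, mem_univ _, rfl⟩, ?_⟩
  rw [dist_comm, dist_eq_norm]
  have : ‖D v - φ‖ ≤ ε / 2 := by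
    refine ContinuousLinearMap.opNorm_le_bound _ (by positivity) ?_
    intro u
    rw [Real.norm_eq_abs]
    exact hv u (mem_univ _)
  linarith

end

end ExistsV

open ExistsV

theorem exists_V {X : Type u} [NormedAddCommGroup X] [NormedSpace ℝ X]
    {D : X → (X →L[ℝ] ℝ)} (hD : Dens D) (h : HasSys D (univ : Set X)) :
    ∃ (Γ : Type u) (e : Γ → ((X →L[ℝ] ℝ) →L[ℝ] ℝ)) (V : Finset Γ → Set X),
      (∀ γ, ‖e γ‖ ≤ 1) ∧ (∀ φ, ∀ q > (0 : ℝ), {γ | q ≤ |e γ φ|}.Finite) ∧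
      (∀ F, (V F).Countable) ∧ (∀ F G, F ⊆ G → V F ⊆ V G) ∧ (∀ F, Full.IsQ (V F)) ∧
      ∀ (φ : X →L[ℝ] ℝ) (S : Set X), (∀ F : Finset Γ, (∀ γ ∈ F, e γ φ ≠ 0) → V F ⊆ S) →
        Nrm S φ := by
  obtain ⟨Γ, e, W, he, hfin, hWc, hWm, -, happ⟩ := h
  obtain ⟨cl, hcl1, hcl2, hcl3, hcl4⟩ := Full.closing (E := X) (op (X := X))
  refine ⟨Γ, e, fun F => cl (gen (W F)), he, hfin, fun F => hcl2 _ (gen_countable (hWc F)),
    fun F G hFG => hcl3 _ _ (gen_mono (hWm F G hFG)), ?_, ?_⟩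
  · intro F
    refine ⟨hcl1 _ (Set.mem_insert _ _), ?_, ?_⟩
    · intro x hx y hy
      exact hcl4 _ (Sum.inl ()) x y hx hy
    · intro c x hx
      exact hcl4 _ (Sum.inr c) x x hx hx
  · intro φ S hS C hC hφ u
    have key : ∀ η > (0 : ℝ), φ u ≤ (C + 3 * η) * ‖u‖ := by
      intro η hη
      obtain ⟨F, hF, w, hw, hφw⟩ := happ φ (mem_EA_univ hD φ) η hη
      obtain ⟨C', hC1, hC2⟩ := exists_rat_btwn (show C + η < C + 2 * η by linarith)
      have hle : ∀ v, |φ v - w v| ≤ η * ‖v‖ := by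
        intro v
        have h1 := (φ - w).le_opNorm v
        rw [Real.norm_eq_abs] at h1
        calc |φ v - w v| = |(φ - w) v| := by simp
          _ ≤ ‖φ - w‖ * ‖v‖ := h1
          _ ≤ η * ‖v‖ := by gcongr
      have hwV : ∀ v ∈ cl (gen (W F)), w v ≤ C' * ‖v‖ := by
        intro v hv
        have h1 := hφ v (hS F hF hv)
        have h2 := (abs_le.mp (hle v)).1
        have h3 : (C + η) * ‖v‖ ≤ C' * ‖v‖ := by
          apply mul_le_mul_of_nonneg_right hC1.le (norm_nonneg _)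
        nlinarith
      have hwall : ∀ v, w v ≤ C' * ‖v‖ := by
        intro v
        by_contra hu
        have hex : ∃ u, (C' : ℝ) * ‖u‖ < w u := ⟨v, not_le.1 hu⟩
        have h5 := pick_spec w C' hex
        have h6 := hwV (pick w C') (hcl1 _ (pick_mem hw C'))
        linarith
      have h2 := (abs_le.mp (hle u)).2
      have h3 := hwall u
      have h4 : (C' : ℝ) * ‖u‖ ≤ (C + 2 * η) * ‖u‖ :=
        mul_le_mul_of_nonneg_right hC2.le (norm_nonneg _)
      nlinarith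
    refine le_of_forall_pos_le_add ?_
    intro δ hδ
    have hpos : (0 : ℝ) < 3 * (‖u‖ + 1) := by positivity
    have h1 := key (δ / (3 * (‖u‖ + 1))) (div_pos hδ hpos)
    have h2 : 3 * (δ / (3 * (‖u‖ + 1))) * ‖u‖ ≤ δ := by
      have : 3 * (δ / (3 * (‖u‖ + 1))) * ‖u‖ = δ * (‖u‖ / (‖u‖ + 1)) := by
        field_simp
      rw [this]
      have h3 : ‖u‖ / (‖u‖ + 1) ≤ 1 := by
        rw [div_le_one (by positivity)]
        linarith
      nlinarith
    nlinarith

end Pool.Agent.Helper74.Apx
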