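import Pool.Agent.Helper74.Apx.Defs
import Pool.Agent.Helper74.Full.Detect

/-!
Basic properties of a square-gauge (A5, first part).
-/

set_option autoImplicit false

open scoped Topology
open Filter Set

namespace Pool.Agent.Helper74.Apx

variable {X : Type*} [NormedAddCommGroup X] [NormedSpace ℝ X] {n : WithTop ℕ∞} {Ψ : X → ℝ}
  {a A : ℝ}

theorem Led.deriv_zero (h : Led n Ψ a A) : HasFDerivAt Ψ (0 : X →L[ℝ] ℝ) 0 := by
  apply Asymptotics.IsBigO.hasFDerivAt (n := 2) _ (by norm_num)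
  refine Asymptotics.IsBigO.of_bound |A| (Eventually.of_forall fun x => ?_)
  have h1 := h.lower x
  have h2 := h.upper x
  have h3 : 0 ≤ a * ‖x‖ ^ 2 := by have := h.a_pos; positivity
  rw [sub_zero, Real.norm_of_nonneg (h3.trans h1), Real.norm_of_nonneg (by positivity)]
  calc Ψ x ≤ A * ‖x‖ ^ 2 := h2
    _ ≤ |A| * ‖x‖ ^ 2 := by gcongr; exact le_abs_self A

namespace LedBasic

theorem fderiv_zero (h : Led n Ψ a A) : fderiv ℝ Ψ 0 = 0 := h.deriv_zero.fderiv

theorem contDiffAt (h : Led n Ψ a A) {x : X} (hx : x ≠ 0) : ContDiffAt ℝ n Ψ x :=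
  h.smooth.contDiffAt (isOpen_ne.mem_nhds hx)

theorem hasFDerivAt (h : Led n Ψ a A) (hn : 1 ≤ n) (x : X) : HasFDerivAt Ψ (fderiv ℝ Ψ x) x := by
  by_cases hx : x = 0
  · subst hx
    rw [fderiv_zero h]
    exact h.deriv_zero
  · exact ((contDiffAt h hx).differentiableAt (by
      intro h0
      rw [h0] at hn
      exact absurd hn (by simp))).hasFDerivAt

theorem continuous (h : Led n Ψ a A) (hn : 1 ≤ n) : Continuous Ψ :=
  continuous_iff_continuousAt.2 fun x => (hasFDerivAt h hn x).continuousAt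

theorem continuousAt_fderiv (h : Led n Ψ a A) (hn : 1 ≤ n) {x : X} (hx : x ≠ 0) :
    ContinuousAt (fderiv ℝ Ψ) x :=
  (((contDiffAt h hx).of_le hn).fderiv_right (m := 0) (by simp)).continuousAt

/-- The derivative at an approximate minimum on a closed `ℚ`-subspace. -/
theorem approx_min {V : Set X} (hV : Full.IsQ V) {g : X → ℝ} {g' : X →L[ℝ] ℝ} {v₀ : X}
    (hg : HasFDerivAt g g' v₀) (hv₀ : v₀ ∈ closure V) {ε : ℝ}
    (hmin : ∀ z ∈ closure V, g v₀ ≤ g z + ε * ‖v₀ - z‖) {u : X} (hu : u ∈ closure V) :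
    |g' u| ≤ ε * ‖u‖ := by
  have key : ∀ u ∈ closure V, -(ε * ‖u‖) ≤ g' u := by
    intro u hu
    have h1 : HasDerivAt (fun t : ℝ => g (v₀ + t • u)) (g' u) 0 := by
      have h2 : HasDerivAt (fun t : ℝ => v₀ + t • u) u 0 := by
        simpa using ((hasDerivAt_id (0 : ℝ)).smul_const u).const_add v₀
      have h3 : HasFDerivAt g g' (v₀ + (0 : ℝ) • u) := by simpa using hg
      exact h3.comp_hasDerivAt (0 : ℝ) h2
    have h2 := h1.tendsto_slope_zero_right
    refine ge_of_tendsto h2 ?_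
    filter_upwards [self_mem_nhdsWithin] with t ht
    have ht0 : (0 : ℝ) < t := ht
    have h3 := hmin (v₀ + t • u) (Full.Detect.add_mem hV hv₀ (Full.Detect.smul_mem hV t hu))
    rw [show v₀ - (v₀ + t • u) = -(t • u) by abel, norm_neg, norm_smul,
      Real.norm_of_nonneg ht0.le] at h3
    rw [zero_add, zero_smul, add_zero, smul_eq_mul, ← div_eq_inv_mul, le_div_iff₀ ht0]
    linarith
  rw [abs_le]
  refine ⟨key u hu, ?_⟩
  have h1 := key (-u) (by
    have := Full.Detect.smul_mem hV (-1) hu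
    simpa using this)
  rw [map_neg, norm_neg] at h1
  linarith

end LedBasic

open LedBasic

theorem Led.dens [CompleteSpace X] (h : Led n Ψ a A) (hn : 1 ≤ n) :
    Dens (fun x => fderiv ℝ Ψ x) := by
  intro V hV φ ε hε
  have ha := h.a_pos
  have hc := LedBasic.continuous h hn
  obtain ⟨v₀, hv₀, -, hmin⟩ := Full.Detect.ekeland_closure hV (fun v => Ψ v - φ v)
    (hc.sub φ.continuous) (-(‖φ‖ ^ 2 / (4 * a))) (by
      intro y
      have h1 := φ.le_opNorm y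
      have h2 := le_abs_self (φ y)
      rw [Real.norm_eq_abs] at h1
      have h3 := h.lower y
      have h4 : ‖φ‖ ^ 2 / (4 * a) + a * ‖y‖ ^ 2 - ‖φ‖ * ‖y‖ = (2 * a * ‖y‖ - ‖φ‖) ^ 2 / (4 * a) := by
        field_simp
        ring
      have h5 : 0 ≤ (2 * a * ‖y‖ - ‖φ‖) ^ 2 / (4 * a) := by positivity
      linarith) (ε / 2) (by positivity)
  have hd : HasFDerivAt (fun v => Ψ v - φ v) (fderiv ℝ Ψ v₀ - φ) v₀ :=
    (LedBasic.hasFDerivAt h hn v₀).sub φ.hasFDerivAt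
  have habs : ∀ u ∈ closure V, |(fderiv ℝ Ψ v₀ - φ) u| ≤ ε / 2 * ‖u‖ := fun u hu =>
    approx_min hV hd hv₀ hmin hu
  by_cases h0 : v₀ = 0
  · refine ⟨0, hV.zero, fun u hu => ?_⟩
    rw [h0] at habs
    refine (habs u (subset_closure hu)).trans ?_
    gcongr
    linarith
  · have hcont := continuousAt_fderiv h hn h0
    obtain ⟨v, hvV, hv⟩ := mem_closure_iff_seq_limit.1 hv₀
    have hv2 : Tendsto (fun n => fderiv ℝ Ψ (v n)) atTop (𝓝 (fderiv ℝ Ψ v₀)) :=
      hcont.tendsto.comp hv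
    have e2 : ∀ᶠ n in atTop, ‖fderiv ℝ Ψ (v n) - fderiv ℝ Ψ v₀‖ < ε / 2 := by
      have h1 := (hv2.sub_const (fderiv ℝ Ψ v₀)).norm
      rw [sub_self, norm_zero] at h1
      exact h1.eventually (gt_mem_nhds (by positivity))
    obtain ⟨m, hm⟩ := e2.exists
    refine ⟨v m, hvV m, fun u hu => ?_⟩
    have h1 := habs u (subset_closure hu)
    have h2 := (fderiv ℝ Ψ (v m) - fderiv ℝ Ψ v₀).le_opNorm u
    rw [Real.norm_eq_abs] at h2
    have h3 : (fderiv ℝ Ψ (v m) - φ) u =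
        (fderiv ℝ Ψ (v m) - fderiv ℝ Ψ v₀) u + (fderiv ℝ Ψ v₀ - φ) u := by
      simp
    change |(fderiv ℝ Ψ (v m) - φ) u| ≤ _
    rw [h3]
    have h4 := mul_le_mul_of_nonneg_right hm.le (norm_nonneg u)
    calc _ ≤ |(fderiv ℝ Ψ (v m) - fderiv ℝ Ψ v₀) u| + |(fderiv ℝ Ψ v₀ - φ) u| := abs_add_le _ _
      _ ≤ ε * ‖u‖ := by linarith

theorem Led.detect [CompleteSpace X] (h : Led n Ψ a A) (hn : 1 ≤ n) (V : Set X)
    (hV : Full.IsQ V) (x : X) (hx : x ∉ closure V) :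
    ∃ c > 0, ∀ ε > 0, ∃ z ∈ V, c ≤ Ψ (x - z) ∧ c ≤ ‖fderiv ℝ Ψ (x - z)‖ ∧
      ∀ u ∈ V, |fderiv ℝ Ψ (x - z) u| ≤ ε * ‖u‖ := by
  have ha := h.a_pos
  have hc := LedBasic.continuous h hn
  obtain ⟨d, hd0, hd⟩ : ∃ d > 0, ∀ z ∈ closure V, d ≤ ‖x - z‖ := by
    rw [Metric.mem_closure_iff] at hx
    push Not at hx
    obtain ⟨d, hd0, hd⟩ := hx
    refine ⟨d, hd0, fun z hz => ?_⟩
    obtain ⟨v, hvV, hv⟩ := mem_closure_iff_seq_limit.1 hz
    have h1 : Tendsto (fun n => ‖x - v n‖) atTop (𝓝 ‖x - z‖) :=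
      (tendsto_const_nhds.sub hv).norm
    refine ge_of_tendsto h1 (Eventually.of_forall fun n => ?_)
    rw [← dist_eq_norm]
    exact hd (v n) (hvV n)
  refine ⟨min (a * d ^ 2) (2 * a * d), lt_min (by positivity) (by positivity), ?_⟩
  intro ε hε
  obtain ⟨z₀, hz₀, -, hmin⟩ := Full.Detect.ekeland_closure hV (fun z => Ψ (x - z))
    (hc.comp (by fun_prop)) 0 (by
      intro y
      exact le_trans (by positivity) (h.lower (x - y))) (ε / 2) (by positivity)
  have hne : x - z₀ ≠ 0 := by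
    intro h0
    have := hd z₀ hz₀
    rw [h0, norm_zero] at this
    linarith
  have hder : HasFDerivAt (fun z => Ψ (x - z)) (-(fderiv ℝ Ψ (x - z₀))) z₀ := by
    have h1 : HasFDerivAt (fun z : X => x - z) (-(ContinuousLinearMap.id ℝ X)) z₀ :=
      (hasFDerivAt_id z₀).const_sub x
    have h2 := (LedBasic.hasFDerivAt h hn (x - z₀)).comp z₀ h1
    refine h2.congr_fderiv ?_
    ext u
    simp
  have habs : ∀ u ∈ closure V, |fderiv ℝ Ψ (x - z₀) u| ≤ ε / 2 * ‖u‖ := by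
    intro u hu
    have := approx_min hV hder hz₀ hmin hu
    rwa [neg_apply, abs_neg] at this
  have hcont := continuousAt_fderiv h hn hne
  obtain ⟨v, hvV, hv⟩ := mem_closure_iff_seq_limit.1 hz₀
  have hv2 : Tendsto (fun n => fderiv ℝ Ψ (x - v n)) atTop (𝓝 (fderiv ℝ Ψ (x - z₀))) :=
    hcont.tendsto.comp (tendsto_const_nhds.sub hv)
  have e2 : ∀ᶠ n in atTop, ‖fderiv ℝ Ψ (x - v n) - fderiv ℝ Ψ (x - z₀)‖ < ε / 2 := by
    have h1 := (hv2.sub_const (fderiv ℝ Ψ (x - z₀))).norm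
    rw [sub_self, norm_zero] at h1
    exact h1.eventually (gt_mem_nhds (by positivity))
  obtain ⟨m, hm⟩ := e2.exists
  have hdm := hd (v m) (subset_closure (hvV m))
  have hlow := h.lower (x - v m)
  refine ⟨v m, hvV m, ?_, ?_, fun u hu => ?_⟩
  · refine (min_le_left _ _).trans (le_trans ?_ hlow)
    gcongr
  · refine (min_le_right _ _).trans ?_
    have hne' : x - v m ≠ 0 := by
      intro h0
      rw [h0, norm_zero] at hdm
      linarith
    have h1 := h.euler (x - v m) hne'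
    have h2 := (fderiv ℝ Ψ (x - v m)).le_opNorm (x - v m)
    rw [h1, Real.norm_eq_abs] at h2
    have h3 := le_abs_self (2 * Ψ (x - v m))
    have h4 : 0 < ‖x - v m‖ := norm_pos_iff.2 hne'
    have h5 : (2 * a * ‖x - v m‖) * ‖x - v m‖ ≤ ‖fderiv ℝ Ψ (x - v m)‖ * ‖x - v m‖ := by
      nlinarith
    have h6 := le_of_mul_le_mul_right h5 h4
    calc 2 * a * d ≤ 2 * a * ‖x - v m‖ := by gcongr
      _ ≤ _ := h6
  · have h1 := habs u (subset_closure hu)
    have h2 := (fderiv ℝ Ψ (x - v m) - fderiv ℝ Ψ (x - z₀)).le_opNorm u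
    rw [Real.norm_eq_abs] at h2
    have h3 : fderiv ℝ Ψ (x - v m) u =
        (fderiv ℝ Ψ (x - v m) - fderiv ℝ Ψ (x - z₀)) u + fderiv ℝ Ψ (x - z₀) u := by
      simp
    rw [h3]
    have h4 := mul_le_mul_of_nonneg_right hm.le (norm_nonneg u)
    calc _ ≤ |(fderiv ℝ Ψ (x - v m) - fderiv ℝ Ψ (x - z₀)) u| + |fderiv ℝ Ψ (x - z₀) u| :=
          abs_add_le _ _
      _ ≤ ε * ‖u‖ := by linarith

end Pool.Agent.Helper74.Apx
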