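import Pool.Agent.Helper74.Apx.Defs

/-!
Bump functions and cutoffs from a square-gauge (A5, second part).
-/

set_option autoImplicit false

open scoped Topology
open Filter Set

namespace Pool.Agent.Helper74.Apx

variable {X : Type*} [NormedAddCommGroup X] [NormedSpace ℝ X] {n : WithTop ℕ∞} {Ψ : X → ℝ}
  {a A : ℝ}

namespace LedBump

theorem smoothTransition_contDiff {n : WithTop ℕ∞} (hn : n ≤ ((⊤ : ℕ∞) : WithTop ℕ∞)) :
    ContDiff ℝ n Real.smoothTransition :=
  (Real.smoothTransition.contDiff (n := ⊤)).of_le hn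

theorem contDiffAt (h : Led n Ψ a A) {x : X} (hx : x ≠ 0) : ContDiffAt ℝ n Ψ x :=
  h.smooth.contDiffAt (isOpen_ne.mem_nhds hx)

/-- `Ψ` is small near `0`. -/
theorem small (h : Led n Ψ a A) {c : ℝ} (hc : 0 < c) :
    ∃ ρ > 0, ∀ x : X, ‖x‖ < ρ → Ψ x ≤ c := by
  set M : ℝ := max A 1 with hM
  have hM1 : 1 ≤ M := le_max_right _ _
  refine ⟨min 1 (c / M), lt_min one_pos (by positivity), ?_⟩
  intro x hx
  have h1 : ‖x‖ < 1 := hx.trans_le (min_le_left _ _)
  have h2 : ‖x‖ < c / M := hx.trans_le (min_le_right _ _)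
  rw [lt_div_iff₀ (by positivity)] at h2
  calc Ψ x ≤ A * ‖x‖ ^ 2 := h.upper x
    _ ≤ M * ‖x‖ ^ 2 := by gcongr; exact le_max_left _ _
    _ ≤ M * ‖x‖ := by
        gcongr
        nlinarith [norm_nonneg x]
    _ ≤ c := by linarith

end LedBump

open LedBump

theorem Led.ball (h : Led n Ψ a A) (hn : n ≤ ((⊤ : ℕ∞) : WithTop ℕ∞)) (ε : ℝ) (hε : 0 < ε) :
    ∃ ρ > 0, ∀ v : X, ∃ β : X → ℝ, ContDiff ℝ n β ∧ (∀ x, 0 ≤ β x) ∧
      (∀ y, ‖y - v‖ < ρ → β y ≠ 0) ∧ ∀ y y', β y ≠ 0 → β y' ≠ 0 → ‖y - y'‖ ≤ ε := by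
  have ha := h.a_pos
  set τ : ℝ := a * ε ^ 2 / 8 with hτ
  have hτ0 : 0 < τ := by positivity
  obtain ⟨ρ, hρ, hρ2⟩ := small h hτ0
  refine ⟨ρ, hρ, fun v => ⟨fun y => Real.smoothTransition (2 - Ψ (y - v) / τ), ?_, ?_, ?_, ?_⟩⟩
  · rw [contDiff_iff_contDiffAt]
    intro y
    by_cases hy : y = v
    · subst hy
      have h1 : (fun z => Real.smoothTransition (2 - Ψ (z - y) / τ)) =ᶠ[𝓝 y] fun _ => 1 := by
        filter_upwards [Metric.ball_mem_nhds y hρ] with z hz
        rw [mem_ball_iff_norm] at hz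
        have h2 := hρ2 (z - y) hz
        apply Real.smoothTransition.one_of_one_le
        have h3 : Ψ (z - y) / τ ≤ 1 := by rw [div_le_one hτ0]; exact h2
        linarith
      exact contDiffAt_const.congr_of_eventuallyEq h1
    · have h1 : ContDiffAt ℝ n (fun z => Ψ (z - v)) y :=
        (contDiffAt h (sub_ne_zero.2 hy)).comp y (contDiffAt_id.sub contDiffAt_const)
      exact (smoothTransition_contDiff hn).contDiffAt.comp y
        (contDiffAt_const.sub (h1.div_const τ))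
  · intro x
    exact Real.smoothTransition.nonneg _
  · intro y hy
    have h2 := hρ2 (y - v) hy
    apply ne_of_gt
    apply Real.smoothTransition.pos_of_pos
    have h3 : Ψ (y - v) / τ ≤ 1 := by rw [div_le_one hτ0]; exact h2
    linarith
  · have key : ∀ y, Real.smoothTransition (2 - Ψ (y - v) / τ) ≠ 0 → ‖y - v‖ ≤ ε / 2 := by
      intro y hy
      have h1 : 0 < 2 - Ψ (y - v) / τ := by
        by_contra hcon
        exact hy (Real.smoothTransition.zero_of_nonpos (not_lt.1 hcon))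
      have h2 : Ψ (y - v) / τ < 2 := by linarith
      rw [div_lt_iff₀ hτ0] at h2
      have h3 := h.lower (y - v)
      have h4 : a * ‖y - v‖ ^ 2 < a * (ε / 2) ^ 2 := by
        calc a * ‖y - v‖ ^ 2 ≤ Ψ (y - v) := h3
          _ < 2 * τ := h2
          _ = a * (ε / 2) ^ 2 := by rw [hτ]; ring
      have h5 := lt_of_mul_lt_mul_left h4 ha.le
      exact (lt_of_pow_lt_pow_left₀ 2 (by positivity) h5).le
    intro y y' hy hy'
    calc ‖y - y'‖ = ‖(y - v) - (y' - v)‖ := by congr 1; abel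
      _ ≤ ‖y - v‖ + ‖y' - v‖ := norm_sub_le _ _
      _ ≤ ε := by linarith [key y hy, key y' hy']

theorem Led.cutoff {k : WithTop ℕ∞} (h : Led (k + 1) Ψ a A)
    (hk : k ≤ ((⊤ : ℕ∞) : WithTop ℕ∞)) (r : ℝ) (hr : 0 < r) :
    ∃ σ : ℝ → ℝ, (∀ t, 0 ≤ σ t) ∧ (∀ t, r < t → σ t ≠ 0) ∧
      ContDiff ℝ k (fun x => σ (Ψ x) • fderiv ℝ Ψ x) := by
  refine ⟨fun t => Real.smoothTransition (2 * t / r - 1), fun t => Real.smoothTransition.nonneg _,
    ?_, ?_⟩
  · intro t ht
    apply ne_of_gt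
    apply Real.smoothTransition.pos_of_pos
    have : 1 < 2 * t / r := by
      rw [lt_div_iff₀ hr]
      linarith
    linarith
  · rw [contDiff_iff_contDiffAt]
    intro x
    by_cases hx : x = 0
    · subst hx
      obtain ⟨ρ, hρ, hρ2⟩ := small h (half_pos hr)
      have h1 : (fun x => Real.smoothTransition (2 * Ψ x / r - 1) • fderiv ℝ Ψ x) =ᶠ[𝓝 0]
          fun _ => 0 := by
        filter_upwards [Metric.ball_mem_nhds (0 : X) hρ] with z hz
        rw [mem_ball_zero_iff] at hz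
        have h2 := hρ2 z hz
        rw [Real.smoothTransition.zero_of_nonpos, zero_smul]
        have : 2 * Ψ z / r ≤ 1 := by
          rw [div_le_one hr]
          linarith
        linarith
      exact contDiffAt_const.congr_of_eventuallyEq h1
    · have h1 := contDiffAt h hx
      have h2 : ContDiffAt ℝ k (fderiv ℝ Ψ) x := h1.fderiv_right le_rfl
      have h3 : ContDiffAt ℝ k Ψ x := h1.of_le le_self_add
      have h4 : ContDiffAt ℝ k (fun x => Real.smoothTransition (2 * Ψ x / r - 1)) x :=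
        (smoothTransition_contDiff hk).contDiffAt.comp x
          (((contDiffAt_const.mul h3).div_const r).sub contDiffAt_const)
      exact h4.smul h2

end Pool.Agent.Helper74.Apx
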