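import Pool.Agent.Helper74.Apx.Defs

/-!
# Rich sets are the closed sets of a finitary operation
-/

set_option autoImplicit false

open scoped Topology
open Filter Set

namespace Pool.Agent.Helper74.Apx

namespace GenAux

variable {X : Type*} [NormedAddCommGroup X] [NormedSpace ℝ X]

open Classical in
/-- a vector showing that `φ` is not bounded by `C` -/
noncomputable def pick (φ : X →L[ℝ] ℝ) (C : ℚ) : X :=
  if h : 0 ≤ C ∧ ∃ u, (C : ℝ) * ‖u‖ < φ u then h.2.choose else 0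

theorem pick_zero (C : ℚ) : pick (0 : X →L[ℝ] ℝ) C = 0 := by
  classical
  unfold pick
  rw [dif_neg]
  rintro ⟨h0, u, hu⟩
  have h1 : (0 : ℝ) ≤ (C : ℝ) * ‖u‖ := by
    have : (0 : ℝ) ≤ (C : ℝ) := by exact_mod_cast h0
    positivity
  rw [ContinuousLinearMap.zero_apply] at hu
  linarith

theorem pick_spec {φ : X →L[ℝ] ℝ} {C : ℚ} (h0 : 0 ≤ C) (h : ∃ u, (C : ℝ) * ‖u‖ < φ u) :
    (C : ℝ) * ‖pick φ C‖ < φ (pick φ C) := by
  classical
  have hh : 0 ≤ C ∧ ∃ u, (C : ℝ) * ‖u‖ < φ u := ⟨h0, h⟩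
  unfold pick
  rw [dif_pos hh]
  exact hh.2.choose_spec

/-- the operation -/
def gen (D : X → (X →L[ℝ] ℝ)) (F : Finset X) : Set X :=
  (({0} ∪ {z | ∃ x ∈ F, ∃ y ∈ F, z = x + y}) ∪ {z | ∃ x ∈ F, ∃ c : ℚ, z = (c : ℝ) • x}) ∪
    {z | ∃ (r : X → ℚ) (C : ℚ), z = pick (∑ v ∈ F, (r v : ℝ) • D v) C}

theorem gen_countable (D : X → (X →L[ℝ] ℝ)) (F : Finset X) : (gen D F).Countable := by
  unfold gen
  refine (((countable_singleton _).union ?_).union ?_).union ?_
  · have : {z : X | ∃ x ∈ F, ∃ y ∈ F, z = x + y}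
        = ⋃ x ∈ (↑F : Set X), ⋃ y ∈ (↑F : Set X), {x + y} := by
      ext z; simp
    rw [this]
    exact F.countable_toSet.biUnion fun x _ => F.countable_toSet.biUnion fun y _ =>
      countable_singleton _
  · have : {z : X | ∃ x ∈ F, ∃ c : ℚ, z = (c : ℝ) • x}
        = ⋃ x ∈ (↑F : Set X), range fun c : ℚ => (c : ℝ) • x := by
      ext z; simp [eq_comm]
    rw [this]
    exact F.countable_toSet.biUnion fun x _ => countable_range _
  · have : {z : X | ∃ (r : X → ℚ) (C : ℚ), z = pick (∑ v ∈ F, (r v : ℝ) • D v) C}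
        ⊆ range fun s : (F → ℚ) × ℚ => pick (∑ v : F, (s.1 v : ℝ) • D v) s.2 := by
      rintro z ⟨r, C, rfl⟩
      refine ⟨(fun v => r v, C), ?_⟩
      simp only
      rw [← Finset.sum_coe_sort F fun v => (r v : ℝ) • D v]
    exact (countable_range _).mono this

theorem gen_zero (D : X → (X →L[ℝ] ℝ)) (hD0 : D 0 = 0) (F : Finset X)
    (hF : (↑F : Set X) ⊆ {0}) : gen D F ⊆ {0} := by
  have hF' : ∀ x ∈ F, x = 0 := fun x hx => hF hx
  rintro z (((hz | ⟨x, hx, y, hy, rfl⟩) | ⟨x, hx, c, rfl⟩) | ⟨r, C, rfl⟩)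
  · exact hz
  · rw [hF' x hx, hF' y hy, add_zero]; exact mem_singleton 0
  · rw [hF' x hx, smul_zero]; exact mem_singleton 0
  · have : ∑ v ∈ F, (r v : ℝ) • D v = 0 := by
      refine Finset.sum_eq_zero fun v hv => ?_
      rw [hF' v hv, hD0, smul_zero]
    rw [this, pick_zero]
    exact mem_singleton 0

theorem rich_of_gen (D : X → (X →L[ℝ] ℝ)) (A : Set X)
    (hA : ∀ F : Finset X, (↑F : Set X) ⊆ A → gen D F ⊆ A) : Rich D A := by
  classical
  refine ⟨⟨?_, ?_, ?_⟩, ?_⟩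
  · refine hA ∅ (by simp) ?_
    exact Or.inl (Or.inl (Or.inl (mem_singleton 0)))
  · intro x hx y hy
    refine hA {x, y} ?_ ?_
    · intro z hz
      rw [Finset.coe_pair] at hz
      rcases hz with rfl | hz
      · exact hx
      · rw [mem_singleton_iff] at hz; rw [hz]; exact hy
    · exact Or.inl (Or.inl (Or.inr ⟨x, by simp, y, by simp, rfl⟩))
  · intro c x hx
    refine hA {x} ?_ ?_
    · intro z hz
      rw [Finset.coe_singleton, mem_singleton_iff] at hz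
      rw [hz]; exact hx
    · exact Or.inl (Or.inr ⟨x, by simp, c, rfl⟩)
  · intro F r hF C hC0 h u
    by_contra hu
    push Not at hu
    set φ : X →L[ℝ] ℝ := ∑ v ∈ F, (r v : ℝ) • D v with hφ
    have hu0 : u ≠ 0 := by
      rintro rfl
      rw [norm_zero, mul_zero, map_zero] at hu
      exact lt_irrefl _ hu
    have hun : 0 < ‖u‖ := norm_pos_iff.mpr hu0
    have h1 : C < φ u / ‖u‖ := by rw [lt_div_iff₀ hun]; exact hu
    obtain ⟨C', hC1, hC2⟩ := exists_rat_btwn h1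
    have hC'0 : 0 ≤ C' := by
      have : (0 : ℝ) ≤ (C' : ℝ) := by linarith
      exact_mod_cast this
    have hex : ∃ u, (C' : ℝ) * ‖u‖ < φ u := by
      refine ⟨u, ?_⟩
      rw [lt_div_iff₀ hun] at hC2
      exact hC2
    have h2 := pick_spec hC'0 hex
    have h3 : pick φ C' ∈ A := hA F hF (Or.inr ⟨r, C', rfl⟩)
    have h4 := h _ h3
    have h5 : C * ‖pick φ C'‖ ≤ (C' : ℝ) * ‖pick φ C'‖ :=
      mul_le_mul_of_nonneg_right hC1.le (norm_nonneg _)
    linarith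

end GenAux

section A7

variable {X : Type*} [NormedAddCommGroup X] [NormedSpace ℝ X]

theorem exists_gen (D : X → (X →L[ℝ] ℝ)) (hD0 : D 0 = 0) : ∃ gen : Finset X → Set X,
    (∀ F, (gen F).Countable) ∧ (∀ F : Finset X, (↑F : Set X) ⊆ {0} → gen F ⊆ {0}) ∧
    ∀ A : Set X, (∀ F : Finset X, (↑F : Set X) ⊆ A → gen F ⊆ A) → Rich D A :=
  ⟨GenAux.gen D, GenAux.gen_countable D, GenAux.gen_zero D hD0, GenAux.rich_of_gen D⟩

end A7

end Pool.Agent.Helper74.Apx
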