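import Pool.Agent.Helper74.Apx.Defs

/-!
I-10: systems of coordinates for countable sets.
-/

set_option autoImplicit false

open scoped Topology
open Filter Set

namespace Pool.Agent.Helper74.Apx

universe u

namespace SysBase

section
variable {X : Type*} [NormedAddCommGroup X] [NormedSpace ℝ X]

/-- rational combinations of the functionals `D v`, `v ∈ A` -/
noncomputable def comb (D : X → (X →L[ℝ] ℝ)) (A : Set X) (r : A →₀ ℚ) : X →L[ℝ] ℝ :=
  r.sum fun v q => (q : ℝ) • D v

variable {D : X → (X →L[ℝ] ℝ)} {A : Set X}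

theorem comb_zero : comb D A 0 = 0 := by
  simp [comb]

theorem comb_add (r s : A →₀ ℚ) : comb D A (r + s) = comb D A r + comb D A s := by
  classical
  unfold comb
  apply Finsupp.sum_add_index'
  · intro v; simp
  · intro v p q; push_cast; rw [add_smul]

theorem comb_smul (c : ℚ) (r : A →₀ ℚ) : comb D A (c • r) = (c : ℝ) • comb D A r := by
  unfold comb
  rw [Finsupp.sum_smul_index' (fun v => by simp), Finsupp.smul_sum]
  apply Finsupp.sum_congr
  intro v _
  rw [smul_eq_mul]
  push_cast
  rw [mul_smul]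

theorem comb_single (v : A) : comb D A (Finsupp.single v 1) = D v := by
  unfold comb
  rw [Finsupp.sum_single_index (by simp)]
  simp

theorem span_approx {ψ : X →L[ℝ] ℝ} (hψ : ψ ∈ Submodule.span ℝ (D '' A)) :
    ∀ ε > (0 : ℝ), ∃ r : A →₀ ℚ, ‖ψ - comb D A r‖ ≤ ε := by
  induction hψ using Submodule.span_induction with
  | mem x hx =>
    intro ε hε
    obtain ⟨v, hv, rfl⟩ := hx
    refine ⟨Finsupp.single ⟨v, hv⟩ 1, ?_⟩
    rw [comb_single]
    simpa using hε.le
  | zero =>
    intro ε hε
    refine ⟨0, ?_⟩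
    rw [comb_zero]
    simpa using hε.le
  | add x y _ _ hx hy =>
    intro ε hε
    obtain ⟨r, hr⟩ := hx (ε / 2) (half_pos hε)
    obtain ⟨s, hs⟩ := hy (ε / 2) (half_pos hε)
    refine ⟨r + s, ?_⟩
    rw [comb_add]
    calc ‖x + y - (comb D A r + comb D A s)‖ = ‖(x - comb D A r) + (y - comb D A s)‖ := by
          congr 1; abel
      _ ≤ ‖x - comb D A r‖ + ‖y - comb D A s‖ := norm_add_le _ _
      _ ≤ ε := by linarith
  | smul c x _ hx =>
    intro ε hε
    obtain ⟨r, hr⟩ := hx (ε / (2 * (|c| + 1))) (by positivity)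
    have h1 : ∀ᶠ c' : ℝ in 𝓝 c, ‖c • comb D A r - c' • comb D A r‖ < ε / 2 := by
      have hcont : Continuous fun c' : ℝ => ‖c • comb D A r - c' • comb D A r‖ := by fun_prop
      have := hcont.tendsto c
      simp only [sub_self, norm_zero] at this
      exact this.eventually (gt_mem_nhds (half_pos hε))
    have h2 : DenseRange ((↑) : ℚ → ℝ) := Rat.denseRange_cast
    obtain ⟨q, hq⟩ := h2.exists_mem_open isOpen_interior
      (show (interior {c' : ℝ | ‖c • comb D A r - c' • comb D A r‖ < ε / 2}).Nonempty from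
        ⟨c, mem_interior_iff_mem_nhds.2 h1⟩)
    have hq' := interior_subset hq
    refine ⟨q • r, ?_⟩
    rw [comb_smul]
    calc ‖c • x - (q : ℝ) • comb D A r‖
        = ‖c • (x - comb D A r) + (c • comb D A r - (q : ℝ) • comb D A r)‖ := by
          congr 1; rw [smul_sub]; abel
      _ ≤ ‖c • (x - comb D A r)‖ + ‖c • comb D A r - (q : ℝ) • comb D A r‖ := norm_add_le _ _
      _ ≤ |c| * (ε / (2 * (|c| + 1))) + ε / 2 := by
          rw [norm_smul, Real.norm_eq_abs]
          have : ‖c • comb D A r - (q : ℝ) • comb D A r‖ < ε / 2 := hq'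
          gcongr
      _ ≤ ε := by
          have h3 : |c| * (ε / (2 * (|c| + 1))) ≤ ε / 2 := by
            rw [mul_div_assoc', div_le_div_iff₀ (by positivity) (by norm_num)]
            nlinarith [abs_nonneg c]
          linarith

theorem EA_approx {φ : X →L[ℝ] ℝ} (hφ : φ ∈ EA D A) (ε : ℝ) (hε : 0 < ε) :
    ∃ r : A →₀ ℚ, ‖φ - comb D A r‖ ≤ ε := by
  have h : φ ∈ closure ((Submodule.span ℝ (D '' A) : Submodule ℝ (X →L[ℝ] ℝ)) :
      Set (X →L[ℝ] ℝ)) := by
    rw [← Submodule.topologicalClosure_coe]; exact hφ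
  rw [Metric.mem_closure_iff] at h
  obtain ⟨ψ, hψ, hd⟩ := h (ε / 2) (half_pos hε)
  obtain ⟨r, hr⟩ := span_approx hψ (ε / 2) (half_pos hε)
  refine ⟨r, ?_⟩
  rw [dist_eq_norm] at hd
  calc ‖φ - comb D A r‖ = ‖(φ - ψ) + (ψ - comb D A r)‖ := by congr 1; abel
    _ ≤ ‖φ - ψ‖ + ‖ψ - comb D A r‖ := norm_add_le _ _
    _ ≤ ε := by linarith

theorem nrm_comb (hA : Rich D A) (r : A →₀ ℚ) : Nrm A (comb D A r) := by
  classical
  have h := hA.2 (r.support.map ⟨Subtype.val, Subtype.val_injective⟩)
    (fun v => if h : v ∈ A then r ⟨v, h⟩ else 0) (by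
      intro v hv
      simp only [Finset.coe_map, Function.Embedding.coeFn_mk, Set.mem_image] at hv
      obtain ⟨w, -, rfl⟩ := hv
      exact w.2)
  have e : (∑ v ∈ r.support.map ⟨Subtype.val, Subtype.val_injective⟩,
      (((if h : v ∈ A then r ⟨v, h⟩ else 0 : ℚ)) : ℝ) • D v) = comb D A r := by
    rw [Finset.sum_map]
    unfold comb Finsupp.sum
    apply Finset.sum_congr rfl
    intro v _
    simp
  rw [e] at h
  exact h

/-- a functional in `EA D A` which vanishes on `A` is zero -/
theorem eq_zero (hA : Rich D A) {φ : X →L[ℝ] ℝ} (hφ : φ ∈ EA D A) (h : ∀ u ∈ A, φ u = 0) :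
    φ = 0 := by
  have key : ∀ u, φ u ≤ 0 := by
    intro u
    refine le_of_forall_pos_le_add ?_
    intro δ hδ
    obtain ⟨r, hr⟩ := EA_approx hφ (δ / (2 * (‖u‖ + 1))) (by positivity)
    set η := δ / (2 * (‖u‖ + 1)) with hη
    have hη0 : 0 < η := by positivity
    have hle : ∀ v, |φ v - comb D A r v| ≤ η * ‖v‖ := by
      intro v
      have h1 := (φ - comb D A r).le_opNorm v
      rw [Real.norm_eq_abs] at h1
      calc |φ v - comb D A r v| = |(φ - comb D A r) v| := by simp
        _ ≤ ‖φ - comb D A r‖ * ‖v‖ := h1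
        _ ≤ η * ‖v‖ := by gcongr
    have h2 := nrm_comb hA r η hη0.le (fun v hv => by
      have h3 := (abs_le.mp (hle v)).1
      rw [h v hv] at h3
      linarith) u
    have h4 := (abs_le.mp (hle u)).2
    have h5 : 2 * η * ‖u‖ ≤ δ := by
      have : 2 * η * ‖u‖ = δ * (‖u‖ / (‖u‖ + 1)) := by
        rw [hη]; field_simp
      rw [this]
      have h6 : ‖u‖ / (‖u‖ + 1) ≤ 1 := by
        rw [div_le_one (by positivity)]
        linarith
      nlinarith
    linarith
  ext u
  have h1 := key u
  have h2 := key (-u)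
  rw [map_neg] at h2
  simp only [zero_apply]
  linarith

end

end SysBase

open SysBase

theorem hasSys_countable {X : Type u} [NormedAddCommGroup X] [NormedSpace ℝ X]
    {D : X → (X →L[ℝ] ℝ)} {A : Set X} (hA : Rich D A) (hc : A.Countable) : HasSys D A := by
  classical
  obtain ⟨a, ha⟩ := hc.exists_eq_range ⟨0, hA.1.zero⟩
  have : Countable A := hc.to_subtype
  set c : ℕ → ℝ := fun j => (1 / 2) ^ j / (1 + ‖a j‖) with hcdef
  have hc0 : ∀ j, 0 < c j := fun j => by positivity
  have hcn : ∀ j (φ : X →L[ℝ] ℝ), |c j * φ (a j)| ≤ (1 / 2) ^ j * ‖φ‖ := by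
    intro j φ
    rw [abs_mul, abs_of_pos (hc0 j)]
    have h1 := φ.le_opNorm (a j)
    rw [Real.norm_eq_abs] at h1
    calc c j * |φ (a j)| ≤ c j * (‖φ‖ * ‖a j‖) := by
          exact mul_le_mul_of_nonneg_left h1 (hc0 j).le
      _ = (1 / 2) ^ j * ‖φ‖ * (‖a j‖ / (1 + ‖a j‖)) := by
          simp only [hcdef]; ring
      _ ≤ (1 / 2) ^ j * ‖φ‖ * 1 := by
          apply mul_le_mul_of_nonneg_left _ (by positivity)
          rw [div_le_one (by positivity)]
          linarith
      _ = (1 / 2) ^ j * ‖φ‖ := mul_one _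
  refine ⟨ULift.{u} ℕ, fun j => c j.down • ContinuousLinearMap.apply ℝ ℝ (a j.down),
    fun F => if F = ∅ then {0} else Set.range (comb D A), ?_, ?_, ?_, ?_, ?_, ?_⟩
  · intro j
    refine ContinuousLinearMap.opNorm_le_bound _ (by norm_num) ?_
    intro φ
    have h1 := hcn j.down φ
    have h2 : (1 / 2 : ℝ) ^ j.down ≤ 1 := pow_le_one₀ (by norm_num) (by norm_num)
    simp only [smul_apply, ContinuousLinearMap.apply_apply, smul_eq_mul,
      Real.norm_eq_abs]
    refine h1.trans ?_
    exact mul_le_mul_of_nonneg_right h2 (norm_nonneg _)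
  · intro φ q hq
    have h1 : Tendsto (fun j : ℕ => (1 / 2 : ℝ) ^ j * ‖φ‖) atTop (𝓝 0) := by
      have := (tendsto_pow_atTop_nhds_zero_of_lt_one (r := (1 / 2 : ℝ)) (by norm_num)
        (by norm_num)).mul_const ‖φ‖
      simpa using this
    obtain ⟨N, hN⟩ := (h1.eventually (gt_mem_nhds hq)).exists_forall_of_atTop
    have hfin : ((fun j : ℕ => (ULift.up.{u} j)) '' {j | j < N}).Finite :=
      (Set.finite_lt_nat N).image _
    refine hfin.subset ?_
    intro j hj
    refine ⟨j.down, ?_, rfl⟩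
    by_contra hlt
    have h2 := hN j.down (not_lt.mp hlt)
    have h3 := hcn j.down φ
    have h4 : q ≤ |c j.down * φ (a j.down)| := hj
    linarith
  · intro F
    dsimp only
    split_ifs
    · exact Set.countable_singleton _
    · exact Set.countable_range _
  · intro F G hFG
    dsimp only
    by_cases hG : G = ∅
    · have hF : F = ∅ := Finset.subset_empty.mp (hG ▸ hFG)
      rw [if_pos hF, if_pos hG]
    · rw [if_neg hG]
      split_ifs
      · rintro x rfl
        exact ⟨0, comb_zero⟩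
      · exact subset_rfl
  · simp
  · intro φ hφ ε hε
    by_cases h0 : φ = 0
    · refine ⟨∅, by simp, 0, by simp, ?_⟩
      rw [h0]; simpa using hε.le
    · have hex : ∃ j, φ (a j) ≠ 0 := by
        by_contra hno
        push Not at hno
        apply h0
        apply eq_zero hA hφ
        intro u hu
        rw [ha] at hu
        obtain ⟨j, rfl⟩ := hu
        exact hno j
      obtain ⟨j, hj⟩ := hex
      obtain ⟨r, hr⟩ := EA_approx hφ ε hε
      refine ⟨{ULift.up j}, ?_, comb D A r, ?_, hr⟩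
      · intro γ hγ
        rw [Finset.mem_singleton] at hγ
        subst hγ
        simp only [smul_apply, ContinuousLinearMap.apply_apply, smul_eq_mul]
        exact mul_ne_zero (hc0 j).ne' hj
      · dsimp only
        rw [if_neg (Finset.singleton_ne_empty _)]
        exact ⟨r, rfl⟩

end Pool.Agent.Helper74.Apx
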