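import Pool.Agent.Helper74.Apx.Defs

set_option autoImplicit false

open scoped Topology
open Filter Set

namespace Pool.Agent.Helper74.Apx

universe u

namespace SysStep

/-- the fibre over `a` of a finite set of pairs -/
noncomputable def part {J : Type*} {Γ : J → Type*} (F : Finset (Σ a, Γ a)) (a : J) : Finset (Γ a) :=
  F.preimage (Sigma.mk a) (sigma_mk_injective.injOn)

lemma mem_part {J : Type*} {Γ : J → Type*} (F : Finset (Σ a, Γ a)) (a : J) (γ : Γ a) :
    γ ∈ part F a ↔ (⟨a, γ⟩ : Σ a, Γ a) ∈ F := by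
  simp [part]

lemma part_mono {J : Type*} {Γ : J → Type*} {F G : Finset (Σ a, Γ a)} (h : F ⊆ G) (a : J) :
    part F a ⊆ part G a := by
  intro γ hγ
  rw [mem_part] at hγ ⊢
  exact h hγ

lemma part_empty_of_notMem {J : Type*} [DecidableEq J] {Γ : J → Type*} {F : Finset (Σ a, Γ a)}
    {a : J} (h : a ∉ F.image Sigma.fst) : part F a = ∅ := by
  apply Finset.eq_empty_of_forall_notMem
  intro γ hγ
  rw [mem_part] at hγ
  exact h (Finset.mem_image.2 ⟨_, hγ, rfl⟩)

end SysStep

open SysStep in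
theorem hasSys_step {X : Type u} [NormedAddCommGroup X] [NormedSpace ℝ X]
    {D : X → (X →L[ℝ] ℝ)} {J : Type u} {B : J → Set X} {T : Set X}
    (U : J → ((X →L[ℝ] ℝ) →L[ℝ] (X →L[ℝ] ℝ))) (hU : ∀ a φ, ‖U a φ‖ ≤ 2 * ‖φ‖)
    (hUB : ∀ a φ, U a φ ∈ EA D (B a))
    (hfin : ∀ φ, ∀ q > (0 : ℝ), {a | q ≤ ‖U a φ‖}.Finite)
    (hsum : ∀ φ ∈ EA D T, ∀ ε > 0, ∃ S : Finset J, ‖φ - ∑ a ∈ S, U a φ‖ ≤ ε)
    (hsys : ∀ a, HasSys D (B a)) : HasSys D T := by
  classical
  choose Γ e W he hfine hWc hWm hW0 hWd using hsys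
  have hbd : ∀ a γ φ, |e a γ φ| ≤ ‖φ‖ := by
    intro a γ φ
    have h1 := (e a γ).le_of_opNorm_le (he a γ) φ
    rwa [one_mul, Real.norm_eq_abs] at h1
  refine ⟨Σ a, Γ a, fun p => (1/2 : ℝ) • (e p.1 p.2).comp (U p.1),
    fun F => {w | ∃ v : J → (X →L[ℝ] ℝ), (∀ a, v a ∈ W a (part F a)) ∧
      w = ∑ a ∈ F.image Sigma.fst, v a}, ?_, ?_, ?_, ?_, ?_, ?_⟩
  · rintro ⟨a, γ⟩
    apply ContinuousLinearMap.opNorm_le_bound _ zero_le_one
    intro φ
    simp only [_root_.smul_apply, ContinuousLinearMap.comp_apply, smul_eq_mul,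
      Real.norm_eq_abs, abs_mul, abs_of_pos (by norm_num : (0:ℝ) < 1/2)]
    have h1 := hbd a γ (U a φ)
    have h2 := hU a φ
    linarith
  · intro φ q hq
    have hsub : {p : Σ a, Γ a | q ≤ |((1/2 : ℝ) • (e p.1 p.2).comp (U p.1)) φ|} ⊆
        ⋃ a ∈ {a | 2 * q ≤ ‖U a φ‖}, Sigma.mk a '' {γ | 2 * q ≤ |e a γ (U a φ)|} := by
      rintro ⟨a, γ⟩ hp
      simp only [_root_.smul_apply, ContinuousLinearMap.comp_apply, smul_eq_mul,
        abs_mul, abs_of_pos (by norm_num : (0:ℝ) < 1/2), mem_ofPred_eq] at hp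
      have h1 := hbd a γ (U a φ)
      simp only [mem_iUnion]
      refine ⟨a, ?_, γ, ?_, rfl⟩
      · show 2 * q ≤ ‖U a φ‖
        linarith
      · show 2 * q ≤ |e a γ (U a φ)|
        linarith
    refine Set.Finite.subset ?_ hsub
    exact (hfin φ (2 * q) (by linarith)).biUnion
      (fun a _ => (hfine a (U a φ) (2 * q) (by linarith)).image _)
  · intro F
    have hcount : (Set.pi (univ : Set (F.image Sigma.fst : Finset J))
        (fun a => W a.1 (part F a.1))).Countable :=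
      Set.countable_univ_pi (fun a => hWc a.1 (part F a.1))
    refine (hcount.image (fun v => ∑ a, v a)).mono ?_
    rintro w ⟨v, hv, rfl⟩
    refine ⟨fun a => v a.1, fun a _ => hv a.1, ?_⟩
    simp only
    rw [Finset.sum_coe_sort (F.image Sigma.fst) v]
  · rintro F G hFG w ⟨v, hv, rfl⟩
    refine ⟨v, fun a => hWm a _ _ (part_mono hFG a) (hv a), ?_⟩
    apply Finset.sum_subset (Finset.image_subset_image hFG)
    intro a _ ha
    have h1 := hv a
    rw [part_empty_of_notMem ha, hW0] at h1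
    exact h1
  · ext w
    constructor
    · rintro ⟨v, _, rfl⟩
      simp
    · intro hw
      rw [mem_singleton_iff] at hw
      refine ⟨fun _ => 0, fun a => ?_, by simp [hw]⟩
      apply hWm a ∅ _ (Finset.empty_subset _)
      rw [hW0]
      rfl
  · intro φ hφ ε hε
    obtain ⟨S, hS⟩ := hsum φ hφ (ε / 2) (by linarith)
    have hη : 0 < ε / (2 * ((S.card : ℝ) + 1)) := by positivity
    have hch : ∀ a, ∃ F : Finset (Γ a), (∀ γ ∈ F, e a γ (U a φ) ≠ 0) ∧
        ∃ w ∈ W a F, ‖U a φ - w‖ ≤ ε / (2 * ((S.card : ℝ) + 1)) :=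
      fun a => hWd a (U a φ) (hUB a φ) _ hη
    choose Fa hFa wa hwa hwn using hch
    refine ⟨S.sigma Fa, ?_, ∑ a ∈ S, wa a, ⟨fun a => if a ∈ S then wa a else 0, ?_, ?_⟩, ?_⟩
    · rintro ⟨a, γ⟩ hp
      rw [Finset.mem_sigma] at hp
      simp only [_root_.smul_apply, ContinuousLinearMap.comp_apply, smul_eq_mul]
      exact mul_ne_zero (by norm_num) (hFa a γ hp.2)
    · intro a
      simp only
      split_ifs with ha
      · have : part (S.sigma Fa) a = Fa a := by
          ext γ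
          rw [mem_part, Finset.mem_sigma]
          simp [ha]
        rw [this]
        exact hwa a
      · apply hWm a ∅ _ (Finset.empty_subset _)
        rw [hW0]
        rfl
    · have h1 : ∑ a ∈ S, wa a = ∑ a ∈ S, (if a ∈ S then wa a else 0) :=
        Finset.sum_congr rfl (fun a ha => by rw [if_pos ha])
      rw [h1]
      symm
      apply Finset.sum_subset
      · intro a ha
        obtain ⟨p, hp, rfl⟩ := Finset.mem_image.1 ha
        exact (Finset.mem_sigma.1 hp).1
      · intro a ha hna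
        rw [if_pos ha]
        have h2 : Fa a = ∅ := by
          apply Finset.eq_empty_of_forall_notMem
          intro γ hγ
          exact hna (Finset.mem_image.2 ⟨⟨a, γ⟩, Finset.mem_sigma.2 ⟨ha, hγ⟩, rfl⟩)
        have h3 := hwa a
        rw [h2, hW0] at h3
        exact h3
    · have h1 : φ - ∑ a ∈ S, wa a = (φ - ∑ a ∈ S, U a φ) + ∑ a ∈ S, (U a φ - wa a) := by
        rw [Finset.sum_sub_distrib]; abel
      have h2 : ‖∑ a ∈ S, (U a φ - wa a)‖ ≤ S.card • (ε / (2 * ((S.card : ℝ) + 1))) := by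
        refine (norm_sum_le _ _).trans ?_
        exact Finset.sum_le_card_nsmul S _ _ (fun a _ => hwn a)
      have h3 : (S.card : ℝ) * (ε / (2 * ((S.card : ℝ) + 1))) ≤ ε / 2 := by
        have hc : (0:ℝ) ≤ S.card := Nat.cast_nonneg _
        rw [mul_div_assoc', div_le_div_iff₀ (by positivity) (by norm_num)]
        nlinarith
      rw [nsmul_eq_mul] at h2
      rw [h1]
      refine (norm_add_le _ _).trans ?_
      linarith

end Pool.Agent.Helper74.Apx
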