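import Pool.Agent.Helper74.Apx.ClOp
import Pool.Agent.Helper74.Apx.Proj
import Pool.Agent.Helper74.Apx.Gen
import Pool.Agent.Helper74.Apx.SysBase
import Pool.Agent.Helper74.Apx.Blocks
import Pool.Agent.Helper74.Apx.SysStep

/-!
Every rich set has a system of coordinates: induction on the cardinality.
-/

set_option autoImplicit false

open scoped Topology
open Filter Set

namespace Pool.Agent.Helper74.Apx

universe u

namespace SysAll

variable {X : Type u} [NormedAddCommGroup X] [NormedSpace ℝ X] {D : X → (X →L[ℝ] ℝ)}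

/-- the main induction, for the sets which are closed under `gen` -/
theorem closed_hasSys (hD : Dens D) (hD0 : D 0 = 0) (gen : Finset X → Set X)
    (hgen : ∀ F, (gen F).Countable)
    (hgen0 : ∀ F : Finset X, (↑F : Set X) ⊆ {0} → gen F ⊆ {0})
    (hrich : ∀ A : Set X, (∀ F : Finset X, (↑F : Set X) ⊆ A → gen F ⊆ A) → Rich D A)
    (c : Cardinal.{u}) : ∀ A : Set X, (∀ F : Finset X, (↑F : Set X) ⊆ A → gen F ⊆ A) →
      Cardinal.mk A = c → HasSys D A := by
  induction c using WellFoundedLT.induction with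
  | _ c ih =>
    intro A hA hc
    by_cases hcount : c ≤ Cardinal.aleph0
    · refine hasSys_countable (hrich A hA) ?_
      rw [← Cardinal.le_aleph0_iff_set_countable, hc]
      exact hcount
    push Not at hcount
    have hinf : Cardinal.aleph0 ≤ c := hcount.le
    -- the well-ordered index type
    obtain ⟨g⟩ : Nonempty (c.ord.ToType ≃ A) := by
      rw [← Cardinal.eq, Cardinal.mk_ord_toType, hc]
    set J := c.ord.ToType with hJ
    have hmkJ : Cardinal.mk J = c := Cardinal.mk_ord_toType c
    have hIic : ∀ i : J, Cardinal.mk (Set.Iic i) < c := by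
      intro i
      have h0 : Cardinal.mk c.ord.ToType = c := Cardinal.mk_ord_toType c
      have h1 := Cardinal.mk_Iic_lt (α := c.ord.ToType) i
        (by rw [h0]; exact (Ordinal.type_toType c.ord).symm) (by rw [h0]; exact hinf)
      rwa [h0] at h1
    have hne : Nonempty J := by
      rw [← Cardinal.mk_ne_zero_iff, hmkJ]
      exact (lt_of_lt_of_le Cardinal.aleph0_pos hinf).ne'
    -- the chain of sets
    let SA : J → Set X := fun a => (fun b : J => (g b : X)) '' Set.Iio a
    let SB : J → Set X := fun a => (fun b : J => (g b : X)) '' Set.Iic a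
    let AA : J → Set X := fun a => Cl gen (SA a)
    let BB : J → Set X := fun a => Cl gen (SB a)
    have hclA : ∀ a, ∀ F : Finset X, (↑F : Set X) ⊆ AA a → gen F ⊆ AA a :=
      fun a F hF => gen_subset_Cl _ F hF
    have hclB : ∀ a, ∀ F : Finset X, (↑F : Set X) ⊆ BB a → gen F ⊆ BB a :=
      fun a F hF => gen_subset_Cl _ F hF
    have hRA : ∀ a, Rich D (AA a) := fun a => hrich _ (hclA a)
    have hRB : ∀ a, Rich D (BB a) := fun a => hrich _ (hclB a)
    have hRT : Rich D A := hrich _ hA
    have hAB : ∀ a, AA a ⊆ BB a := fun a => Cl_mono (Set.image_mono Set.Iio_subset_Iic_self)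
    have hBA : ∀ a b, b < a → BB b ⊆ AA a := by
      intro a b hba
      apply Cl_mono
      apply Set.image_mono
      intro x hx
      exact lt_of_le_of_lt hx hba
    have hBT : ∀ a, BB a ⊆ A := by
      intro a
      apply Cl_min _ hA
      rintro x ⟨b, -, rfl⟩
      exact (g b).2
    have hAlim : ∀ a, ∀ x ∈ AA a, x = 0 ∨ ∃ b < a, x ∈ BB b := by
      intro a x hx
      by_cases hemp : (Set.Iio a).Nonempty
      · right
        have : Nonempty (Set.Iio a) := hemp.to_subtype
        have hSA : SA a ⊆ ⋃ b : Set.Iio a, SB b.1 := by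
          rintro y ⟨b, hb, rfl⟩
          exact Set.mem_iUnion.2 ⟨⟨b, hb⟩, ⟨b, le_refl b, rfl⟩⟩
        have hdir : Directed (· ⊆ ·) (fun b : Set.Iio a => SB b.1) := by
          intro b c'
          refine ⟨⟨max b.1 c'.1, Set.mem_Iio.2 (max_lt b.2 c'.2)⟩, ?_, ?_⟩
          · exact Set.image_mono (Set.Iic_subset_Iic.2 (le_max_left _ _))
          · exact Set.image_mono (Set.Iic_subset_Iic.2 (le_max_right _ _))
        have hx' : x ∈ Cl gen (⋃ b : Set.Iio a, SB b.1) := Cl_mono hSA hx
        rw [Cl_directed _ hdir] at hx'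
        obtain ⟨b, hb⟩ := Set.mem_iUnion.1 hx'
        exact ⟨b.1, b.2, hb⟩
      · left
        rw [Set.not_nonempty_iff_eq_empty] at hemp
        have h0 : AA a ⊆ {0} := by
          apply Cl_min _ hgen0
          intro y hy
          simp only [SA, hemp, Set.image_empty, Set.mem_empty_iff_false] at hy
        exact h0 hx
    have hTlim : ∀ x ∈ A, ∃ a, x ∈ BB a := by
      intro x hx
      refine ⟨g.symm ⟨x, hx⟩, subset_Cl _ ?_⟩
      refine ⟨g.symm ⟨x, hx⟩, Set.mem_Iic.2 le_rfl, ?_⟩
      simp
    -- the projections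
    choose P hP using fun a => exists_proj hD (hRA a)
    choose Q hQ using fun a => exists_proj hD (hRB a)
    obtain ⟨R, hR⟩ := exists_proj hD hRT
    refine hasSys_step (J := J) (B := BB) (fun a => Q a - P a) ?_ ?_ ?_ ?_ ?_
    · intro a φ
      rw [sub_apply]
      have h1 := (hQ a).le φ
      have h2 := (hP a).le φ
      have h3 := norm_sub_le (Q a φ) (P a φ)
      linarith
    · intro a φ
      rw [sub_apply]
      exact Submodule.sub_mem _ ((hQ a).mem φ) (EA_mono (hAB a) ((hP a).mem φ))
    · intro φ q hq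
      exact blocks_finite hD0 hRA hRB hRT hP hQ hR hAB hBA hBT hAlim hTlim φ q hq
    · intro φ hφ ε hε
      exact blocks_sum hD0 hRA hRB hRT hP hQ hR hAB hBA hBT hAlim hTlim φ hφ ε hε
    · intro a
      refine ih (Cardinal.mk (BB a)) ?_ (BB a) (hclB a) rfl
      refine lt_of_le_of_lt (Cl_card hgen (SB a)) ?_
      refine max_lt ?_ hcount
      exact lt_of_le_of_lt Cardinal.mk_image_le (hIic a)

end SysAll

theorem hasSys_univ {X : Type u} [NormedAddCommGroup X] [NormedSpace ℝ X]
    {D : X → (X →L[ℝ] ℝ)} (hD : Dens D) (hD0 : D 0 = 0) : HasSys D (univ : Set X) := by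
  obtain ⟨gen, h1, h2, h3⟩ := exists_gen D hD0
  exact SysAll.closed_hasSys hD hD0 gen h1 h2 h3 _ univ (fun F _ => subset_univ _) rfl

end Pool.Agent.Helper74.Apx
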