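import Pool.Agent.Helper74.Apx.Defs
import Pool.Agent.Helper74.Apx.CovBasic
import Pool.Agent.Helper74.Apx.Cell
import Pool.Agent.Helper74.Apx.LedBasic
import Pool.Agent.Helper74.Apx.LedBump
import Pool.Agent.Helper74.Apx.SysAll
import Pool.Agent.Helper74.Apx.ExistsV

set_option autoImplicit false

open scoped Topology
open Filter Set

namespace Pool.Agent.Helper74.Apx

universe u

namespace CovUniv

open Classical in
/-- one step of the refinement of the state -/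
def St {X Γ : Type*} [NormedAddCommGroup X] [NormedSpace ℝ X] (e : Γ → ((X →L[ℝ] ℝ) →L[ℝ] ℝ))
    (V : Finset Γ → Set X) (H : ℕ → X → (X →L[ℝ] ℝ)) (x : X) (F G : Finset Γ) : Prop :=
  ∃ z ∈ V F, ∃ r : ℕ, ∃ q₁ q₂ : ℚ, 0 < q₁ ∧ q₁ < q₂ ∧
    (∀ γ ∈ G, (q₂ : ℝ) < |e γ (H r (x - z))|) ∧ (∀ γ ∉ G, |e γ (H r (x - z))| < (q₁ : ℝ))

open Classical in
/-- the points covered from the state `F` in `l` steps -/
def E {X Γ : Type*} [NormedAddCommGroup X] [NormedSpace ℝ X] (e : Γ → ((X →L[ℝ] ℝ) →L[ℝ] ℝ))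
    (V : Finset Γ → Set X) (H : ℕ → X → (X →L[ℝ] ℝ)) (ρ : ℝ) : ℕ → Finset Γ → Set X
  | 0, F => {x | ∃ v ∈ V F, ‖x - v‖ < ρ}
  | l + 1, F => {x | ∃ G, St e V H x F G ∧ x ∈ E e V H ρ l (F ∪ G)}

open Classical in
/-- the reachable states -/
inductive R {X Γ : Type*} [NormedAddCommGroup X] [NormedSpace ℝ X] (e : Γ → ((X →L[ℝ] ℝ) →L[ℝ] ℝ))
    (V : Finset Γ → Set X) (H : ℕ → X → (X →L[ℝ] ℝ)) (x : X) : Finset Γ → Prop
  | base : R e V H x ∅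
  | step (F G : Finset Γ) : R e V H x F → St e V H x F G → R e V H x (F ∪ G)

section

variable {X Γ : Type*} [NormedAddCommGroup X] [NormedSpace ℝ X] {e : Γ → ((X →L[ℝ] ℝ) →L[ℝ] ℝ)}
  {V : Finset Γ → Set X} {H : ℕ → X → (X →L[ℝ] ℝ)}

theorem St.mono (hV : ∀ F G, F ⊆ G → V F ⊆ V G) {x : X} {F F' G : Finset Γ} (h : St e V H x F G)
    (hF : F ⊆ F') : St e V H x F' G := by
  obtain ⟨z, hz, h⟩ := h
  exact ⟨z, hV F F' hF hz, h⟩

theorem R.back {ρ : ℝ} {x : X} {F : Finset Γ} (h : R e V H x F) :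
    ∀ l, x ∈ E e V H ρ l F → ∃ l', x ∈ E e V H ρ l' ∅ := by
  classical
  induction h with
  | base => exact fun l hl => ⟨l, hl⟩
  | step F G _ hs ih => exact fun l hl => ih (l + 1) ⟨G, hs, hl⟩

theorem R.dir (hV : ∀ F G, F ⊆ G → V F ⊆ V G) {x : X} {F F' : Finset Γ} (h : R e V H x F)
    (h' : R e V H x F') : ∃ F'', F ⊆ F'' ∧ F' ⊆ F'' ∧ R e V H x F'' := by
  classical
  induction h' with
  | base => exact ⟨F, Finset.Subset.refl _, Finset.empty_subset _, h⟩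
  | step F' G _ hs ih =>
    obtain ⟨F'', h1, h2, h3⟩ := ih
    refine ⟨F'' ∪ G, h1.trans Finset.subset_union_left, Finset.union_subset_union_left h2,
      R.step F'' G h3 (hs.mono hV h2)⟩

/-- the union of the sets attached to the reachable states -/
def S (e : Γ → ((X →L[ℝ] ℝ) →L[ℝ] ℝ)) (V : Finset Γ → Set X) (H : ℕ → X → (X →L[ℝ] ℝ)) (x : X) :
    Set X := {u | ∃ F, R e V H x F ∧ u ∈ V F}

theorem S_isQ (hV : ∀ F G, F ⊆ G → V F ⊆ V G) (hVq : ∀ F, Full.IsQ (V F)) (x : X) :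
    Full.IsQ (S e V H x) := by
  classical
  refine ⟨⟨∅, R.base, (hVq ∅).zero⟩, ?_, ?_⟩
  · rintro u ⟨F, hF, hu⟩ v ⟨F', hF', hv⟩
    obtain ⟨F'', h1, h2, h3⟩ := hF.dir hV hF'
    exact ⟨F'', h3, (hVq F'').add u (hV _ _ h1 hu) v (hV _ _ h2 hv)⟩
  · rintro c u ⟨F, hF, hu⟩
    exact ⟨F, hF, (hVq F).smul c u hu⟩

theorem S_nrm (hec : ∀ φ, ∀ q > (0 : ℝ), {γ | q ≤ |e γ φ|}.Finite)
    (hV : ∀ F G, F ⊆ G → V F ⊆ V G)
    (hVn : ∀ (φ : X →L[ℝ] ℝ) (S : Set X), (∀ F : Finset Γ, (∀ γ ∈ F, e γ φ ≠ 0) → V F ⊆ S) →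
        Nrm S φ) (x z : X) (hz : z ∈ S e V H x) (r : ℕ) : Nrm (S e V H x) (H r (x - z)) := by
  classical
  obtain ⟨F₁, hF₁, hz⟩ := hz
  refine hVn _ _ (fun F₀ hF₀ => ?_)
  obtain ⟨q, hq, hqF⟩ : ∃ q > (0 : ℝ), ∀ γ ∈ F₀, q ≤ |e γ (H r (x - z))| := by
    rcases F₀.eq_empty_or_nonempty with h0 | h0
    · exact ⟨1, one_pos, by simp [h0]⟩
    · obtain ⟨γ₀, hγ₀, hmin⟩ := F₀.exists_min_image (fun γ => |e γ (H r (x - z))|) h0
      exact ⟨_, abs_pos.2 (hF₀ γ₀ hγ₀), hmin⟩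
  obtain ⟨q₁, q₂, h1, h12, h2, hg⟩ := gap (fun γ => e γ (H r (x - z))) (hec _) q hq
  have hq2 : (0 : ℝ) < q₂ := by exact_mod_cast h1.trans h12
  have hfin : {γ | (q₂ : ℝ) < |e γ (H r (x - z))|}.Finite :=
    (hec (H r (x - z)) q₂ hq2).subset (fun γ hγ => by
      simp only [Set.mem_setOf_eq] at hγ ⊢
      exact hγ.le)
  have hst : St e V H x F₁ hfin.toFinset := by
    refine ⟨z, hz, r, q₁, q₂, h1, h12, ?_, ?_⟩
    · intro γ hγ
      rw [Set.Finite.mem_toFinset] at hγ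
      exact hγ
    · intro γ hγ
      rw [Set.Finite.mem_toFinset] at hγ
      exact (hg γ).resolve_right hγ
  intro u hu
  refine ⟨F₁ ∪ hfin.toFinset, R.step _ _ hF₁ hst, hV F₀ _ ?_ hu⟩
  intro γ hγ
  rw [Finset.mem_union, Set.Finite.mem_toFinset]
  exact Or.inr (h2.trans_le (hqF γ hγ))

end

theorem covE {X : Type u} {Γ : Type u} [NormedAddCommGroup X] [NormedSpace ℝ X] {k : WithTop ℕ∞}
    (hk : k ≤ ((⊤ : ℕ∞) : WithTop ℕ∞)) {e : Γ → ((X →L[ℝ] ℝ) →L[ℝ] ℝ)}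
    {V : Finset Γ → Set X} {H : ℕ → X → (X →L[ℝ] ℝ)} {ρ ε : ℝ}
    (he1 : ∀ γ, ‖e γ‖ ≤ 1) (hec : ∀ φ, ∀ q > (0 : ℝ), {γ | q ≤ |e γ φ|}.Finite)
    (hVc : ∀ F, (V F).Countable) (hH : ∀ r, ContDiff ℝ k (H r))
    (hρ : ∀ v : X, ∃ β : X → ℝ, ContDiff ℝ k β ∧ (∀ x, 0 ≤ β x) ∧
      (∀ y, ‖y - v‖ < ρ → β y ≠ 0) ∧ ∀ y y', β y ≠ 0 → β y' ≠ 0 → ‖y - y'‖ ≤ ε) (l : ℕ) :
    ∀ F, Cov k (E e V H ρ l F) ε := by
  classical
  have hle : ∀ γ (φ ψ : X →L[ℝ] ℝ), |e γ φ - e γ ψ| ≤ ‖φ - ψ‖ := by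
    intro γ φ ψ
    rw [← map_sub, ← Real.norm_eq_abs]
    refine ((e γ).le_opNorm _).trans ?_
    exact mul_le_of_le_one_left (norm_nonneg _) (he1 γ)
  induction l with
  | zero =>
    intro F
    have := (hVc F).to_subtype
    have h1 : Cov k (⋃ v : V F, {x : X | ‖x - v‖ < ρ}) ε := by
      refine Cov.iUnion (fun v => ?_)
      obtain ⟨β, hβ, hβ0, hβ1, hβ2⟩ := hρ v
      exact (Cov.single β hβ hβ0 hβ2).mono (fun x hx => hβ1 x hx)
    refine h1.mono ?_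
    rintro x ⟨v, hv, hxv⟩
    exact mem_iUnion.2 ⟨⟨v, hv⟩, hxv⟩
  | succ l ih =>
    intro F
    have := (hVc F).to_subtype
    have h1 : Cov k (⋃ i : V F × ℕ × {q : ℚ × ℚ // 0 < q.1 ∧ q.1 < q.2},
        {x : X | ∃ G, ((∀ γ ∈ G, ((i.2.2.1.2 : ℚ) : ℝ) < |e γ (H i.2.1 (x - i.1))|) ∧
          (∀ γ ∉ G, |e γ (H i.2.1 (x - i.1))| < ((i.2.2.1.1 : ℚ) : ℝ))) ∧
          x ∈ E e V H ρ l (F ∪ G)}) ε := by
      refine Cov.iUnion ?_
      rintro ⟨z, r, ⟨⟨q₁, q₂⟩, h1, h12⟩⟩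
      simp only at h1 h12 ⊢
      have h1' : (0 : ℝ) < q₁ := by exact_mod_cast h1
      have h12' : (q₁ : ℝ) < q₂ := by exact_mod_cast h12
      have hcont : Continuous (fun x : X => H r (x - z)) :=
        (hH r).continuous.comp (continuous_id.sub continuous_const)
      have hnear : ∀ x : X, ∀ s : ℝ, 0 < s → {y | ‖H r (y - z) - H r (x - z)‖ < s} ∈ 𝓝 x := by
        intro x s hs
        have h3 : Continuous (fun y => ‖H r (y - z) - H r (x - z)‖) :=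
          (hcont.sub continuous_const).norm
        have h4 : Tendsto (fun y => ‖H r (y - z) - H r (x - z)‖) (𝓝 x) (𝓝 0) := by
          have h5 := h3.tendsto x
          simpa using h5
        exact h4.eventually (gt_mem_nhds hs)
      have hfin : ∀ x ∈ (univ : Set X), ∃ U ∈ 𝓝 x,
          {γ | ∃ y ∈ U, (q₁ : ℝ) / 2 ≤ |e γ (H r (y - z))|}.Finite := by
        intro x _
        refine ⟨_, hnear x (q₁ / 4) (by positivity), ?_⟩
        refine (hec (H r (x - z)) (q₁ / 4) (by positivity)).subset ?_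
        rintro γ ⟨y, hy, hγ⟩
        have h5 := hle γ (H r (y - z)) (H r (x - z))
        have h6 := abs_sub_abs_le_abs_sub (e γ (H r (y - z))) (e γ (H r (x - z)))
        simp only [mem_setOf_eq] at hy hγ ⊢
        linarith
      have heq : ∀ x ∈ (univ : Set X), ∃ U ∈ 𝓝 x, ∀ y ∈ U, ∀ y' ∈ U, ∀ γ,
          |e γ (H r (y - z)) - e γ (H r (y' - z))| < (q₂ : ℝ) - q₁ := by
        intro x _
        refine ⟨_, hnear x ((q₂ - q₁) / 2) (by linarith), ?_⟩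
        intro y hy y' hy' γ
        simp only [mem_setOf_eq] at hy hy'
        refine (hle γ (H r (y - z)) (H r (y' - z))).trans_lt ?_
        have : H r (y - z) - H r (y' - z) =
            (H r (y - z) - H r (x - z)) - (H r (y' - z) - H r (x - z)) := by abel
        rw [this]
        exact (norm_sub_le _ _).trans_lt (by linarith)
      obtain ⟨p, hp, hpG⟩ := cell hk (fun γ x => e γ (H r (x - z)))
        (fun γ => (e γ).contDiff.comp ((hH r).comp (contDiff_id.sub contDiff_const)))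
        (fun _ => (1 : ℝ)) contDiff_const (fun _ => zero_le_one) univ isOpen_univ
        (subset_univ _) q₁ q₂ h1' h12' hfin heq
      have h2 := Cov.comp hp (fun G => ih (F ∪ G))
      refine h2.mono ?_
      rintro x ⟨G, hG, hx⟩
      exact ⟨G, (hpG G x).2 ⟨one_ne_zero, hG⟩, hx⟩
    refine h1.mono ?_
    rintro x ⟨G, ⟨z, hz, r, q₁, q₂, h1, h12, hG⟩, hx⟩
    exact mem_iUnion.2 ⟨⟨⟨z, hz⟩, r, ⟨(q₁, q₂), h1, h12⟩⟩, G, hG, hx⟩

theorem succ_le {k : WithTop ℕ∞} (hk : k ≤ ((⊤ : ℕ∞) : WithTop ℕ∞)) :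
    k + 1 ≤ ((⊤ : ℕ∞) : WithTop ℕ∞) := by
  have hne : k ≠ ⊤ := fun h => by
    rw [h] at hk
    exact absurd hk (not_le.2 (WithTop.coe_lt_top _))
  obtain ⟨k', rfl⟩ := WithTop.ne_top_iff_exists.1 hne
  have : ((k' : ℕ∞) : WithTop ℕ∞) + 1 = ((k' + 1 : ℕ∞) : WithTop ℕ∞) := by
    push_cast
    rfl
  rw [this]
  exact WithTop.coe_le_coe.2 le_top

end CovUniv

theorem cov_univ {X : Type u} [NormedAddCommGroup X] [NormedSpace ℝ X] [CompleteSpace X]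
    {k : WithTop ℕ∞} (hk : k ≤ ((⊤ : ℕ∞) : WithTop ℕ∞)) {Ψ : X → ℝ} {a A : ℝ}
    (h : Led (k + 1) Ψ a A) (ε : ℝ) (hε : 0 < ε) : Cov k (univ : Set X) ε := by
  classical
  have h1k : (1 : WithTop ℕ∞) ≤ k + 1 := le_add_self
  have hkk : k ≤ k + 1 := le_self_add
  have hD0 : (fun x => fderiv ℝ Ψ x) 0 = 0 := h.deriv_zero.fderiv
  have hD : Dens (fun x => fderiv ℝ Ψ x) := h.dens h1k
  obtain ⟨Γ, e, V, he1, hec, hVc, hVm, hVq, hVn⟩ := exists_V hD (hasSys_univ hD hD0)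
  have hcut : ∀ r : ℕ, ∃ σ : ℝ → ℝ, (∀ t, 0 ≤ σ t) ∧ (∀ t, 1 / ((r : ℝ) + 1) < t → σ t ≠ 0) ∧
      ContDiff ℝ k (fun x => σ (Ψ x) • fderiv ℝ Ψ x) :=
    fun r => h.cutoff hk _ (by positivity)
  choose σ hσ0 hσ1 hσ2 using hcut
  obtain ⟨ρ, hρ, hball⟩ := h.ball (CovUniv.succ_le hk) ε hε
  set H : ℕ → X → (X →L[ℝ] ℝ) := fun r x => σ r (Ψ x) • fderiv ℝ Ψ x with hH
  have hcov : ∀ l, Cov k (CovUniv.E e V H ρ l ∅) ε := fun l =>
    CovUniv.covE hk he1 hec hVc hσ2 (fun v => by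
      obtain ⟨β, hβ, hβ'⟩ := hball v
      exact ⟨β, hβ.of_le hkk, hβ'⟩) l ∅
  refine (Cov.iUnion hcov).mono ?_
  intro x _
  rw [mem_iUnion]
  -- the union of the attached sets is dense at x
  have hx : x ∈ closure (CovUniv.S e V H x) := by
    by_contra hx
    obtain ⟨c, hc, hdet⟩ := h.detect h1k _ (CovUniv.S_isQ hVm hVq x) x hx
    obtain ⟨r, hr⟩ := exists_nat_one_div_lt hc
    obtain ⟨z, hz, hz1, hz2, hz3⟩ := hdet (c / 2) (by positivity)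
    have hs : 0 < σ r (Ψ (x - z)) := lt_of_le_of_ne (hσ0 r _) (hσ1 r _ (hr.trans_le hz1)).symm
    have hn := CovUniv.S_nrm (H := H) hec hVm hVn x z hz r
    have h1 : ∀ u, fderiv ℝ Ψ (x - z) u ≤ (c / 2) * ‖u‖ := by
      intro u
      have h2 := hn (σ r (Ψ (x - z)) * (c / 2)) (by positivity) (by
        intro u hu
        show σ r (Ψ (x - z)) * fderiv ℝ Ψ (x - z) u ≤ _
        rw [mul_assoc]
        exact mul_le_mul_of_nonneg_left ((le_abs_self _).trans (hz3 u hu)) hs.le) u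
      have h3 : σ r (Ψ (x - z)) * fderiv ℝ Ψ (x - z) u ≤ σ r (Ψ (x - z)) * ((c / 2) * ‖u‖) := by
        rw [← mul_assoc]
        exact h2
      exact le_of_mul_le_mul_left h3 hs
    have h2 : ‖fderiv ℝ Ψ (x - z)‖ ≤ c / 2 := by
      refine ContinuousLinearMap.opNorm_le_bound _ (by positivity) (fun u => ?_)
      rw [Real.norm_eq_abs, abs_le]
      refine ⟨?_, h1 u⟩
      have := h1 (-u)
      rw [map_neg, norm_neg] at this
      linarith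
    linarith
  obtain ⟨v, ⟨F, hF, hv⟩, hd⟩ := Metric.mem_closure_iff.1 hx ρ hρ
  exact hF.back 0 ⟨v, hv, by rwa [← dist_eq_norm]⟩

end Pool.Agent.Helper74.Apx
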