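import Mathlib
import Pool.Agent.Helper74.Full.Defs

/-!
Definitions for smooth approximation of continuous maps.
-/

set_option autoImplicit false

open scoped Topology
open Filter Set

namespace Pool.Agent.Helper74.Apx

section General

variable {X : Type*} [NormedAddCommGroup X] [NormedSpace ℝ X]

/-- a discrete family of nonnegative smooth functions -/
structure Disc (n : WithTop ℕ∞) {ι : Type*} (p : ι → X → ℝ) : Prop where
  smooth : ∀ i, ContDiff ℝ n (p i)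
  nonneg : ∀ i x, 0 ≤ p i x
  disc : ∀ x, ∃ U ∈ 𝓝 x, ∀ i j, ∀ y ∈ U, ∀ y' ∈ U, p i y ≠ 0 → p j y' ≠ 0 → i = j

/-- `E` is covered by countably many discrete families of small smooth functions -/
def Cov (n : WithTop ℕ∞) (E : Set X) (ε : ℝ) : Prop :=
  ∃ P : ℕ → Set (X → ℝ), (∀ m, Disc n (fun p : P m => (p : X → ℝ))) ∧
    (∀ m, ∀ p ∈ P m, ∀ y y', p y ≠ 0 → p y' ≠ 0 → ‖y - y'‖ ≤ ε) ∧
    ∀ x ∈ E, ∃ m, ∃ p ∈ P m, p x ≠ 0

/-- a function which behaves like the square of a smooth gauge -/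
structure Led (n : WithTop ℕ∞) (Ψ : X → ℝ) (a A : ℝ) : Prop where
  a_pos : 0 < a
  lower : ∀ x, a * ‖x‖ ^ 2 ≤ Ψ x
  upper : ∀ x, Ψ x ≤ A * ‖x‖ ^ 2
  smooth : ContDiffOn ℝ n Ψ {x | x ≠ 0}
  euler : ∀ x, x ≠ 0 → fderiv ℝ Ψ x x = 2 * Ψ x

/-- `A` is norming for the functional `φ` -/
def Nrm (A : Set X) (φ : X →L[ℝ] ℝ) : Prop :=
  ∀ C : ℝ, 0 ≤ C → (∀ u ∈ A, φ u ≤ C * ‖u‖) → ∀ u, φ u ≤ C * ‖u‖

/-- the functionals `D v` approximate every functional on every `ℚ`-subspace -/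
def Dens (D : X → (X →L[ℝ] ℝ)) : Prop :=
  ∀ V : Set X, Full.IsQ V → ∀ φ : X →L[ℝ] ℝ, ∀ ε > 0, ∃ v ∈ V, ∀ u ∈ V,
    |(D v - φ) u| ≤ ε * ‖u‖

/-- `A` is a `ℚ`-subspace which norms all rational combinations of the `D v` with `v ∈ A` -/
def Rich (D : X → (X →L[ℝ] ℝ)) (A : Set X) : Prop :=
  Full.IsQ A ∧ ∀ (F : Finset X) (r : X → ℚ), (↑F : Set X) ⊆ A →
    Nrm A (∑ v ∈ F, (r v : ℝ) • D v)

/-- the closed linear span of the `D v` with `v ∈ A` -/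
noncomputable def EA (D : X → (X →L[ℝ] ℝ)) (A : Set X) : Submodule ℝ (X →L[ℝ] ℝ) :=
  (Submodule.span ℝ (D '' A)).topologicalClosure

/-- `P` is the projection onto `EA D A` along the functionals which vanish on `A` -/
structure IsProj (D : X → (X →L[ℝ] ℝ)) (A : Set X)
    (P : (X →L[ℝ] ℝ) →L[ℝ] (X →L[ℝ] ℝ)) : Prop where
  mem : ∀ φ, P φ ∈ EA D A
  eq : ∀ φ, ∀ u ∈ A, P φ u = φ u
  le : ∀ φ, ‖P φ‖ ≤ ‖φ‖

/-- closure of a set under a finitary set-valued operation -/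
inductive ClP {E : Type*} (gen : Finset E → Set E) (S : Set E) : E → Prop
  | base (x : E) : x ∈ S → ClP gen S x
  | step (F : Finset E) (x : E) : (∀ y ∈ F, ClP gen S y) → x ∈ gen F → ClP gen S x

/-- closure of a set under a finitary set-valued operation -/
def Cl {E : Type*} (gen : Finset E → Set E) (S : Set E) : Set E := {x | ClP gen S x}

end General

universe u

/-- a system of coordinates for the functionals in `EA D A` -/
def HasSys {X : Type u} [NormedAddCommGroup X] [NormedSpace ℝ X]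
    (D : X → (X →L[ℝ] ℝ)) (A : Set X) : Prop :=
  ∃ (Γ : Type u) (e : Γ → ((X →L[ℝ] ℝ) →L[ℝ] ℝ)) (W : Finset Γ → Set (X →L[ℝ] ℝ)),
    (∀ γ, ‖e γ‖ ≤ 1) ∧ (∀ φ, ∀ q > (0 : ℝ), {γ | q ≤ |e γ φ|}.Finite) ∧
    (∀ F, (W F).Countable) ∧ (∀ F G, F ⊆ G → W F ⊆ W G) ∧ W ∅ = {0} ∧
    ∀ φ ∈ EA D A, ∀ ε > 0, ∃ F : Finset Γ, (∀ γ ∈ F, e γ φ ≠ 0) ∧ ∃ w ∈ W F, ‖φ - w‖ ≤ ε

end Pool.Agent.Helper74.Apx
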