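import Pool.Agent.Helper74.Full.Final
import Pool.Agent.Helper74.Cons.Baire

/-! Density of the Fréchet smooth norms in the space `Nm X`. -/

set_option autoImplicit false

open scoped Topology
open Filter Set

namespace Pool.Agent.Helper74.Apx

open Pool.Agent.Helper74.Rsd

theorem dense_smooth (X : Type) [NormedAddCommGroup X] [NormedSpace ℝ X] [CompleteSpace X]
    (p : Nm X) (hp : ∀ x : X, x ≠ 0 → DifferentiableAt ℝ p.1 x) (p₀ : Nm X) (ε : ℝ)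
    (hε : 0 < ε) : ∃ q : Nm X, (∀ x : X, x ≠ 0 → DifferentiableAt ℝ q.1 x) ∧
      ∀ x, |p₀.1 x - q.1 x| ≤ ε * ‖x‖ := by
  obtain ⟨a, b, hpN⟩ := p.2
  obtain ⟨U, hU0, hU1, hU2, hU3⟩ := Full.frechet_residual X p.1 hpN.add hpN.smul
    ⟨a, b, hpN.a_pos, hpN.b_pos, fun x => ⟨hpN.lower x, hpN.upper x⟩⟩ hp _ rfl
  have hmem : ∀ q : Nm X, q.1 ∈ {p : X → ℝ | (∀ x y : X, p (x + y) ≤ p x + p y) ∧
            (∀ (c : ℝ) (x : X), p (c • x) = |c| * p x) ∧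
            (∃ a b : ℝ, 0 < a ∧ 0 < b ∧ ∀ x : X, a * ‖x‖ ≤ p x ∧ p x ≤ b * ‖x‖)} := by
    intro q
    obtain ⟨a, b, h⟩ := q.2
    exact ⟨h.add, h.smul, a, b, h.a_pos, h.b_pos, fun x => ⟨h.lower x, h.upper x⟩⟩
  have h1 : ∀ n, @IsOpen _ (topNm X) {q : Nm X | q.1 ∈ U n} := by
    intro n q hq
    obtain ⟨ε, hε, h⟩ := hU1 n q.1 hq
    refine ⟨ε, hε, fun q' hq' => h q'.1 (hmem q') fun x hx => (hq' x).trans ?_⟩
    nlinarith
  have h2 : ∀ n, @Dense _ (topNm X) {q : Nm X | q.1 ∈ U n} := by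
    intro n
    let _ := topNm X
    rw [dense_iff_inter_open]
    rintro V hV ⟨q, hqV⟩
    obtain ⟨r, hr, hball⟩ := hV q hqV
    obtain ⟨q', hq'U, hq'⟩ := hU2 n q.1 (hmem q) r hr
    have hN := hU0 n hq'U
    obtain ⟨g1, g2, a', b', ha', hb', g3⟩ := hN
    have hq'N : IsEqNorm q' a' b' :=
      ⟨g1, g2, ha', hb', fun x => (g3 x).1, fun x => (g3 x).2⟩
    refine ⟨⟨q', a', b', hq'N⟩, hball _ fun y => ?_, hq'U⟩
    obtain ⟨a1, b1, hqN⟩ := q.2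
    change |q.1 y - q' y| ≤ r * ‖y‖
    by_cases hy : y = 0
    · subst hy
      rw [Nm.map_zero hqN, Nm.map_zero hq'N]
      simp
    · have hy0 : 0 < ‖y‖ := norm_pos_iff.mpr hy
      have h1 := hq' ((‖y‖)⁻¹ • y) (by
        rw [norm_smul, norm_inv, norm_norm, inv_mul_cancel₀ hy0.ne'])
      rw [hqN.smul, hq'N.smul, ← mul_sub, abs_mul, abs_abs, abs_of_pos (inv_pos.mpr hy0),
        inv_mul_le_iff₀ hy0] at h1
      linarith
  obtain ⟨q, hq1, hq2⟩ := Cons.baire_Nm _ h1 h2 p₀ ε hε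
  exact ⟨q, fun x hx => hU3 q.1 (hmem q) (fun n => hq1 n) x hx, hq2⟩

end Pool.Agent.Helper74.Apx
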