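import Pool.Agent.Helper74.Apx.Defs

/-!
The Leduc function of a bump.
-/

set_option autoImplicit false

open scoped Topology
open Filter Set

namespace Pool.Agent.Helper74.Apx

namespace Leduc

open MeasureTheory

variable {X : Type*} [NormedAddCommGroup X] [NormedSpace ℝ X]

/-- The integral of a bump over the line through `x`. -/
noncomputable def I (c : X → ℝ) (x : X) : ℝ := ∫ s : ℝ, c (s • x)

lemma I_smul (c : X → ℝ) (t : ℝ) (x : X) : I c (t • x) = |t⁻¹| * I c x := by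
  unfold I
  have := Measure.integral_comp_mul_right (fun s : ℝ => c (s • x)) t
  simp only [mul_smul, smul_eq_mul] at this
  exact this

lemma I_zero (c : X → ℝ) : I c 0 = 0 := by
  unfold I
  simp only [smul_zero, integral_const, smul_eq_mul]
  rw [measureReal_def, Real.volume_univ]
  simp

lemma contDiffOn_I {m : ℕ∞} {c : X → ℝ} (hc : ContDiff ℝ (m : WithTop ℕ∞) c) {R : ℝ}
    (hR : ∀ x, R < ‖x‖ → c x = 0) : ContDiffOn ℝ (m : WithTop ℕ∞) (I c) {x | x ≠ 0} := by
  have key : ∀ r₀ : ℝ, 0 < r₀ → ContDiffOn ℝ (m : WithTop ℕ∞) (I c) {x | r₀ < ‖x‖} := by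
    intro r₀ hr₀
    have h := contDiffOn_convolution_right_with_param_comp (𝕜 := ℝ) (n := m)
      (μ := (volume : Measure ℝ)) (ContinuousLinearMap.mul ℝ ℝ)
      (s := {x : X | r₀ < ‖x‖}) (v := fun _ => (0 : ℝ)) contDiffOn_const
      (f := fun _ : ℝ => (1 : ℝ)) (g := fun (p : X) (s : ℝ) => c (s • p))
      (k := Icc (-(R / r₀)) (R / r₀)) (isOpen_lt continuous_const continuous_norm)
      isCompact_Icc ?_ (locallyIntegrable_const _) ?_
    · refine h.congr ?_
      intro x _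
      unfold I
      rw [convolution_def]
      simp only [ContinuousLinearMap.mul_apply', one_mul, zero_sub]
      exact (integral_neg_eq_self (fun s : ℝ => c (s • x)) volume).symm
    · intro p s hp hs
      apply hR
      rw [norm_smul, Real.norm_eq_abs]
      have h1 : R / r₀ < |s| := by
        by_contra hcon
        push Not at hcon
        exact hs (abs_le.mp hcon)
      rw [div_lt_iff₀ hr₀] at h1
      exact h1.trans_le (mul_le_mul_of_nonneg_left (le_of_lt hp) (abs_nonneg _))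
    · apply ContDiff.contDiffOn
      exact hc.comp (contDiff_snd.smul contDiff_fst)
  intro x hx
  have hx' : 0 < ‖x‖ := norm_pos_iff.mpr hx
  have h1 := key (‖x‖ / 2) (by positivity) x (by
    change ‖x‖ / 2 < ‖x‖
    linarith)
  have hopen : IsOpen {y : X | ‖x‖ / 2 < ‖y‖} := isOpen_lt continuous_const continuous_norm
  exact (h1.contDiffAt (hopen.mem_nhds (by change ‖x‖ / 2 < ‖x‖; linarith))).contDiffWithinAt

lemma integrable_line {c : X → ℝ} (hc : Continuous c) {R : ℝ}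
    (hR : ∀ x, R < ‖x‖ → c x = 0) {x : X} (hx : x ≠ 0) : Integrable (fun s : ℝ => c (s • x)) := by
  have hx' : 0 < ‖x‖ := norm_pos_iff.mpr hx
  apply Continuous.integrable_of_hasCompactSupport (by fun_prop)
  refine HasCompactSupport.intro (K := Icc (-(R / ‖x‖)) (R / ‖x‖)) isCompact_Icc ?_
  intro s hs
  apply hR
  rw [norm_smul, Real.norm_eq_abs]
  have h1 : R / ‖x‖ < |s| := by
    by_contra hcon
    push Not at hcon
    exact hs (abs_le.mp hcon)
  rwa [div_lt_iff₀ hx'] at h1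

lemma I_le {c : X → ℝ} (hc : Continuous c) (h1 : ∀ x, c x ≤ 1) {R : ℝ} (hR0 : 0 < R)
    (hR : ∀ x, R < ‖x‖ → c x = 0) {x : X} (hx : x ≠ 0) : I c x ≤ 2 * R / ‖x‖ := by
  have hx' : 0 < ‖x‖ := norm_pos_iff.mpr hx
  have hle : ∀ s : ℝ, c (s • x) ≤ indicator (Icc (-(R / ‖x‖)) (R / ‖x‖)) (fun _ => (1 : ℝ)) s := by
    intro s
    by_cases hs : s ∈ Icc (-(R / ‖x‖)) (R / ‖x‖)
    · rw [indicator_of_mem hs]; exact h1 _
    · rw [indicator_of_notMem hs]
      apply le_of_eq
      apply hR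
      rw [norm_smul, Real.norm_eq_abs]
      have h1 : R / ‖x‖ < |s| := by
        by_contra hcon
        push Not at hcon
        exact hs (abs_le.mp hcon)
      rwa [div_lt_iff₀ hx'] at h1
  have hint : Integrable (indicator (Icc (-(R / ‖x‖)) (R / ‖x‖)) (fun _ => (1 : ℝ))) volume :=
    (integrable_indicator_iff measurableSet_Icc).mpr
      (integrableOn_const (by simp) (by simp))
  refine (integral_mono (integrable_line hc hR hx) hint hle).trans ?_
  rw [integral_indicator measurableSet_Icc]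
  simp only [integral_const, MeasurableSet.univ, measureReal_restrict_apply, univ_inter,
    Real.volume_real_Icc, smul_eq_mul, mul_one]
  have hpos : 0 < R / ‖x‖ := by positivity
  rw [max_eq_left (by linarith)]
  apply le_of_eq
  ring

lemma le_I {c : X → ℝ} (hc : Continuous c) (h0 : ∀ x, 0 ≤ c x) {R : ℝ}
    (hR : ∀ x, R < ‖x‖ → c x = 0) {r δ : ℝ} (hr : 0 < r)
    (hδ : ∀ x, ‖x‖ ≤ r → δ ≤ c x) {x : X} (hx : x ≠ 0) : 2 * r * δ / ‖x‖ ≤ I c x := by
  have hx' : 0 < ‖x‖ := norm_pos_iff.mpr hx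
  have hle : ∀ s : ℝ, indicator (Icc (-(r / ‖x‖)) (r / ‖x‖)) (fun _ => δ) s ≤ c (s • x) := by
    intro s
    by_cases hs : s ∈ Icc (-(r / ‖x‖)) (r / ‖x‖)
    · rw [indicator_of_mem hs]
      apply hδ
      rw [norm_smul, Real.norm_eq_abs, ← le_div_iff₀ hx']
      exact abs_le.mpr hs
    · rw [indicator_of_notMem hs]
      exact h0 _
  have hint : Integrable (indicator (Icc (-(r / ‖x‖)) (r / ‖x‖)) (fun _ => δ)) volume :=
    (integrable_indicator_iff measurableSet_Icc).mpr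
      (integrableOn_const (by simp) (by simp))
  refine le_trans ?_ (integral_mono hint (integrable_line hc hR hx) hle)
  rw [integral_indicator measurableSet_Icc]
  simp only [integral_const, MeasurableSet.univ, measureReal_restrict_apply, univ_inter,
    Real.volume_real_Icc, smul_eq_mul]
  have hpos : 0 < r / ‖x‖ := by positivity
  rw [max_eq_left (by linarith)]
  apply le_of_eq
  ring

end Leduc

open Leduc in
theorem exists_led {X : Type*} [NormedAddCommGroup X] [NormedSpace ℝ X] {m : ℕ∞} (hm : 1 ≤ m)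
    (b : X → ℝ) (hb : ContDiff ℝ (m : WithTop ℕ∞) b) (hne : b ≠ 0)
    (hbd : Bornology.IsBounded (Function.support b)) :
    ∃ (Ψ : X → ℝ) (a A : ℝ), Led (m : WithTop ℕ∞) Ψ a A := by
  obtain ⟨x₀, hx₀⟩ : ∃ x₀, b x₀ ≠ 0 := by
    by_contra hcon
    push Not at hcon
    exact hne (funext hcon)
  obtain ⟨R0, hR0, hR0'⟩ := hbd.exists_pos_norm_le
  -- the bump
  obtain ⟨c, hcdef⟩ : ∃ c : X → ℝ, c = fun x => b (x + x₀) ^ 2 / (1 + b (x + x₀) ^ 2) := ⟨_, rfl⟩
  have hc : ContDiff ℝ (m : WithTop ℕ∞) c := by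
    rw [hcdef]
    have h1 : ContDiff ℝ (m : WithTop ℕ∞) (fun x => b (x + x₀)) :=
      hb.comp (contDiff_id.add contDiff_const)
    exact (h1.pow 2).div (contDiff_const.add (h1.pow 2)) (fun x => by positivity)
  have hcc : Continuous c := hc.continuous
  have hc0 : ∀ x, 0 ≤ c x := fun x => by rw [hcdef]; positivity
  have hc1 : ∀ x, c x ≤ 1 := fun x => by
    rw [hcdef]
    simp only
    rw [div_le_one (by positivity)]
    linarith
  obtain ⟨R, hRdef⟩ : ∃ R, R = R0 + ‖x₀‖ := ⟨_, rfl⟩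
  have hRpos : 0 < R := by rw [hRdef]; positivity
  have hR : ∀ x, R < ‖x‖ → c x = 0 := by
    intro x hx
    have hb0 : b (x + x₀) = 0 := by
      by_contra hcon
      have h1 := hR0' (x + x₀) hcon
      have h2 : ‖x‖ ≤ ‖x + x₀‖ + ‖x₀‖ := by
        have := norm_sub_le (x + x₀) x₀
        simpa using this
      linarith
    rw [hcdef]
    simp [hb0]
  have hcz : 0 < c 0 := by
    rw [hcdef]
    simp only [zero_add]
    positivity
  obtain ⟨r, hr, hr'⟩ : ∃ r > 0, ∀ x, ‖x‖ ≤ r → c 0 / 2 ≤ c x := by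
    have h1 : ∀ᶠ x in 𝓝 (0 : X), c 0 / 2 < c x :=
      hcc.continuousAt.eventually (lt_mem_nhds (by linarith))
    obtain ⟨r, hr, hr'⟩ := Metric.eventually_nhds_iff.mp h1
    refine ⟨r / 2, by positivity, fun x hx => (hr' ?_).le⟩
    rw [dist_zero_right]
    linarith
  obtain ⟨δ, hδ⟩ : ∃ δ, δ = c 0 / 2 := ⟨_, rfl⟩
  have hδ0 : 0 < δ := by rw [hδ]; positivity
  rw [← hδ] at hr'
  have hIle : ∀ x : X, x ≠ 0 → I c x ≤ 2 * R / ‖x‖ := fun x hx => I_le hcc hc1 hRpos hR hx
  have hIge : ∀ x : X, x ≠ 0 → 2 * r * δ / ‖x‖ ≤ I c x := fun x hx => le_I hcc hc0 hR hr hr' hx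
  have hIpos : ∀ x : X, x ≠ 0 → 0 < I c x := fun x hx => by
    have hx' : 0 < ‖x‖ := norm_pos_iff.mpr hx
    exact lt_of_lt_of_le (by positivity) (hIge x hx)
  have hsm : ContDiffOn ℝ (m : WithTop ℕ∞) (fun x => ((I c x) ^ 2)⁻¹) {x | x ≠ 0} := by
    apply ContDiffOn.inv ((contDiffOn_I hc hR).pow 2)
    intro x hx
    have := hIpos x hx
    positivity
  refine ⟨fun x => ((I c x) ^ 2)⁻¹, (4 * R ^ 2)⁻¹, (4 * (r * δ) ^ 2)⁻¹, by positivity, ?_, ?_, hsm, ?_⟩
  · intro x
    by_cases hx : x = 0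
    · subst hx
      simp [I_zero]
    · have hx' : 0 < ‖x‖ := norm_pos_iff.mpr hx
      have h1 := hIle x hx
      have h2 := hIpos x hx
      have h3 : (I c x) ^ 2 ≤ (2 * R / ‖x‖) ^ 2 := pow_le_pow_left₀ h2.le h1 2
      have h4 : ((2 * R / ‖x‖) ^ 2)⁻¹ ≤ ((I c x) ^ 2)⁻¹ := inv_anti₀ (by positivity) h3
      refine le_trans (le_of_eq ?_) h4
      field_simp
      ring
  · intro x
    by_cases hx : x = 0
    · subst hx
      simp [I_zero]
    · have hx' : 0 < ‖x‖ := norm_pos_iff.mpr hx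
      have h1 := hIge x hx
      have h3 : (2 * r * δ / ‖x‖) ^ 2 ≤ (I c x) ^ 2 := pow_le_pow_left₀ (by positivity) h1 2
      have h4 : ((I c x) ^ 2)⁻¹ ≤ ((2 * r * δ / ‖x‖) ^ 2)⁻¹ := inv_anti₀ (by positivity) h3
      refine le_trans h4 (le_of_eq ?_)
      field_simp
      ring
  · intro x hx
    have hm' : (1 : WithTop ℕ∞) ≤ (m : WithTop ℕ∞) := by exact_mod_cast hm
    have hopen : IsOpen {x : X | x ≠ 0} := isOpen_ne
    have hd : DifferentiableAt ℝ (fun x => ((I c x) ^ 2)⁻¹) x :=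
      (hsm.contDiffAt (hopen.mem_nhds hx)).differentiableAt (by
        intro h0
        rw [h0] at hm'
        simp at hm')
    have h1 : HasDerivAt (fun t : ℝ => ((I c (t • x)) ^ 2)⁻¹)
        (fderiv ℝ (fun x => ((I c x) ^ 2)⁻¹) x x) 1 := by
      have hl : HasDerivAt (fun t : ℝ => t • x) x 1 := by
        simpa using (hasDerivAt_id (1 : ℝ)).smul_const x
      have hf : HasFDerivAt (fun x => ((I c x) ^ 2)⁻¹) (fderiv ℝ (fun x => ((I c x) ^ 2)⁻¹) x)
          ((fun t : ℝ => t • x) 1) := by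
        simpa using hd.hasFDerivAt
      exact hf.comp_hasDerivAt (1 : ℝ) hl
    have h2 : (fun t : ℝ => ((I c (t • x)) ^ 2)⁻¹) = fun t : ℝ => t ^ 2 * ((I c x) ^ 2)⁻¹ := by
      ext t
      rw [I_smul, mul_pow, sq_abs, mul_inv, inv_pow, inv_inv]
    have h3 : HasDerivAt (fun t : ℝ => t ^ 2 * ((I c x) ^ 2)⁻¹) (2 * ((I c x) ^ 2)⁻¹) 1 := by
      have := (hasDerivAt_pow 2 (1 : ℝ)).mul_const (((I c x) ^ 2)⁻¹)
      simpa using this
    rw [h2] at h1
    exact h1.unique h3

end Pool.Agent.Helper74.Apx
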