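import Pool.Agent.Helper74.Apx.CovUniv
import Pool.Agent.Helper74.Apx.Leduc
import Pool.Agent.Helper74.Apx.Glue

/-! Spaces with a smooth bump: every continuous map is uniformly approximable by maps with one
derivative less. -/

set_option autoImplicit false

open scoped Topology
open Filter Set

namespace Pool.Agent.Helper74.Apx

theorem smooth_approx (k : ℕ∞) (X : Type) [NormedAddCommGroup X] [NormedSpace ℝ X]
    [CompleteSpace X]
    (hb : ∃ b : X → ℝ, ContDiff ℝ ((k + 1 : ℕ∞) : WithTop ℕ∞) b ∧ b ≠ 0 ∧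
      Bornology.IsBounded (Function.support b))
    (Y : Type) [NormedAddCommGroup Y] [NormedSpace ℝ Y]
    (f : X → Y) (hf : Continuous f) (ε : ℝ) (hε : 0 < ε) :
    ∃ g : X → Y, ContDiff ℝ ((k : ℕ∞) : WithTop ℕ∞) g ∧ ∀ x, ‖f x - g x‖ < ε := by
  obtain ⟨b, hb1, hb2, hb3⟩ := hb
  obtain ⟨Ψ, a, A, h⟩ := exists_led (m := k + 1) le_add_self b hb1 hb2 hb3
  have h' : Led ((k : WithTop ℕ∞) + 1) Ψ a A := by
    have e : ((k + 1 : ℕ∞) : WithTop ℕ∞) = (k : WithTop ℕ∞) + 1 := by push_cast; rfl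
    rwa [e] at h
  have hk : ((k : ℕ∞) : WithTop ℕ∞) ≤ ((⊤ : ℕ∞) : WithTop ℕ∞) := by
    exact_mod_cast le_top
  exact approx_of_cov hk (fun ε hε => cov_univ hk h' ε hε) f hf ε hε

end Pool.Agent.Helper74.Apx
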