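import Pool.Agent.Helper74.Apx.DensSmooth
import Pool.Agent.Helper74.Apx.DistCov
import Pool.Agent.Helper74.Apx.DistApprox
import Pool.Agent.Helper74.Apx.Glue
import Pool.Agent.Helper74.Apx.LedBump
import Pool.Agent.Helper74.Apx.LedBasic

/-! Spaces with an equivalent Fréchet smooth norm: every continuous map is uniformly
approximable by continuously differentiable maps. -/

set_option autoImplicit false

open scoped Topology
open Filter Set

namespace Pool.Agent.Helper74.Apx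

open Pool.Agent.Helper74.Rsd

theorem norm_approx (X : Type) [NormedAddCommGroup X] [NormedSpace ℝ X]
    [CompleteSpace X] (p : X → ℝ) (h1 : ∀ x y : X, p (x + y) ≤ p x + p y)
    (h2 : ∀ (c : ℝ) (x : X), p (c • x) = |c| * p x)
    (h3 : ∃ a b : ℝ, 0 < a ∧ 0 < b ∧ ∀ x : X, a * ‖x‖ ≤ p x ∧ p x ≤ b * ‖x‖)
    (h4 : ∀ x : X, x ≠ 0 → DifferentiableAt ℝ p x)
    (Y : Type) [NormedAddCommGroup Y] [NormedSpace ℝ Y]
    (f : X → Y) (hf : Continuous f) (ε : ℝ) (hε : 0 < ε) :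
    ∃ g : X → Y, ContDiff ℝ 1 g ∧ ∀ x, ‖f x - g x‖ < ε := by
  obtain ⟨a, b, ha, hb, h5⟩ := h3
  let P : Nm X := ⟨p, a, b, h1, h2, ha, hb, fun x => (h5 x).1, fun x => (h5 x).2⟩
  obtain ⟨a', A', hled⟩ := led_of_norm P h4
  have hn : (1 : WithTop ℕ∞) ≤ ((⊤ : ℕ∞) : WithTop ℕ∞) := by
    exact_mod_cast le_top
  refine approx_of_cov hn (fun ε hε => cov_of_dist hn (fun A hA R η hη => ?_)
    (fun ε hε => hled.ball hn ε hε) ε hε) f hf ε hε
  exact approx_dist (fun p₀ ε hε => dense_smooth X P h4 p₀ ε hε) A hA R η hη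

end Pool.Agent.Helper74.Apx
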